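import Pool.Agent.Q191.LB.Bun

/-!
# Negative bundle crossings
-/

set_option autoImplicit false

namespace Pool.Agent.Q191.LB

open Matrix Finset
open scoped Kronecker
open Pool.Agent.H550R3.Jones (WM IsMod IsInt Gen br brf tens irr nb R Rinv Rh Rhi crossP crossN)
open Pool.Agent.H897R.J (HasWt gen_br gen_v br_neg br_zero wt_F)
open Pool.Agent.Q191.FT

variable {N : ℕ}

theorem sand {α β α' : Type} [Fintype α] [Fintype β] [Fintype α'] (X : α → ℂ) (R : α → β → ℂ)
    (S : β → α' → ℂ) (T : α' → ℂ) :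
    ∑ p, (∑ m, X m * R m p) * (∑ m', S p m' * T m') =
      ∑ m, ∑ m', X m * (∑ p, R m p * S p m') * T m' := by
  calc ∑ p, (∑ m, X m * R m p) * (∑ m', S p m' * T m')
      = ∑ p, ∑ m, ∑ m', X m * R m p * (S p m' * T m') := by simp only [sum_mul_sum]
    _ = ∑ m, ∑ m', ∑ p, X m * R m p * (S p m' * T m') := by
        rw [sum_comm]
        exact sum_congr rfl fun m _ => sum_comm
    _ = _ := by
        refine sum_congr rfl fun m _ => sum_congr rfl fun m' _ => ?_
        rw [mul_sum, sum_mul]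
        exact sum_congr rfl fun p _ => by ring

theorem inv_uniq {α β : Type} [Fintype α] [DecidableEq α] [Fintype β] [DecidableEq β]
    {Q P : Matrix α β ℂ} {S : Matrix β α ℂ} (h1 : Q * S = 1) (h2 : S * P = 1) : Q = P := by
  calc Q = Q * (S * P) := by rw [h2, Matrix.mul_one]
    _ = P := by rw [← Matrix.mul_assoc, h1, Matrix.one_mul]

theorem Rinv_triv_right (u : ℂ) {ι : Type} [Fintype ι] [DecidableEq ι] (V : WM ι) :
    Rinv u V triv = 1 := by
  unfold Rinv
  have e1 : (diagonal fun p : ι × Unit => u ^ (-(V.wt p.1 * triv.wt p.2))) = 1 := by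
    rw [← diagonal_one]
    congr 1
    funext p
    simp [triv]
  rw [e1, mul_one, sum_eq_single 0]
  · simp [brf]
  · intro n _ hn
    have : triv.F ^ n = 0 := zero_pow hn
    rw [this, kronecker_zero, smul_zero]
  · intro h
    exact absurd (mem_range.2 (Nat.succ_pos _)) h

theorem Rinv_triv_left (u : ℂ) {ι : Type} [Fintype ι] [DecidableEq ι] (V : WM ι) :
    Rinv u triv V = 1 := by
  unfold Rinv
  have e1 : (diagonal fun p : Unit × ι => u ^ (-(triv.wt p.1 * V.wt p.2))) = 1 := by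
    rw [← diagonal_one]
    congr 1
    funext p
    simp [triv]
  rw [e1, mul_one, sum_eq_single 0]
  · simp [brf]
  · intro n _ hn
    have : triv.E ^ n = 0 := zero_pow hn
    rw [this, zero_kronecker, smul_zero]
  · intro h
    exact absurd (mem_range.2 (Nat.succ_pos _)) h

theorem Xc_inv {u : ℂ} (hu : Gen u) (N : ℕ) : ∀ r,
    Xc (Rhi u (irr (u ^ 2) N) (irr (u ^ 2) N)) r = Rhi u (irr (u ^ 2) N) (MM (u ^ 2) N r)
  | 0 => by
    ext ⟨a, x⟩ ⟨y, b⟩
    have h : Rhi u (irr (u ^ 2) N) (MM (u ^ 2) N 0) (a, x) (y, b) =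
        Rinv u (irr (u ^ 2) N) triv (a, x) (b, y) := rfl
    rw [h, Rinv_triv_right]
    change (if a = b then (1 : ℂ) else 0) = _
    by_cases hab : a = b
    · rw [if_pos hab, hab]
      exact (one_apply_eq _).symm
    · rw [if_neg hab, one_apply_ne]
      intro h
      exact hab (congrArg Prod.fst h)
  | r + 1 => by
    have hv := gen_v hu
    have ih := Xc_inv hu N r
    have hM := MM_mod hv N r
    have hV : IsMod (u ^ 2) (irr (u ^ 2) N) := Pool.Agent.H345J.irr_mod hv N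
    have hM1 : IsMod (u ^ 2) (MM (u ^ 2) N (r + 1)) := MM_mod hv N (r + 1)
    have h2 := Pool.Agent.H667J.taskHex2 u hu _ _ _ (MM (u ^ 2) N r) (irr (u ^ 2) N)
      (irr (u ^ 2) N) hM hV hV
    have iVV := (Pool.Agent.H345J.taskInv u hu _ _ (irr (u ^ 2) N) (irr (u ^ 2) N) hV hV).1
    have iVM := (Pool.Agent.H345J.taskInv u hu _ _ (irr (u ^ 2) N) (MM (u ^ 2) N r) hV hM).1
    have iV1 := (Pool.Agent.H345J.taskInv u hu _ _ (irr (u ^ 2) N) (MM (u ^ 2) N (r + 1)) hV hM1).2
    refine inv_uniq (S := Rh u (irr (u ^ 2) N) (MM (u ^ 2) N (r + 1))) ?_ iV1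
    ext ⟨l0, ⟨x0, b0⟩⟩ ⟨l2, ⟨x2, b2⟩⟩
    rw [mul_apply]
    have e1 : ∀ (x : Tp N r) (b l : Fin N), Rh u (irr (u ^ 2) N) (MM (u ^ 2) N (r + 1)) ((x, b), l)
        (l2, (x2, b2)) = ∑ m : Fin N, Rh u (irr (u ^ 2) N) (irr (u ^ 2) N) (b, l) (m, b2) *
          Rh u (irr (u ^ 2) N) (MM (u ^ 2) N r) (x, m) (l2, x2) := fun x b l => h2 x b l l2 x2 b2
    have e2 : ∀ (x : Tp N r) (b l : Fin N), Xc (Rhi u (irr (u ^ 2) N) (irr (u ^ 2) N)) (r + 1)
        (l0, (x0, b0)) ((x, b), l) = ∑ m : Fin N,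
          Rhi u (irr (u ^ 2) N) (MM (u ^ 2) N r) (l0, x0) (x, m) *
            Rhi u (irr (u ^ 2) N) (irr (u ^ 2) N) (m, b0) (b, l) := by
      intro x b l
      rw [← ih]
      rfl
    have hs : ∀ g : (Tp N (r + 1) × Fin N) → ℂ, ∑ p, g p =
        ∑ x : Tp N r, ∑ q : Fin N × Fin N, g ((x, q.1), q.2) := by
      intro g
      rw [Fintype.sum_prod_type, sum_Tp_succ]
      refine sum_congr rfl fun x _ => ?_
      rw [Fintype.sum_prod_type]
    rw [hs]
    have e3 : ∀ x : Tp N r, ∑ q : Fin N × Fin N,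
        Xc (Rhi u (irr (u ^ 2) N) (irr (u ^ 2) N)) (r + 1) (l0, (x0, b0)) ((x, q.1), q.2) *
        Rh u (irr (u ^ 2) N) (MM (u ^ 2) N (r + 1)) ((x, q.1), q.2) (l2, (x2, b2)) =
        if b0 = b2 then ∑ m : Fin N, Rhi u (irr (u ^ 2) N) (MM (u ^ 2) N r) (l0, x0) (x, m) *
          Rh u (irr (u ^ 2) N) (MM (u ^ 2) N r) (x, m) (l2, x2) else 0 := by
      intro x
      simp only [e1, e2]
      rw [sand (fun m => Rhi u (irr (u ^ 2) N) (MM (u ^ 2) N r) (l0, x0) (x, m))
        (fun m (q : Fin N × Fin N) => Rhi u (irr (u ^ 2) N) (irr (u ^ 2) N) (m, b0) (q.1, q.2))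
        (fun (q : Fin N × Fin N) m => Rh u (irr (u ^ 2) N) (irr (u ^ 2) N) (q.1, q.2) (m, b2))
        (fun m => Rh u (irr (u ^ 2) N) (MM (u ^ 2) N r) (x, m) (l2, x2))]
      have e4 : ∀ m m' : Fin N, ∑ q : Fin N × Fin N,
          Rhi u (irr (u ^ 2) N) (irr (u ^ 2) N) (m, b0) (q.1, q.2) *
          Rh u (irr (u ^ 2) N) (irr (u ^ 2) N) (q.1, q.2) (m', b2) =
          if (m, b0) = (m', b2) then 1 else 0 := by
        intro m m'
        have h := congrFun (congrFun iVV (m, b0)) (m', b2)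
        rw [mul_apply, one_apply] at h
        exact h
      simp only [e4]
      split_ifs with hb
      · subst hb
        refine sum_congr rfl fun m _ => ?_
        rw [sum_eq_single m]
        · rw [if_pos rfl, mul_one]
        · intro m' _ hm
          rw [if_neg (fun h => hm (congrArg Prod.fst h).symm), mul_zero, zero_mul]
        · intro h; exact absurd (mem_univ _) h
      · refine sum_eq_zero fun m _ => sum_eq_zero fun m' _ => ?_
        rw [if_neg (fun h => hb (congrArg Prod.snd h)), mul_zero, zero_mul]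
    simp only [e3]
    by_cases hb : b0 = b2
    · simp only [if_pos hb]
      have h := congrFun (congrFun iVM (l0, x0)) (l2, x2)
      rw [mul_apply, Fintype.sum_prod_type, one_apply] at h
      rw [h, one_apply]
      subst hb
      by_cases h3 : (l0, x0) = (l2, x2)
      · rw [if_pos h3, if_pos]
        rw [Prod.mk.injEq] at h3
        rw [h3.1, h3.2]
      · rw [if_neg h3, if_neg]
        intro h4
        apply h3
        have h5 : x0 = x2 := congrArg (fun p : Fin N × Tp N (r + 1) => p.2.1) h4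
        have h6 : l0 = l2 := congrArg (fun p : Fin N × Tp N (r + 1) => p.1) h4
        rw [h5, h6]
    · simp only [if_neg hb, sum_const_zero]
      rw [one_apply_ne]
      intro h4
      exact hb (congrArg (fun p : Fin N × Tp N (r + 1) => p.2.2) h4)

theorem Zc_inv {u : ℂ} (hu : Gen u) (N r : ℕ) : ∀ s,
    Zc (Rhi u (irr (u ^ 2) N) (irr (u ^ 2) N)) r s = Rhi u (MM (u ^ 2) N s) (MM (u ^ 2) N r)
  | 0 => by
    ext ⟨y, x⟩ ⟨x', y'⟩
    have h : Rhi u (MM (u ^ 2) N 0) (MM (u ^ 2) N r) (y, x) (x', y') =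
        Rinv u triv (MM (u ^ 2) N r) (y, x) (y', x') := rfl
    rw [h, Rinv_triv_left]
    change (if x = x' then (1 : ℂ) else 0) = _
    by_cases hab : x = x'
    · rw [if_pos hab, hab]
      exact (one_apply_eq _).symm
    · rw [if_neg hab, one_apply_ne]
      intro h
      exact hab (congrArg Prod.snd h)
  | s + 1 => by
    have hv := gen_v hu
    have ih := Zc_inv hu N r s
    have ihX := Xc_inv hu N r
    have hM := MM_mod hv N r
    have hS := MM_mod hv N s
    have hV : IsMod (u ^ 2) (irr (u ^ 2) N) := Pool.Agent.H345J.irr_mod hv N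
    have hS1 : IsMod (u ^ 2) (MM (u ^ 2) N (s + 1)) := MM_mod hv N (s + 1)
    have h1 := Pool.Agent.H667J.taskHex1 u hu _ _ _ (MM (u ^ 2) N s) (irr (u ^ 2) N)
      (MM (u ^ 2) N r) hS hV hM
    have iVM := (Pool.Agent.H345J.taskInv u hu _ _ (irr (u ^ 2) N) (MM (u ^ 2) N r) hV hM).1
    have iSM := (Pool.Agent.H345J.taskInv u hu _ _ (MM (u ^ 2) N s) (MM (u ^ 2) N r) hS hM).1
    have iS1 := (Pool.Agent.H345J.taskInv u hu _ _ (MM (u ^ 2) N (s + 1)) (MM (u ^ 2) N r) hS1 hM).2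
    refine inv_uniq (S := Rh u (MM (u ^ 2) N (s + 1)) (MM (u ^ 2) N r)) ?_ iS1
    ext ⟨⟨y0, a0⟩, x0⟩ ⟨⟨y2, a2⟩, x2⟩
    rw [mul_apply]
    have e1 : ∀ (x : Tp N r) (y : Tp N s) (a : Fin N),
        Rh u (MM (u ^ 2) N (s + 1)) (MM (u ^ 2) N r) (x, (y, a)) ((y2, a2), x2) =
        ∑ m : Tp N r, Rh u (MM (u ^ 2) N s) (MM (u ^ 2) N r) (x, y) (y2, m) *
          Rh u (irr (u ^ 2) N) (MM (u ^ 2) N r) (m, a) (a2, x2) := fun x y a => h1 x y a y2 a2 x2
    have e2 : ∀ (x : Tp N r) (y : Tp N s) (a : Fin N),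
        Zc (Rhi u (irr (u ^ 2) N) (irr (u ^ 2) N)) r (s + 1) ((y0, a0), x0) (x, (y, a)) =
        ∑ z : Tp N r, Rhi u (irr (u ^ 2) N) (MM (u ^ 2) N r) (a0, x0) (z, a) *
          Rhi u (MM (u ^ 2) N s) (MM (u ^ 2) N r) (y0, z) (x, y) := by
      intro x y a
      rw [← ih, ← ihX]
      rfl
    have hs : ∀ g : (Tp N r × Tp N (s + 1)) → ℂ, ∑ p, g p =
        ∑ a : Fin N, ∑ q : Tp N r × Tp N s, g (q.1, (q.2, a)) := by
      intro g
      rw [Fintype.sum_prod_type]
      simp only [sum_Tp_succ, Fintype.sum_prod_type]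
      rw [sum_comm, sum_congr rfl fun a _ => sum_comm, sum_comm]
      refine sum_congr rfl fun a _ => ?_
      rw [sum_comm]
    rw [hs]
    have e3 : ∀ a : Fin N, ∑ q : Tp N r × Tp N s,
        Zc (Rhi u (irr (u ^ 2) N) (irr (u ^ 2) N)) r (s + 1) ((y0, a0), x0) (q.1, (q.2, a)) *
        Rh u (MM (u ^ 2) N (s + 1)) (MM (u ^ 2) N r) (q.1, (q.2, a)) ((y2, a2), x2) =
        if y0 = y2 then ∑ z : Tp N r, Rhi u (irr (u ^ 2) N) (MM (u ^ 2) N r) (a0, x0) (z, a) *
          Rh u (irr (u ^ 2) N) (MM (u ^ 2) N r) (z, a) (a2, x2) else 0 := by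
      intro a
      simp only [e1, e2]
      rw [sand (fun z => Rhi u (irr (u ^ 2) N) (MM (u ^ 2) N r) (a0, x0) (z, a))
        (fun z (q : Tp N r × Tp N s) => Rhi u (MM (u ^ 2) N s) (MM (u ^ 2) N r) (y0, z) (q.1, q.2))
        (fun (q : Tp N r × Tp N s) m => Rh u (MM (u ^ 2) N s) (MM (u ^ 2) N r) (q.1, q.2) (y2, m))
        (fun m => Rh u (irr (u ^ 2) N) (MM (u ^ 2) N r) (m, a) (a2, x2))]
      have e4 : ∀ z m : Tp N r, ∑ q : Tp N r × Tp N s,
          Rhi u (MM (u ^ 2) N s) (MM (u ^ 2) N r) (y0, z) (q.1, q.2) *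
          Rh u (MM (u ^ 2) N s) (MM (u ^ 2) N r) (q.1, q.2) (y2, m) =
          if (y0, z) = (y2, m) then 1 else 0 := by
        intro z m
        have h := congrFun (congrFun iSM (y0, z)) (y2, m)
        rw [mul_apply, one_apply] at h
        exact h
      simp only [e4]
      split_ifs with hb
      · subst hb
        refine sum_congr rfl fun m _ => ?_
        rw [sum_eq_single m]
        · rw [if_pos rfl, mul_one]
        · intro m' _ hm
          rw [if_neg (fun h => hm (congrArg Prod.snd h).symm), mul_zero, zero_mul]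
        · intro h; exact absurd (mem_univ _) h
      · refine sum_eq_zero fun m _ => sum_eq_zero fun m' _ => ?_
        rw [if_neg (fun h => hb (congrArg Prod.fst h)), mul_zero, zero_mul]
    simp only [e3]
    by_cases hb : y0 = y2
    · simp only [if_pos hb]
      have h := congrFun (congrFun iVM (a0, x0)) (a2, x2)
      rw [mul_apply, Fintype.sum_prod_type, one_apply, sum_comm] at h
      rw [h, one_apply]
      subst hb
      by_cases h3 : (a0, x0) = (a2, x2)
      · rw [if_pos h3, if_pos]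
        rw [Prod.mk.injEq] at h3
        rw [h3.1, h3.2]
      · rw [if_neg h3, if_neg]
        intro h4
        apply h3
        have h5 : a0 = a2 := congrArg (fun p : Tp N (s + 1) × Tp N r => p.1.2) h4
        have h6 : x0 = x2 := congrArg (fun p : Tp N (s + 1) × Tp N r => p.2) h4
        rw [h5, h6]
    · simp only [if_neg hb, sum_const_zero]
      rw [one_apply_ne]
      intro h4
      exact hb (congrArg (fun p : Tp N (s + 1) × Tp N r => p.1.1) h4)

end Pool.Agent.Q191.LB
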