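import Pool.Agent.Q191.LB.Co
import Pool.Agent.Q191.FT.BDg

/-!
# State sums of diagrams composed of regions
-/

set_option autoImplicit false

namespace Pool.Agent.Q191.LB

open Matrix Finset Filter Topology
open Pool.Agent.W709.QAT (Piece run jones)
open Pool.Agent.W715.VC (rt PP QQ)
open Pool.Agent.H550R3.Jones (br crossP crossN)
open Pool.Agent.Q191.FT
open GapVol (lob)
open scoped Real

/-- a system of regions -/
structure Sys (R : Type) where
  word : R → List Piece
  rate : R → ℝ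
  pf : R → ℝ
  dg : R → ℕ
  wd : R → ℕ
  rate_nonneg : ∀ P, 0 ≤ rate P
  pf_one : ∀ P, 1 ≤ pf P
  bound : ∀ (K : ℕ) (ε : ℝ), 0 < ε → ∀ᶠ N : ℕ in atTop, ∀ P : R, wd P ≤ K →
    ∀ (f : List (Fin N) → ℂ) (B : ℝ), 0 ≤ B → (∀ s, ‖f s‖ ≤ B) → ∀ s,
    ‖run N (rt N) (word P) f s‖ ≤
      B * ((N : ℝ) ^ dg P * (pf P * Real.exp (N * (rate P / (2 * π) + ε))))

namespace Sys

variable {R : Type} (S : Sys R)

/-- the bound of a region -/
noncomputable def bd (N : ℕ) (ε : ℝ) (P : R) : ℝ :=
  S.pf P * Real.exp (N * (S.rate P / (2 * π) + ε))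

theorem bd_one {N : ℕ} {ε : ℝ} (hε : 0 ≤ ε) (P : R) : 1 ≤ S.bd N ε P := by
  have h1 := S.pf_one P
  have h2 : 1 ≤ Real.exp (N * (S.rate P / (2 * π) + ε)) := by
    apply Real.one_le_exp
    have := S.rate_nonneg P
    have := Real.pi_pos
    positivity
  unfold bd
  nlinarith

/-- the pieces of a diagram -/
def pcs (D : List R) : List Piece := D.flatMap S.word

theorem run_bound {N K : ℕ} {ε : ℝ} (hN : 1 ≤ N) (hε : 0 ≤ ε)
    (hB : ∀ P : R, S.wd P ≤ K →
      ∀ (f : List (Fin N) → ℂ) (B : ℝ), 0 ≤ B → (∀ s, ‖f s‖ ≤ B) → ∀ s,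
      ‖run N (rt N) (S.word P) f s‖ ≤
        B * ((N : ℝ) ^ S.dg P * (S.pf P * Real.exp (N * (S.rate P / (2 * π) + ε)))))
    (D : List R) :
    (∀ P ∈ D, S.wd P ≤ K) →
    ∀ (f : List (Fin N) → ℂ) (B : ℝ), 0 ≤ B → (∀ s, ‖f s‖ ≤ B) → ∀ s : List (Fin N),
    ‖run N (rt N) (S.pcs D) f s‖ ≤ B * ((N : ℝ) ^ (D.map S.dg).sum * (D.map (S.bd N ε)).prod) := by
  induction D with
  | nil =>
    intro _ f B hB hf s
    simpa [run, pcs] using hf s
  | cons P D ih =>
    intro hD f B hB0 hf s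
    have hPK := hD P (by simp)
    have h0 : 0 ≤ (N : ℝ) ^ S.dg P * S.bd N ε P := by
      have := S.bd_one (N := N) hε P
      positivity
    have h1 := ih (fun Q hQ => hD Q (by simp [hQ])) (run N (rt N) (S.word P) f)
      (B * ((N : ℝ) ^ S.dg P * S.bd N ε P)) (mul_nonneg hB0 h0)
      (hB P hPK f B hB0 hf) s
    have e0 : S.pcs (P :: D) = S.word P ++ S.pcs D := rfl
    rw [e0, run_append]
    refine h1.trans (le_of_eq ?_)
    rw [List.map_cons (f := S.dg), List.sum_cons, List.map_cons (f := S.bd N ε), List.prod_cons,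
      pow_add]
    ring

/-- the state sum -/
theorem ss (K : ℕ) (ε : ℝ) (hε : 0 < ε) : ∀ᶠ N : ℕ in atTop, ∀ D : List R,
    (∀ P ∈ D, S.wd P ≤ K) → ‖jones N (S.pcs D) (rt N)‖ ≤ (N : ℝ) ^ (D.map S.dg).sum *
      (D.map (S.bd N ε)).prod := by
  filter_upwards [S.bound K ε hε, eventually_ge_atTop 1] with N hB hN1
  intro D hD
  have h0 : 0 < N := hN1
  unfold jones
  rw [dif_pos h0]
  have h1 := S.run_bound hN1 hε.le hB D hD
    (fun s => if s = [(⟨0, h0⟩ : Fin N)] then (1 : ℂ) else 0) 1 zero_le_one (by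
      intro s
      show ‖(if s = [(⟨0, h0⟩ : Fin N)] then (1 : ℂ) else 0)‖ ≤ 1
      split_ifs <;> simp) [⟨0, h0⟩]
  rw [one_mul] at h1
  exact h1

theorem log_prod (N : ℕ) (ε : ℝ) (hε : 0 ≤ ε) (D : List R) :
    0 < (D.map (S.bd N ε)).prod ∧ Real.log ((D.map (S.bd N ε)).prod) =
    (D.map (fun P => Real.log (S.pf P))).sum + N / (2 * π) * (D.map S.rate).sum +
      N * ε * D.length := by
  have hpi := Real.pi_pos
  induction D with
  | nil => simp
  | cons P D ih =>
    obtain ⟨ih0, ih⟩ := ih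
    have h1 := S.bd_one (N := N) hε P
    have h0 : 0 < S.bd N ε P := by linarith
    rw [List.map_cons, List.prod_cons, Real.log_mul h0.ne' ih0.ne', ih]
    refine ⟨by positivity, ?_⟩
    have h2 : Real.log (S.bd N ε P) = Real.log (S.pf P) + N * (S.rate P / (2 * π) + ε) := by
      unfold bd
      rw [Real.log_mul (by have := S.pf_one P; linarith) (Real.exp_pos _).ne', Real.log_exp]
    rw [h2, List.map_cons, List.sum_cons, List.map_cons, List.sum_cons, List.length_cons]
    push_cast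
    field_simp
    ring

/-- the bound of the growth rate -/
theorem lim (D : List R) (ε : ℝ) (hε : 0 < ε) : ∀ᶠ N : ℕ in atTop,
    2 * π / N * Real.log ‖jones N (S.pcs D) (rt N)‖ ≤ (D.map S.rate).sum + ε := by
  have hpi := Real.pi_pos
  obtain ⟨K, hK⟩ : ∃ K : ℕ, ∀ P ∈ D, S.wd P ≤ K :=
    ⟨(D.map S.wd).sum, fun P hP => List.single_le_sum (by simp) _ (List.mem_map_of_mem hP)⟩
  set t : ℝ := (D.length : ℝ) with ht
  have ht0 : 0 ≤ t := Nat.cast_nonneg _
  set ε' : ℝ := ε / (4 * π * (t + 1)) with hε'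
  have hε'0 : 0 < ε' := by positivity
  set T : ℝ := (D.map (fun P => Real.log (S.pf P))).sum with hS
  set c : ℝ := (((D.map S.dg).sum : ℕ) : ℝ) with hc
  have hrate : 0 ≤ (D.map S.rate).sum := by
    apply List.sum_nonneg
    intro x hx
    obtain ⟨P, -, rfl⟩ := List.mem_map.1 hx
    exact S.rate_nonneg P
  -- the error terms tend to zero
  have hlim : Tendsto (fun N : ℕ => 2 * π / N * (c * Real.log N + T)) atTop
      (𝓝 0) := by
    have h1 : Tendsto (fun N : ℕ => Real.log (N : ℝ) / (N : ℝ)) atTop (𝓝 0) :=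
      (Real.isLittleO_log_id_atTop.tendsto_div_nhds_zero).comp tendsto_natCast_atTop_atTop
    have h2 : Tendsto (fun N : ℕ => (1 : ℝ) / (N : ℝ)) atTop (𝓝 0) :=
      tendsto_one_div_atTop_nhds_zero_nat
    have h3 := ((h1.const_mul (2 * π * c)).add (h2.const_mul (2 * π * T)))
    rw [mul_zero, mul_zero, add_zero] at h3
    refine h3.congr ?_
    intro N
    ring
  have hev : ∀ᶠ N : ℕ in atTop,
      2 * π / N * (c * Real.log N + T) < ε / 2 :=
    hlim.eventually_lt_const (by positivity)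
  filter_upwards [S.ss K ε' hε'0, hev, eventually_ge_atTop 1] with N hN hN2 hN1
  have hNpos : (0 : ℝ) < N := by exact_mod_cast hN1
  by_cases hj : jones N (S.pcs D) (rt N) = 0
  · rw [hj, norm_zero, Real.log_zero, mul_zero]
    positivity
  · have h1 := hN D hK
    have hpos : 0 < ‖jones N (S.pcs D) (rt N)‖ := norm_pos_iff.2 hj
    have h3 := Real.log_le_log hpos h1
    obtain ⟨h4, h5⟩ := S.log_prod N ε' hε'0.le D
    rw [Real.log_mul (by positivity) h4.ne', Real.log_pow, h5] at h3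
    rw [← hS, ← hc] at h3
    have h6 : 2 * π / N * Real.log ‖jones N (S.pcs D) (rt N)‖ ≤ 2 * π / N *
        (c * Real.log N +
          (T + N / (2 * π) * (D.map S.rate).sum + N * ε' * D.length)) :=
      mul_le_mul_of_nonneg_left h3 (by positivity)
    have h7 : 2 * π / N * (c * Real.log N +
          (T + N / (2 * π) * (D.map S.rate).sum + N * ε' * D.length)) =
        2 * π / N * (c * Real.log N + T) + (D.map S.rate).sum +
          2 * π * ε' * t := by
      rw [ht]
      field_simp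
      ring
    have h8 : 2 * π * ε' * t ≤ ε / 2 := by
      rw [hε']
      have h9 : 2 * π * (ε / (4 * π * (t + 1))) * t = ε / 2 * (t / (t + 1)) := by
        field_simp
        ring
      rw [h9]
      have h10 : t / (t + 1) ≤ 1 := by
        rw [div_le_one (by positivity)]
        linarith
      nlinarith
    linarith

end Sys

/-! ### The bounds of the regions -/

theorem brate_nonneg (P : Piece) : 0 ≤ brate P := by
  rcases P with i | i | ⟨i, σ, m⟩
  · exact le_rfl
  · exact le_rfl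
  · exact Pool.Agent.W28.QAT.rate_nonneg m

theorem bpf_one (P : Piece) : 1 ≤ bpf P := by
  rcases P with i | i | ⟨i, σ, m⟩
  · exact le_rfl
  · exact le_rfl
  · exact one_le_pow₀ (by have : (0 : ℝ) ≤ m := Nat.cast_nonneg m; linarith)

/-- single pieces -/
theorem basic_bound (ε : ℝ) (hε : 0 < ε) : ∀ᶠ N : ℕ in atTop, ∀ P : Piece,
    ∀ (f : List (Fin N) → ℂ) (B : ℝ), 0 ≤ B → (∀ s, ‖f s‖ ≤ B) → ∀ s,
    ‖run N (rt N) [P] f s‖ ≤
      B * ((N : ℝ) ^ 2 * (bpf P * Real.exp (N * (brate P / (2 * π) + ε)))) := by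
  filter_upwards [Pool.Agent.W709.QAT.tw ε hε, eventually_ge_atTop 1] with N hTW hN P f B hB hf s
  have h := Pool.Agent.W28.QAT.act_bound hN hTW P f B hB hf s
  have e : run N (rt N) [P] f s = P.act N (rt N) f s := rfl
  rw [e]
  refine h.trans ?_
  have hbd : 1 ≤ bpf P * Real.exp (N * (brate P / (2 * π) + ε)) := by
    have h1 := bpf_one P
    have h2 : 1 ≤ Real.exp (N * (brate P / (2 * π) + ε)) := by
      apply Real.one_le_exp
      have := brate_nonneg P
      have := Real.pi_pos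
      positivity
    nlinarith
  refine mul_le_mul_of_nonneg_left ?_ hB
  unfold Pool.Agent.W28.QAT.cost
  rcases P with i | i | ⟨i, σ, m⟩
  · simp only [Pool.Agent.W709.QAT.Piece.size, Option.elim_none]
    gcongr
  · simp only [Pool.Agent.W709.QAT.Piece.size, Option.elim_none]
    gcongr
  · exact le_rfl

theorem bun_zero_left (i : ℕ) : ∀ s, bun i 0 s = []
  | 0 => rfl
  | s + 1 => by rw [bun, bun_zero_left i s]; rfl

theorem mem_bun (i : ℕ) {r s : ℕ} (hr : 1 ≤ r) (hs : 1 ≤ s) : i + (r + s - 2) ∈ bun i r s := by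
  obtain ⟨r, rfl⟩ : ∃ r', r = r' + 1 := ⟨r - 1, by omega⟩
  obtain ⟨s, rfl⟩ : ∃ s', s = s' + 1 := ⟨s - 1, by omega⟩
  rw [bun, col]
  have e : i + (r + 1 + (s + 1) - 2) = i + s + r := by omega
  rw [e]
  simp

/-- bound of the operator of a bundle crossing -/
theorem bun_op {N : ℕ} (A : Matrix (Fin N × Fin N) (Fin N × Fin N) ℂ) (i r s : ℕ) {w B : ℝ}
    (hN : 1 ≤ N) (hw : 1 ≤ w) (hB : 0 ≤ B) (hA : ∀ p q, ‖Zc A r s p q‖ ≤ w)
    {f : List (Fin N) → ℂ} (hf : ∀ s, ‖f s‖ ≤ B) (l : List (Fin N)) :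
    ‖wop A (bun i r s) f l‖ ≤ B * ((N : ℝ) ^ (r + s) * w) := by
  have hN1 : (1 : ℝ) ≤ (N : ℝ) ^ (r + s) := one_le_pow₀ (by exact_mod_cast hN)
  have hc : (1 : ℝ) ≤ (N : ℝ) ^ (r + s) * w := by nlinarith
  rcases Nat.lt_or_ge l.length (i + (r + s)) with hs | hs
  · by_cases h : 1 ≤ r ∧ 1 ≤ s
    · rw [wop_zero A _ (mem_bun i h.1 h.2) f l (by omega), norm_zero]
      positivity
    · have h2 : bun i r s = [] := by
        by_cases hr : 1 ≤ r
        · have : s = 0 := by
            by_contra hs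
            exact h ⟨hr, by omega⟩
          rw [this]; rfl
        · have : r = 0 := by omega
          rw [this]; exact bun_zero_left i s
      rw [h2, wop_nil]
      refine (hf l).trans ?_
      nlinarith
  · obtain ⟨y', hy⟩ := exists_toL (N := N) s ((l.drop i).take s) (by
      rw [List.length_take, List.length_drop]
      omega)
    obtain ⟨x', hx⟩ := exists_toL (N := N) r (((l.drop i).drop s).take r) (by
      rw [List.length_take, List.length_drop, List.length_drop]
      omega)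
    have e : l = l.take i ++ (toL s y' ++ (toL r x' ++ ((l.drop i).drop s).drop r)) := by
      rw [hy, hx, List.take_append_drop, List.take_append_drop, List.take_append_drop]
    have hl : (l.take i).length = i := by
      rw [List.length_take]; omega
    rw [e, rep_bun A i r s _ _ hl f y' x']
    refine (norm_sum_le _ _).trans ?_
    have h : ∀ x ∈ (univ : Finset (Tp N r)), ‖∑ y : Tp N s, Zc A r s (y', x') (x, y) *
        f (l.take i ++ (toL r x ++ (toL s y ++ ((l.drop i).drop s).drop r)))‖ ≤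
          (N : ℝ) ^ s * (w * B) := by
      intro x _
      refine (norm_sum_le _ _).trans ?_
      have h3 : ∀ y ∈ (univ : Finset (Tp N s)), ‖Zc A r s (y', x') (x, y) *
          f (l.take i ++ (toL r x ++ (toL s y ++ ((l.drop i).drop s).drop r)))‖ ≤ w * B := by
        intro y _
        rw [norm_mul]
        exact mul_le_mul (hA _ _) (hf _) (norm_nonneg _) (by linarith)
      refine (sum_le_sum h3).trans ?_
      rw [sum_const, card_univ, card_Tp, nsmul_eq_mul]
      push_cast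
      exact le_rfl
    refine (sum_le_sum h).trans ?_
    rw [sum_const, card_univ, card_Tp, nsmul_eq_mul, pow_add]
    push_cast
    exact le_of_eq (by ring)

/-- bundle crossings -/
theorem bun_bound (K : ℕ) (ε : ℝ) (hε : 0 < ε) : ∀ᶠ N : ℕ in atTop, ∀ (i r s : ℕ) (σ : Bool),
    r + s ≤ K → ∀ (f : List (Fin N) → ℂ) (B : ℝ), 0 ≤ B → (∀ s, ‖f s‖ ≤ B) → ∀ l,
    ‖run N (rt N) (cw σ (bun i r s)) f l‖ ≤
      B * ((N : ℝ) ^ (r + s) * Real.exp (N * (cst r s / (2 * π) + ε))) := by
  have hpi := Real.pi_pos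
  have hε' : 0 < ε / (K + 1) := by positivity
  filter_upwards [bdp_rt _ hε', eventually_ge_atTop 1] with N hb hN i r s σ hrs f B hB hf l
  have hKR : ((r + s : ℕ) : ℝ) ≤ K := by exact_mod_cast hrs
  push_cast at hKR
  have hexp : Real.exp (N * (cst r s / (2 * π) + (r + s + 1) * (ε / (K + 1)))) ≤
      Real.exp (N * (cst r s / (2 * π) + ε)) := by
    rw [Real.exp_le_exp]
    have h1 : ((r : ℝ) + s + 1) * (ε / (K + 1)) ≤ (K + 1) * (ε / (K + 1)) := by gcongr
    have h2 : ((K : ℝ) + 1) * (ε / (K + 1)) = ε := by field_simp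
    gcongr
    linarith
  have hw : 1 ≤ Real.exp (N * (cst r s / (2 * π) + ε)) := by
    apply Real.one_le_exp
    have := cst_nonneg r s
    positivity
  rw [run_cw]
  refine bun_op _ i r s hN hw hB ?_ hf l
  rintro ⟨y', x'⟩ ⟨x, y⟩
  cases σ
  · refine ((ent_rt N r s).2 y' x' x y).trans ((hb s r x' y' y x).trans ?_)
    rw [cst_symm s r, add_comm (s : ℝ) r]
    exact hexp
  · exact ((ent_rt N r s).1 y' x' x y).trans ((hb r s y' x' x y).trans hexp)

end Pool.Agent.Q191.LB
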