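import Pool.Agent.Q191.LB.BtL
import Pool.Agent.Q191.LB.Sys

/-!
# Belted full twists at the root of unity: the logarithmic bound
-/

set_option autoImplicit false

namespace Pool.Agent.Q191.LB

open Matrix Finset Filter Topology
open Pool.Agent.W709.QAT (Piece run jones)
open Pool.Agent.H550R3.Jones (Gen br brf crossP crossN)
open Pool.Agent.W715.VC (rt)
open Pool.Agent.W709.QAT (lob_max)
open GapVol (lob)
open Pool.Agent.Q191.FT
open scoped Real

/-- the potential of a belted region -/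
noncomputable def potB (k : ℕ) (t : ℝ) : ℝ := 8 * k * lob (t / (2 * k))

/-- the cost of a belted region, without the constant -/
noncomputable def csb (k : ℕ) : ℝ := ⨆ t : Set.Icc (0 : ℝ) π, potB k t

theorem potB_bdd (k : ℕ) : BddAbove (Set.range fun t : Set.Icc (0 : ℝ) π => potB k t) := by
  refine ⟨8 * k * lob (π / 6), ?_⟩
  rintro _ ⟨t, rfl⟩
  have h1 := lob_max ((t : ℝ) / (2 * k))
  have hk : (0 : ℝ) ≤ k := Nat.cast_nonneg k
  change 8 * k * lob ((t : ℝ) / (2 * k)) ≤ _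
  gcongr

theorem potB_le (k : ℕ) {t : ℝ} (h0 : 0 ≤ t) (h1 : t ≤ π) : potB k t ≤ csb k :=
  le_ciSup (potB_bdd k) ⟨t, h0, h1⟩

theorem csb_nonneg (k : ℕ) : 0 ≤ csb k := by
  have h := potB_le k (t := 0) le_rfl Real.pi_pos.le
  have e : potB k 0 = 0 := by
    unfold potB
    rw [zero_div, GapVol.lob_zero, mul_zero]
  rwa [e] at h

theorem csb_le {k : ℕ} (hk : 1 ≤ k) : csb k ≤ 4 * π * Real.log k + 2 * π := by
  have hpi := Real.pi_pos
  have hkR : (1 : ℝ) ≤ k := by exact_mod_cast hk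
  have hlk := Real.log_nonneg hkR
  have : Nonempty (Set.Icc (0 : ℝ) π) := ⟨⟨0, le_rfl, hpi.le⟩⟩
  refine ciSup_le ?_
  rintro ⟨t, ht0, ht1⟩
  change potB k t ≤ _
  rcases eq_or_lt_of_le ht0 with h | h
  · rw [← h]
    unfold potB
    rw [zero_div, GapVol.lob_zero, mul_zero]
    positivity
  · have h1 := lob_bundle hk h ht1
    have h3 : t * Real.log k ≤ π * Real.log k := by gcongr
    have e : potB k t = 4 * (2 * k * lob (t / (2 * k))) := by unfold potB; ring
    rw [e]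
    linarith

theorem lob_mono_six {x y : ℝ} (hx : 0 ≤ x) (hxy : x ≤ y) (hy : y ≤ π / 6) : lob x ≤ lob y := by
  have hpi := Real.pi_pos
  rcases eq_or_lt_of_le (hxy.trans hy) with h | h
  · have : y = x := le_antisymm (by linarith) hxy
    rw [this]
  · have h1 : x ∈ Set.Icc (0 : ℝ) (π / 2) := ⟨hx, by linarith⟩
    have h2 : π / 6 ∈ Set.Icc (0 : ℝ) (π / 2) := ⟨by positivity, by linarith⟩
    have hd : 0 < π / 6 - x := by linarith
    obtain ⟨a, ha⟩ : ∃ a, a = (y - x) / (π / 6 - x) := ⟨_, rfl⟩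
    have ha0 : 0 ≤ a := by
      rw [ha]
      apply div_nonneg <;> linarith
    have ha1 : a ≤ 1 := by
      rw [ha, div_le_one hd]
      linarith
    have ha2 : a * (π / 6 - x) = y - x := by
      rw [ha]
      exact div_mul_cancel₀ _ hd.ne'
    have h3 := lob_concave.2 h1 h2 (show 0 ≤ 1 - a by linarith) ha0 (by ring)
    rw [smul_eq_mul, smul_eq_mul, smul_eq_mul, smul_eq_mul] at h3
    have e1 : (1 - a) * x + a * (π / 6) = y := by linarith
    rw [e1] at h3
    refine le_trans ?_ h3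
    have h4 := lob_max x
    nlinarith

theorem csb_eq {k : ℕ} (hk : 3 ≤ k) : csb k = 8 * k * lob (π / (2 * k)) := by
  have hpi := Real.pi_pos
  have hkR : (3 : ℝ) ≤ k := by exact_mod_cast hk
  have : Nonempty (Set.Icc (0 : ℝ) π) := ⟨⟨0, le_rfl, hpi.le⟩⟩
  apply le_antisymm
  · refine ciSup_le ?_
    rintro ⟨t, ht0, ht1⟩
    change 8 * k * lob (t / (2 * k)) ≤ _
    apply mul_le_mul_of_nonneg_left _ (by positivity)
    apply lob_mono_six (by positivity)
    · gcongr
    · rw [div_le_div_iff₀ (by positivity) (by norm_num)]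
      nlinarith
  · exact potB_le k (t := π) hpi.le le_rfl

/-- the cost of a belted region -/
noncomputable def cbl (k : ℕ) : ℝ := csb k + 12 * lob (π / 3)

theorem lob_three_pos : 0 ≤ lob (π / 3) := by
  have h := GapVol.lob_dup
  have := EvenVol.LobIneq.lob_six_pos
  linarith

theorem cbl_nonneg (k : ℕ) : 0 ≤ cbl k := by
  have h1 := csb_nonneg k
  have h2 := lob_three_pos
  unfold cbl
  positivity

theorem WT_rt (ε : ℝ) (hε : 0 < ε) : ∀ᶠ N : ℕ in atTop, ∀ (K l : ℕ) (s0 t0 : Tp N K), l < N →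
    WT (rt N) N K l s0 t0 ≤ 2 * (N : ℝ) ^ K * Real.exp (N * (csb K / (2 * π) + 2 * K * ε)) := by
  have hpi := Real.pi_pos
  filter_upwards [ph_rt ε hε, eventually_gt_atTop 0] with N hph hN0 K l s0 t0 hl
  have hNR : (0 : ℝ) < N := by exact_mod_cast hN0
  set E := Real.exp (N * (csb K / (2 * π) + 2 * K * ε)) with hE
  have hE0 : 0 < E := Real.exp_pos _
  have hee : Real.exp (ee N K l ε) * Real.exp (ee N K l ε) ≤ E := by
    rw [← Real.exp_add, hE, Real.exp_le_exp]
    have hp := potB_le K (t := π * l / N) (by positivity) (by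
      rw [div_le_iff₀ hNR]
      have : (l : ℝ) ≤ N := by exact_mod_cast hl.le
      nlinarith)
    have h5 := mul_le_mul_of_nonneg_left hp (show 0 ≤ N / (2 * π) by positivity)
    have e1 : N * (csb K / (2 * π) + 2 * K * ε) = N / (2 * π) * csb K + N * (2 * K * ε) := by ring
    rw [e1]
    refine le_trans (le_of_eq ?_) (add_le_add_left h5 _)
    unfold ee potB
    field_simp
    ring
  have h1 : (∑ r : Tp N K, if ds K t0 = ds K r + l ∧ ds K s0 = ds K r + l then
      phF (rt N) N K s0 r * phE (rt N) N K r t0 else 0) ≤ (N : ℝ) ^ K * E := by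
    have h : ∀ r ∈ (univ : Finset (Tp N K)), (if ds K t0 = ds K r + l ∧ ds K s0 = ds K r + l then
      phF (rt N) N K s0 r * phE (rt N) N K r t0 else 0) ≤ E := by
      intro r _
      split_ifs with hc
      · have b1 := (hph K s0 r).2
        have b2 := (hph K r t0).1
        have e1 : ds K s0 - ds K r = l := by omega
        have e2 : ds K t0 - ds K r = l := by omega
        rw [e1] at b1
        rw [e2] at b2
        exact (mul_le_mul b1 b2 (phE_nonneg _ _ _ _ _) (Real.exp_pos _).le).trans hee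
      · exact hE0.le
    refine (sum_le_sum h).trans ?_
    rw [sum_const, card_univ, card_Tp, nsmul_eq_mul]
    push_cast
    exact le_rfl
  have h2 : (∑ r : Tp N K, if ds K r = ds K t0 + l ∧ ds K r = ds K s0 + l then
      phE (rt N) N K s0 r * phF (rt N) N K r t0 else 0) ≤ (N : ℝ) ^ K * E := by
    have h : ∀ r ∈ (univ : Finset (Tp N K)), (if ds K r = ds K t0 + l ∧ ds K r = ds K s0 + l then
      phE (rt N) N K s0 r * phF (rt N) N K r t0 else 0) ≤ E := by
      intro r _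
      split_ifs with hc
      · have b1 := (hph K s0 r).1
        have b2 := (hph K r t0).2
        have e1 : ds K r - ds K s0 = l := by omega
        have e2 : ds K r - ds K t0 = l := by omega
        rw [e1] at b1
        rw [e2] at b2
        exact (mul_le_mul b1 b2 (phF_nonneg _ _ _ _ _) (Real.exp_pos _).le).trans hee
      · exact hE0.le
    refine (sum_le_sum h).trans ?_
    rw [sum_const, card_univ, card_Tp, nsmul_eq_mul]
    push_cast
    exact le_rfl
  unfold WT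
  linarith

theorem alg1 {x k1 n P Q y z E0 E4 e6 F F' : ℝ} (hx0 : 0 ≤ x) (hx : x ≤ k1 * n)
    (hF : F ≤ F' * E4) (hP : 0 ≤ P) (hQ : 0 ≤ Q) (hy : 0 ≤ y) (hz : 0 ≤ z) (hE0 : 0 ≤ E0)
    (hE4 : 0 ≤ E4) (he6 : 0 ≤ e6) (hF0 : 0 ≤ F) :
    x * (x * (8 * P * (3 * y * (E0 * E4 * e6 * z))) * (2 * Q * F)) ≤
      48 * e6 * k1 ^ 2 * (n ^ 2 * Q) * P * (y * z) * (E0 * F') * (E4 * E4) := by
  have h1 : 0 ≤ k1 * n := hx0.trans hx
  calc x * (x * (8 * P * (3 * y * (E0 * E4 * e6 * z))) * (2 * Q * F))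
      ≤ (k1 * n) * ((k1 * n) * (8 * P * (3 * y * (E0 * E4 * e6 * z))) * (2 * Q * (F' * E4))) := by
        gcongr
    _ = _ := by ring

theorem alg2 {k1 n P Q Y A B C E0 E4 e6 F' H : ℝ} (hY : Y ≤ A * (B * C))
    (hc : 48 * e6 * k1 ^ 2 * A * (n ^ 2 * Q * B) ≤ H) (hP : 0 ≤ P) (hQ : 0 ≤ Q)
    (hC : 0 ≤ C) (hE0 : 0 ≤ E0) (hE4 : 0 ≤ E4) (he6 : 0 ≤ e6) (hF0 : 0 ≤ F') :
    48 * e6 * k1 ^ 2 * (n ^ 2 * Q) * P * Y * (E0 * F') * (E4 * E4) ≤
      P * C * (H * E0 * F' * E4 * E4) := by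
  calc 48 * e6 * k1 ^ 2 * (n ^ 2 * Q) * P * Y * (E0 * F') * (E4 * E4)
      ≤ 48 * e6 * k1 ^ 2 * (n ^ 2 * Q) * P * (A * (B * C)) * (E0 * F') * (E4 * E4) := by
        gcongr
    _ = (48 * e6 * k1 ^ 2 * A * (n ^ 2 * Q * B)) * (P * C * (E0 * F') * (E4 * E4)) := by ring
    _ ≤ H * (P * C * (E0 * F') * (E4 * E4)) := by gcongr
    _ = _ := by ring

/-- **Belted full twists, logarithmic bound** -/
theorem belt_log (K : ℕ) (ε : ℝ) (hε : 0 < ε) : ∀ᶠ N : ℕ in atTop,
    ∀ (σ : Bool) (m p : ℕ) (s0 t0 : Tp N K), ‖XX σ N K m p (rt N) s0 t0‖ ≤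
      (N : ℝ) ^ p * (((m + p : ℕ) : ℝ) + 1) ^ (24 * (K + 1) + 1) *
        Real.exp (N * (cbl K / (2 * π) + ε)) := by
  have hpi := Real.pi_pos
  set a : ℕ := 24 * (K + 1) + 1 with ha
  set ε1 : ℝ := ε / (8 * (K + 1)) with hε1
  have hε1p : 0 < ε1 := by positivity
  set ε' : ℝ := ε / 24 with hε'
  have hε'0 : 0 < ε' := by positivity
  have hS := S_bound (4 * (K + 1)) ε' hε'0
  set b : ℕ := 2 + K + 3 * a with hb
  set c : ℝ := 48 * Real.exp 6 * ((K : ℝ) + 1) ^ 2 * (512 * ((K : ℝ) + 1) ^ 2) ^ a with hc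
  have hc0 : 0 < c := by positivity
  have hev : ∀ᶠ N : ℕ in atTop, c * (N : ℝ) ^ b ≤ Real.exp (ε / 2 * N) := by
    have h1 := (isLittleO_pow_exp_pos_mul_atTop b (show 0 < ε / 2 by positivity)).bound
      (show 0 < 1 / c by positivity)
    have h2 := tendsto_natCast_atTop_atTop (R := ℝ) |>.eventually h1
    filter_upwards [h2] with N hN
    rw [Real.norm_of_nonneg (by positivity), Real.norm_of_nonneg (Real.exp_pos _).le] at hN
    calc c * (N : ℝ) ^ b ≤ c * (1 / c * Real.exp (ε / 2 * N)) := by gcongr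
      _ = _ := by field_simp
  filter_upwards [hev, hS, WT_rt ε1 hε1p, eventually_ge_atTop 2] with N hN hS hW hN2 σ m p s0 t0
  have hN0 : (0 : ℝ) < N := by exact_mod_cast (by omega : 0 < N)
  have hN1 : (1 : ℝ) ≤ N := by exact_mod_cast (by omega : 1 ≤ N)
  have hK : (0 : ℝ) ≤ K := Nat.cast_nonneg K
  set M : ℕ := m + p with hM
  have hM0 : (0 : ℝ) ≤ M := Nat.cast_nonneg M
  -- the radius
  set D : ℝ := 128 * ((K : ℝ) + 1) ^ 2 * (N : ℝ) ^ 3 * ((M : ℝ) + 1) with hD
  have hD0 : 0 < D := by positivity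
  obtain ⟨r, h1, h2, hroot⟩ := exists_radius (rt N) (r0 := 1 / D) (by positivity)
  have hr0 : 0 < r := lt_trans (by positivity) h1
  have hrad : Rad K M N r := by
    refine ⟨hN2, hr0, ?_, ?_⟩
    · have h3 : D * r ≤ D * (1 / D) := by gcongr
      rw [mul_one_div_cancel hD0.ne'] at h3
      exact h3
    · have h3 : D * (1 / D / 2) ≤ D * r := by gcongr
      have h4 : D * (1 / D / 2) = 1 / 2 := by field_simp
      rw [h4] at h3
      have h5 : 256 * ((K : ℝ) + 1) ^ 2 * (N : ℝ) ^ 3 * ((M : ℝ) + 1) * r = 2 * (D * r) := by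
        rw [hD]; ring
      rw [h5]
      linarith
  set y : ℝ := 2 / r with hy
  have hy0 : 0 < y := by positivity
  have hyb : y ≤ 512 * ((K : ℝ) + 1) ^ 2 * ((N : ℝ) ^ 3 * ((M : ℝ) + 1)) := by
    rw [hy, div_le_iff₀ hr0]
    have := hrad.hr2
    nlinarith
  have e6 : 6 / r = 3 * y := by rw [hy]; ring
  have hη : ∀ v : ℂ, ‖v - rt N‖ = r → ∀ n, n ≤ 4 * (K + 1) * N →
      |Real.log ‖brf v n‖ + N / π * lob (π * n / N)| ≤
        ε' * N + (1 + (4 * (K + 1) : ℕ) * Real.log y) := by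
    intro v hv n hn
    have e1 := (hrad.near hv).log_brf (C := 4 * (K + 1)) le_rfl n hn
    have e2 := hS n hn
    have e3 : Real.log ‖brf v n‖ + N / π * lob (π * n / N) =
        (Real.log ‖brf v n‖ - EvenVol.S N n) + (EvenVol.S N n + N / π * lob (π * n / N)) := by ring
    rw [e3]
    refine (abs_add_le _ _).trans ?_
    linarith
  -- the functions
  choose G hG using fun l => RegF.ff K N (sg_or σ) m p (cw0 N K t0) (cw0_par K t0) l
  have hent := ent_root σ K m p s0 t0 (fun l => (hG l).1) (fun l => (hG l).2)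
  set E0 : ℝ := Real.exp (N * (12 * lob (π / 3) / (2 * π))) with hE0
  have hexp : Real.exp (N / π * (6 * lob (π / 3)) + 6 * (ε' * N + (1 + (4 * (K + 1) : ℕ) *
      Real.log y))) = E0 * Real.exp (ε / 4 * N) * Real.exp 6 * y ^ (24 * (K + 1)) := by
    have e1 : y ^ (24 * (K + 1)) = Real.exp (((24 * (K + 1) : ℕ) : ℝ) * Real.log y) := by
      rw [Real.exp_nat_mul, Real.exp_log hy0]
    rw [e1, hE0, ← Real.exp_add, ← Real.exp_add, ← Real.exp_add]
    congr 1
    rw [hε']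
    push_cast
    field_simp
    ring
  have hterm : ∀ l ∈ range (K * N + 1), ‖brf (rt N) l * G l (rt N)‖ * WT (rt N) N K l s0 t0 ≤
      (K * N + 1) * (8 * (N : ℝ) ^ p * (3 * y * (E0 * Real.exp (ε / 4 * N) * Real.exp 6 *
        y ^ (24 * (K + 1))))) * (2 * (N : ℝ) ^ K * Real.exp (N * (csb K / (2 * π) +
          2 * K * ε1))) := by
    intro l hl
    rw [mem_range] at hl
    rcases Nat.lt_or_ge l N with hlN | hlN
    · have g1 := G_bound hrad (Nat.le_add_right m p) (Nat.le_add_left p m) hroot hη (sg_or σ)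
        (cw0_le (rt N) K t0) (cw0_par K t0) (l := l) (by omega) (hG l).1 (hG l).2
      rw [hexp, e6] at g1
      have g2 := hW K l s0 t0 hlN
      have g3 : 0 ≤ WT (rt N) N K l s0 t0 := by
        unfold WT
        refine add_nonneg (sum_nonneg fun r _ => ?_) (sum_nonneg fun r _ => ?_)
        · split_ifs
          exacts [mul_nonneg (phF_nonneg _ _ _ _ _) (phE_nonneg _ _ _ _ _), le_rfl]
        · split_ifs
          exacts [mul_nonneg (phE_nonneg _ _ _ _ _) (phF_nonneg _ _ _ _ _), le_rfl]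
      refine mul_le_mul (g1.trans ?_) g2 g3 (by positivity)
      have hl' : (l : ℝ) ≤ K * N := by exact_mod_cast (by omega : l ≤ K * N)
      gcongr
    · rw [brf_rt_zero (by omega) hlN, zero_mul, norm_zero, zero_mul]
      positivity
  refine hent.trans ((sum_le_sum hterm).trans ?_)
  rw [sum_const, card_range, nsmul_eq_mul]
  have hx2 : ((K : ℝ) * N + 1) ≤ ((K : ℝ) + 1) * N := by nlinarith
  have hy2 : y ^ a ≤ (512 * ((K : ℝ) + 1) ^ 2) ^ a * ((N : ℝ) ^ (3 * a) * ((M : ℝ) + 1) ^ a) := by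
    calc y ^ a ≤ (512 * ((K : ℝ) + 1) ^ 2 * ((N : ℝ) ^ 3 * ((M : ℝ) + 1))) ^ a := by gcongr
      _ = _ := by rw [mul_pow, mul_pow ((N : ℝ) ^ 3), ← pow_mul]
  have hε4 : Real.exp (N * (csb K / (2 * π) + 2 * K * ε1)) ≤
      Real.exp (N * (csb K / (2 * π))) * Real.exp (ε / 4 * N) := by
    rw [← Real.exp_add, Real.exp_le_exp]
    have : 2 * (K : ℝ) * ε1 ≤ ε / 4 := by
      rw [hε1]
      have e : 2 * (K : ℝ) * (ε / (8 * (K + 1))) = ε / 4 * (K / (K + 1)) := by
        field_simp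
        ring
      rw [e]
      have : (K : ℝ) / (K + 1) ≤ 1 := by
        rw [div_le_one (by positivity)]
        linarith
      nlinarith
    nlinarith
  have hya : y * y ^ (24 * (K + 1)) = y ^ a := by rw [ha, pow_succ]; ring
  have hNb : 48 * Real.exp 6 * ((K : ℝ) + 1) ^ 2 * (512 * ((K : ℝ) + 1) ^ 2) ^ a *
      ((N : ℝ) ^ 2 * (N : ℝ) ^ K * (N : ℝ) ^ (3 * a)) ≤ Real.exp (ε / 2 * N) := by
    have eN : (N : ℝ) ^ b = (N : ℝ) ^ 2 * (N : ℝ) ^ K * (N : ℝ) ^ (3 * a) := by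
      rw [hb, pow_add _ (2 + K) (3 * a), pow_add _ 2 K]
    rw [hc, eN] at hN
    exact hN
  have hlast : Real.exp (ε / 2 * N) * E0 * Real.exp (N * (csb K / (2 * π))) *
      Real.exp (ε / 4 * N) * Real.exp (ε / 4 * N) = Real.exp (N * (cbl K / (2 * π) + ε)) := by
    rw [hE0, ← Real.exp_add, ← Real.exp_add, ← Real.exp_add, ← Real.exp_add]
    congr 1
    unfold cbl
    field_simp
    ring
  rw [← hlast]
  push_cast
  have s1 := alg1 (x := (K : ℝ) * N + 1) (k1 := (K : ℝ) + 1) (n := N) (P := (N : ℝ) ^ p)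
    (Q := (N : ℝ) ^ K) (y := y) (z := y ^ (24 * (K + 1))) (E0 := E0)
    (E4 := Real.exp (ε / 4 * N)) (e6 := Real.exp 6)
    (F := Real.exp (N * (csb K / (2 * π) + 2 * K * ε1)))
    (F' := Real.exp (N * (csb K / (2 * π)))) (by positivity) hx2 hε4 (by positivity)
    (by positivity) hy0.le (by positivity) (Real.exp_pos _).le (Real.exp_pos _).le
    (Real.exp_pos _).le (Real.exp_pos _).le
  rw [hya] at s1
  refine s1.trans ?_
  exact alg2 hy2 hNb (by positivity) (by positivity) (by positivity) (Real.exp_pos _).le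
    (Real.exp_pos _).le (Real.exp_pos _).le (Real.exp_pos _).le

end Pool.Agent.Q191.LB
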