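import Pool.Agent.Q191.LB.Ent2

/-!
# Belted full twists: the logarithmic bound
-/

set_option autoImplicit false

namespace Pool.Agent.Q191.LB

open Matrix Finset Filter Topology
open Pool.Agent.H550R3.Jones (WM IsMod IsInt Gen br brf tens irr nb R Rinv Rh Rhi crossP crossN ptr)
open Pool.Agent.H897R.J (HasWt gen_br gen_v br_neg br_zero wt_F)
open Pool.Agent.W715.VC (rt)
open GapVol (lob)
open Pool.Agent.Q191.FT
open scoped Real

variable {N : ℕ}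

/-! ### The limit -/

theorem WT_cont {v : ℂ} (hv : v ≠ 0) (hN : ∀ k : ℕ, 0 < k → k < N → br v k ≠ 0) (K l : ℕ)
    (s0 t0 : Tp N K) : ContinuousAt (fun w => WT w N K l s0 t0) v := by
  unfold WT
  refine ContinuousAt.add ?_ ?_
  · refine tendsto_finsetSum _ fun r _ => ?_
    by_cases h : ds K t0 = ds K r + l ∧ ds K s0 = ds K r + l
    · simp only [if_pos h]
      exact (phF_cont hv hN K s0 r).mul (phE_cont hv hN K r t0)
    · simp only [if_neg h]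
      exact continuousAt_const
  · refine tendsto_finsetSum _ fun r _ => ?_
    by_cases h : ds K r = ds K t0 + l ∧ ds K r = ds K s0 + l
    · simp only [if_pos h]
      exact (phE_cont hv hN K s0 r).mul (phF_cont hv hN K r t0)
    · simp only [if_neg h]
      exact continuousAt_const

theorem XX_diff {v : ℂ} (hv : v ≠ 0) (hN : ∀ k : ℕ, 0 < k → k < N → br v k ≠ 0) (σ : Bool)
    (K m p : ℕ) : DA (fun w => XX σ N K m p w) v := by
  have h1 : DA (fun w => cx σ N w) v := by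
    cases σ
    · exact crossN_diff hv hN
    · exact crossP_diff hv hN
  exact ((DA_TT h1 K).pow m).mul ((DA_BB hv (crossP_diff hv hN) K).pow p)

theorem zero_open : IsOpen ({0}ᶜ : Set ℂ) := isOpen_compl_singleton

theorem ent_root (σ : Bool) (K m p : ℕ) (s0 t0 : Tp N K) {G : ℕ → ℂ → ℂ}
    (hG : ∀ l, DifferentiableOn ℂ (G l) {0}ᶜ)
    (hG2 : ∀ l, ∀ u : ℂ, Gen u →
      brf (u ^ 2) l * dd (ff K N (sg σ) m p (u ^ 2)) (u ^ 2) (cw0 N K t0) l = G l (u ^ 2)) :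
    ‖XX σ N K m p (rt N) s0 t0‖ ≤ ∑ l ∈ range (K * N + 1),
      ‖brf (rt N) l * G l (rt N)‖ * WT (rt N) N K l s0 t0 := by
  have hv := Pool.Agent.W613.QAT.rt_ne N
  have hN : ∀ k : ℕ, 0 < k → k < N → br (rt N) k ≠ 0 := Pool.Agent.W613.QAT.br_rt
  have h := lim_gen hv (F := fun w => ‖XX σ N K m p w s0 t0‖)
    (G := fun w => ∑ l ∈ range (K * N + 1), ‖G l w‖ *
      (‖brf w l‖ * (mx w ^ yx N K * WT w N K l s0 t0)))
    (XX_diff hv hN σ K m p s0 t0).continuousAt.norm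
    (tendsto_finsetSum _ fun l _ => (((hG l).differentiableAt
      (zero_open.mem_nhds hv)).continuousAt.norm).mul
      ((Pool.Agent.H756R3.J.brf_cont hv l).norm.mul
        (((mx_cont hv).pow _).mul (WT_cont hv hN K l s0 t0))))
    (fun u hu => by
      have h1 := belt_gen hu σ N K m p s0 t0
      simp only [hG2 _ u hu] at h1
      exact h1)
  beta_reduce at h
  refine h.trans (le_of_eq (sum_congr rfl fun l _ => ?_))
  rw [mx_rt, one_pow, one_mul, norm_mul]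
  ring

/-! ### The bound on the circle -/

theorem quotW {v : ℂ} {X : ℕ} {η : ℝ} (hpos : ∀ n, n ≤ X → 0 < ‖brf v n‖)
    (hL : ∀ n, n ≤ X → |Real.log ‖brf v n‖ + N / π * lob (π * n / N)| ≤ η) {a i l : ℕ} (hil : i ≤ l)
    (hX : a + l ≤ X) :
    ‖brf v l‖ ^ 2 * ‖brf v a‖ ≤ Real.exp (N / π * (6 * lob (π / 3)) + 6 * η) *
      (‖brf v (a + l)‖ * (‖brf v i‖ * ‖brf v (l - i)‖)) := by
  have hpi := Real.pi_pos
  have p1 := hpos l (by omega)
  have p2 := hpos a (by omega)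
  have p3 := hpos (a + l) hX
  have p4 := hpos i (by omega)
  have p5 := hpos (l - i) (by omega)
  have b1 := (abs_le.1 (hL l (by omega))).2
  have b2 := (abs_le.1 (hL a (by omega))).2
  have b3 := (abs_le.1 (hL (a + l) hX)).1
  have b4 := (abs_le.1 (hL i (by omega))).1
  have b5 := (abs_le.1 (hL (l - i) (by omega))).1
  have w1 := lobW (π * i / N) (π * ((l - i : ℕ) : ℝ) / N)
  have w2 := lobW' (π * a / N) (π * l / N)
  have e1 : π * i / N + π * ((l - i : ℕ) : ℝ) / N = π * l / N := by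
    have : (l : ℝ) = i + ((l - i : ℕ) : ℝ) := by
      rw [← Nat.cast_add]; congr 1; omega
    rw [this]; ring
  have e2 : π * a / N + π * l / N = π * ((a + l : ℕ) : ℝ) / N := by push_cast; ring
  rw [e1] at w1
  rw [e2] at w2
  have hw := mul_le_mul_of_nonneg_left (add_le_add w1 w2) (show 0 ≤ (N : ℝ) / π by positivity)
  have key : 2 * Real.log ‖brf v l‖ + Real.log ‖brf v a‖ ≤
      (N / π * (6 * lob (π / 3)) + 6 * η) + (Real.log ‖brf v (a + l)‖ + (Real.log ‖brf v i‖ +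
        Real.log ‖brf v (l - i)‖)) := by
    nlinarith
  have hl : Real.log (‖brf v l‖ ^ 2 * ‖brf v a‖) = 2 * Real.log ‖brf v l‖ + Real.log ‖brf v a‖ := by
    rw [Real.log_mul (by positivity) p2.ne', Real.log_pow]
    norm_num
  have hr : Real.log (Real.exp (N / π * (6 * lob (π / 3)) + 6 * η) *
      (‖brf v (a + l)‖ * (‖brf v i‖ * ‖brf v (l - i)‖))) =
      (N / π * (6 * lob (π / 3)) + 6 * η) + (Real.log ‖brf v (a + l)‖ + (Real.log ‖brf v i‖ +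
        Real.log ‖brf v (l - i)‖)) := by
    rw [Real.log_mul (Real.exp_pos _).ne' (by positivity), Real.log_exp,
      Real.log_mul p3.ne' (by positivity), Real.log_mul p4.ne' p5.ne']
  rw [← Real.log_le_log_iff (by positivity) (by positivity), hl, hr]
  exact key

theorem ff_bound {K m p M : ℕ} {r : ℝ} (h : Rad K M N r) (hm : m ≤ M) (hp : p ≤ M) {v : ℂ}
    (hv : ‖v - rt N‖ = r) {s : ℤ} (hs : s = 1 ∨ s = -1) {c : ℕ} (hc : c ≤ 3 * (K * N) + 1)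
    (hpar : (2 : ℤ) ∣ (c : ℤ) - (K * ((N : ℤ) - 1) + 1)) :
    ‖ff K N s m p v c‖ ≤ 8 * (N : ℝ) ^ p := by
  have hn := h.near hv
  have hN2 : (2 : ℝ) ≤ N := by exact_mod_cast h.hN
  have hr0 := h.r0
  have hK : (0 : ℝ) ≤ K := Nat.cast_nonneg K
  have hM : (0 : ℝ) ≤ M := Nat.cast_nonneg M
  have hmM : (m : ℝ) ≤ M := by exact_mod_cast hm
  have hpM : (p : ℝ) ≤ M := by exact_mod_cast hp
  have hmain := h.hr
  -- a general bound of powers
  have hpow : ∀ (e : ℤ) (j : ℕ), (j : ℝ) ≤ M → |(e : ℝ)| ≤ 32 * ((K : ℝ) + 1) ^ 2 * (N : ℝ) ^ 2 →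
      ‖(v ^ e) ^ j‖ ≤ 2 := by
    intro e j hj he
    rw [← zpow_natCast, ← _root_.zpow_mul]
    apply hn.norm_zpow
    have h2 : |((e * j : ℤ) : ℝ)| = |(e : ℝ)| * j := by
      push_cast
      rw [abs_mul, abs_of_nonneg (Nat.cast_nonneg j : (0 : ℝ) ≤ j)]
    rw [h2]
    have hN3 : (N : ℝ) ^ 2 ≤ (N : ℝ) ^ 3 := pow_le_pow_right₀ (by linarith) (by norm_num)
    calc |(e : ℝ)| * j * r ≤ 32 * ((K : ℝ) + 1) ^ 2 * (N : ℝ) ^ 2 * (M + 1) * r := by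
          gcongr
          linarith
      _ ≤ 32 * ((K : ℝ) + 1) ^ 2 * (N : ℝ) ^ 3 * (M + 1) * r := by gcongr
      _ = 1 / 4 * (128 * ((K : ℝ) + 1) ^ 2 * (N : ℝ) ^ 3 * ((M : ℝ) + 1) * r) := by ring
      _ ≤ 1 / 4 := by linarith
  have hN1' : (1 : ℝ) ≤ (N : ℝ) ^ 2 := by nlinarith
  have h1 : ‖(v ^ hh K N s c) ^ m‖ ≤ 2 := by
    apply hpow _ _ hmM
    have h2 := hh_two (s := s) hpar
    have h3 : 2 * |((hh K N s c : ℤ) : ℝ)| ≤ (c : ℝ) ^ 2 + 1 + K ^ 2 * (N : ℝ) ^ 2 := by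
      have e : (2 : ℝ) * ((hh K N s c : ℤ) : ℝ) = s * ((c : ℝ) ^ 2 - 1 - K ^ 2 * ((N : ℝ) ^ 2 - 1)) := by
        exact_mod_cast h2
      have e2 : 2 * |((hh K N s c : ℤ) : ℝ)| = |(2 : ℝ) * ((hh K N s c : ℤ) : ℝ)| := by
        rw [abs_mul, abs_two]
      rw [e2, e, abs_mul]
      have hs' : |(s : ℝ)| = 1 := by rcases hs with rfl | rfl <;> norm_num
      rw [hs', one_mul, abs_le]
      constructor <;> nlinarith [sq_nonneg (c : ℝ), mul_nonneg (sq_nonneg (K : ℝ)) (sq_nonneg (N : ℝ)),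
        sq_nonneg (K : ℝ)]
    have hc' : (c : ℝ) ≤ 3 * (K * N) + 1 := by exact_mod_cast hc
    have hc0 : (0 : ℝ) ≤ c := Nat.cast_nonneg c
    have h4 : (3 * (K * (N : ℝ)) + 1) ≤ 3 * ((K + 1) * N) := by nlinarith
    have h5 : (c : ℝ) ^ 2 ≤ (3 * ((K + 1) * N)) ^ 2 := by
      have := hc'.trans h4
      gcongr
    have h6 : (K : ℝ) ^ 2 * (N : ℝ) ^ 2 ≤ ((K : ℝ) + 1) ^ 2 * (N : ℝ) ^ 2 := by
      gcongr
      linarith
    have h7 : (1 : ℝ) ≤ ((K : ℝ) + 1) ^ 2 * (N : ℝ) ^ 2 := by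
      have h8 : (1 : ℝ) ≤ ((K : ℝ) + 1) ^ 2 := by nlinarith
      nlinarith
    nlinarith
  have h2 : ‖(v ^ (-(K * ((N : ℤ) ^ 2 - 1)))) ^ p‖ ≤ 2 := by
    apply hpow _ _ hpM
    push_cast
    rw [abs_neg, abs_of_nonneg (by nlinarith)]
    have : (K : ℝ) ≤ ((K : ℝ) + 1) ^ 2 := by nlinarith
    have h3 : (K : ℝ) * ((N : ℝ) ^ 2 - 1) ≤ ((K : ℝ) + 1) ^ 2 * (N : ℝ) ^ 2 := by
      have : (N : ℝ) ^ 2 - 1 ≤ (N : ℝ) ^ 2 := by linarith
      have h0 : 0 ≤ (N : ℝ) ^ 2 - 1 := by linarith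
      gcongr
    nlinarith [sq_nonneg ((K : ℝ) + 1)]
  have h3 := chi_bound h hv hp hc
  unfold ff
  rw [norm_mul, mul_pow, norm_mul]
  have hNp : (0 : ℝ) ≤ (N : ℝ) ^ p := by positivity
  calc ‖(v ^ hh K N s c) ^ m‖ * (‖(v ^ (-(K * ((N : ℤ) ^ 2 - 1)))) ^ p‖ * ‖chi v N c ^ p‖)
      ≤ 2 * (2 * (2 * (N : ℝ) ^ p)) := by gcongr
    _ = _ := by ring

theorem circ_bound {K m p M : ℕ} {r η : ℝ} (h : Rad K M N r) (hm : m ≤ M) (hp : p ≤ M) {u : ℂ}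
    (hu : Gen u) (hv : ‖u ^ 2 - rt N‖ = r)
    (hL : ∀ n, n ≤ 4 * (K + 1) * N → |Real.log ‖brf (u ^ 2) n‖ + N / π * lob (π * n / N)| ≤ η)
    {s : ℤ} (hs : s = 1 ∨ s = -1) {μ l : ℕ} (hμ : μ ≤ K * N)
    (hpar : (2 : ℤ) ∣ (μ : ℤ) - K * ((N : ℤ) - 1)) (hl : l ≤ K * N) :
    ‖brf (u ^ 2) l * (brf (u ^ 2) l * dd (ff K N s m p (u ^ 2)) (u ^ 2) μ l)‖ ≤
      (l + 1) * (8 * (N : ℝ) ^ p * (6 / r * Real.exp (N / π * (6 * lob (π / 3)) + 6 * η))) := by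
  have hn := h.near hv
  have hN1 := h.hN
  have hr0 := h.r0
  have hvne := gen_v hu
  have hpos : ∀ n, n ≤ 4 * (K + 1) * N → 0 < ‖brf (u ^ 2) n‖ := fun n hn' => hn.brf_pos hn'
  have hKN : 4 * (K + 1) * N = 4 * (K * N) + 4 * N := by ring
  set E2 := Real.exp (N / π * (6 * lob (π / 3)) + 6 * η) with hE2
  have hE2p : 0 < E2 := Real.exp_pos _
  unfold dd ddn
  rw [mul_sum, mul_sum]
  have hb : ∀ i ∈ range (l + 1), ‖brf (u ^ 2) l * (brf (u ^ 2) l *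
      (ff K N s m p (u ^ 2) ((μ : ℤ) + 1 + 2 * (i : ℤ)) * (Dn (nu (u ^ 2) μ) i l)⁻¹))‖ ≤
      8 * (N : ℝ) ^ p * (6 / r * E2) := by
    intro i hi
    rw [mem_range] at hi
    have hil : i ≤ l := by omega
    have hf : ‖ff K N s m p (u ^ 2) ((μ : ℤ) + 1 + 2 * (i : ℤ))‖ ≤ 8 * (N : ℝ) ^ p := by
      have := ff_bound h hm hp hv hs (c := μ + 1 + 2 * i) (by omega) (by
        obtain ⟨k, hk⟩ := hpar
        exact ⟨k + i, by push_cast; linarith⟩)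
      push_cast at this
      exact this
    have hDne : Dn (nu (u ^ 2) μ) i l ≠ 0 :=
      Dn_ne (L := l) ((nu_inj hu (Int.natCast_nonneg μ)).injOn) (by omega) (by omega)
    have hD := norm_pos_iff.2 hDne
    have hQ : ‖brf (u ^ 2) l‖ ^ 2 ≤ (6 / r * E2) * ‖Dn (nu (u ^ 2) μ) i l‖ := by
      have hb1 := (hn.br_bd (n := μ + 1 + 2 * i) (by omega) (by omega)).2
      have hb2 := (hn.br_bd (n := μ + i + l + 1) (by omega) (by omega)).1
      have e1 : brf (u ^ 2) (μ + 1 + i + l) = brf (u ^ 2) (μ + i + l) *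
          br (u ^ 2) ((μ + i + l + 1 : ℕ) : ℤ) := by
        have : μ + 1 + i + l = μ + i + l + 1 := by ring
        rw [this, brf_succ']
        push_cast; rfl
      have q1 := quotW (v := u ^ 2) (a := μ + i) hpos hL hil (by omega)
      have p2 := hpos (μ + i) (by omega)
      have p3 := hpos (μ + i + l) (by omega)
      have p4 := hpos i (by omega)
      have p5 := hpos (l - i) (by omega)
      have h4 := norm_Dn hvne μ hil
      rw [e1, norm_mul] at h4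
      have hpos2 : 0 < ‖brf (u ^ 2) (μ + i)‖ * ‖br (u ^ 2) ((μ : ℤ) + 1 + 2 * i)‖ := by
        have := norm_pos_iff.2 (gen_br hu (n := (μ : ℤ) + 1 + 2 * i) (by omega))
        positivity
      apply le_of_mul_le_mul_right _ hpos2
      rw [mul_assoc, h4]
      push_cast at hb1 hb2 ⊢
      rw [← hE2] at q1
      calc ‖brf (u ^ 2) l‖ ^ 2 * (‖brf (u ^ 2) (μ + i)‖ * ‖br (u ^ 2) ((μ : ℤ) + 1 + 2 * i)‖)
          = ‖brf (u ^ 2) l‖ ^ 2 * ‖brf (u ^ 2) (μ + i)‖ *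
            ‖br (u ^ 2) ((μ : ℤ) + 1 + 2 * i)‖ := by ring
        _ ≤ E2 * (‖brf (u ^ 2) (μ + i + l)‖ * (‖brf (u ^ 2) i‖ * ‖brf (u ^ 2) (l - i)‖)) * 3 := by
          gcongr
        _ = (6 / r * E2) * (‖brf (u ^ 2) (μ + i + l)‖ * (r / 2) *
            (‖brf (u ^ 2) i‖ * ‖brf (u ^ 2) (l - i)‖)) := by
          field_simp
          ring
        _ ≤ (6 / r * E2) * (‖brf (u ^ 2) (μ + i + l)‖ *
            ‖br (u ^ 2) ((μ : ℤ) + i + l + 1)‖ * (‖brf (u ^ 2) i‖ * ‖brf (u ^ 2) (l - i)‖)) := by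
          gcongr
    rw [norm_mul, norm_mul, norm_mul, norm_inv]
    calc ‖brf (u ^ 2) l‖ * (‖brf (u ^ 2) l‖ *
          (‖ff K N s m p (u ^ 2) ((μ : ℤ) + 1 + 2 * (i : ℤ))‖ * ‖Dn (nu (u ^ 2) μ) i l‖⁻¹))
        = ‖ff K N s m p (u ^ 2) ((μ : ℤ) + 1 + 2 * (i : ℤ))‖ *
          (‖brf (u ^ 2) l‖ ^ 2 * ‖Dn (nu (u ^ 2) μ) i l‖⁻¹) := by ring
      _ ≤ 8 * (N : ℝ) ^ p * ((6 / r * E2) * ‖Dn (nu (u ^ 2) μ) i l‖ *
          ‖Dn (nu (u ^ 2) μ) i l‖⁻¹) := by gcongr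
      _ = 8 * (N : ℝ) ^ p * (6 / r * E2) := by
          rw [mul_inv_cancel_right₀ hD.ne']
  refine (norm_sum_le _ _).trans ((sum_le_sum hb).trans ?_)
  rw [sum_const, card_range, nsmul_eq_mul]
  push_cast
  exact le_rfl

/-- the maximum principle -/
theorem G_bound {K m p M : ℕ} {r η : ℝ} (h : Rad K M N r) (hm : m ≤ M) (hp : p ≤ M)
    (hroot : ∀ v : ℂ, ‖v - rt N‖ = r → ∀ n : ℕ, 0 < n → v ^ n ≠ 1)
    (hη : ∀ v : ℂ, ‖v - rt N‖ = r → ∀ n, n ≤ 4 * (K + 1) * N →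
      |Real.log ‖brf v n‖ + N / π * lob (π * n / N)| ≤ η)
    {s : ℤ} (hs : s = 1 ∨ s = -1) {μ l : ℕ} (hμ : μ ≤ K * N)
    (hpar : (2 : ℤ) ∣ (μ : ℤ) - K * ((N : ℤ) - 1)) (hl : l ≤ K * N) {G : ℂ → ℂ}
    (hG : DifferentiableOn ℂ G {0}ᶜ)
    (hG2 : ∀ u : ℂ, Gen u → brf (u ^ 2) l * dd (ff K N s m p (u ^ 2)) (u ^ 2) μ l = G (u ^ 2)) :
    ‖brf (rt N) l * G (rt N)‖ ≤
      (l + 1) * (8 * (N : ℝ) ^ p * (6 / r * Real.exp (N / π * (6 * lob (π / 3)) + 6 * η))) := by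
  have hr0 := h.r0
  have hfr : ∀ z ∈ frontier (Metric.ball (rt N) r), ‖z - rt N‖ = r := by
    intro z hz
    rw [frontier_ball _ hr0.ne'] at hz
    exact mem_sphere_iff_norm.1 hz
  have hd : DiffContOnCl ℂ (fun v => brf v l * G v) (Metric.ball (rt N) r) := by
    apply DifferentiableOn.diffContOnCl
    rw [closure_ball _ hr0.ne']
    intro v hv
    have hv' : ‖v - rt N‖ ≤ r := mem_closedBall_iff_norm.1 hv
    have h1 := (near_ne h hv').1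
    exact ((brf_diff h1 l).mul (hG.differentiableAt (zero_open.mem_nhds h1))).differentiableWithinAt
  refine Complex.norm_le_of_forall_mem_frontier_norm_le Metric.isBounded_ball hd (fun v hv => ?_)
    (subset_closure (Metric.mem_ball_self hr0))
  have hv1 := hfr v hv
  obtain ⟨u, hu, hg⟩ := gen_of (near_ne h hv1.le).1 (hroot v hv1)
  subst hu
  rw [← hG2 u hg]
  exact circ_bound h hm hp hg hv1 (hη _ hv1) hs hμ hpar hl

end Pool.Agent.Q191.LB
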