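import Pool.Agent.Q191.FT.Dp

/-!
# Product bounds of the divided powers; entries of the R-matrix
-/

set_option autoImplicit false

namespace Pool.Agent.Q191.LB

open Matrix Finset
open scoped Kronecker
open Pool.Agent.H550R3.Jones (WM IsMod IsInt Gen br brf tens irr nb R Rinv Rh Rhi crossP crossN)
open Pool.Agent.H897R.J (HasWt gen_br gen_v br_neg br_zero wt_F)
open Pool.Agent.Q191.FT

/-- absolute value of a `q`-binomial coefficient -/
noncomputable def qb (v : ℂ) (a n : ℕ) : ℝ := ‖brf v (a + n)‖ / (‖brf v a‖ * ‖brf v n‖)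

theorem qb_nonneg (v : ℂ) (a n : ℕ) : 0 ≤ qb v a n := by unfold qb; positivity

/-- `E` on one strand -/
noncomputable def fE (v : ℂ) (N : ℕ) (i j : Fin N) : ℝ :=
  if (i : ℕ) ≤ j then qb v (N - 1 - j) (j - i) else 0

/-- `F` on one strand -/
noncomputable def fF (v : ℂ) (N : ℕ) (i j : Fin N) : ℝ := if (j : ℕ) ≤ i then qb v j (i - j) else 0

theorem fE_nonneg (v : ℂ) (N : ℕ) (i j : Fin N) : 0 ≤ fE v N i j := by
  unfold fE; split_ifs; exacts [qb_nonneg _ _ _, le_rfl]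

theorem fF_nonneg (v : ℂ) (N : ℕ) (i j : Fin N) : 0 ≤ fF v N i j := by
  unfold fF; split_ifs; exacts [qb_nonneg _ _ _, le_rfl]

/-- `E` on `k` strands -/
noncomputable def phE (v : ℂ) (N : ℕ) : (k : ℕ) → Tp N k → Tp N k → ℝ
  | 0, _, _ => 1
  | k + 1, x, y => phE v N k x.1 y.1 * fE v N x.2 y.2

/-- `F` on `k` strands -/
noncomputable def phF (v : ℂ) (N : ℕ) : (k : ℕ) → Tp N k → Tp N k → ℝ
  | 0, _, _ => 1
  | k + 1, x, y => phF v N k x.1 y.1 * fF v N x.2 y.2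

theorem phE_nonneg (v : ℂ) (N : ℕ) : ∀ k (x y : Tp N k), 0 ≤ phE v N k x y
  | 0, _, _ => zero_le_one
  | k + 1, x, y => mul_nonneg (phE_nonneg v N k x.1 y.1) (fE_nonneg _ _ _ _)

theorem phF_nonneg (v : ℂ) (N : ℕ) : ∀ k (x y : Tp N k), 0 ≤ phF v N k x y
  | 0, _, _ => zero_le_one
  | k + 1, x, y => mul_nonneg (phF_nonneg v N k x.1 y.1) (fF_nonneg _ _ _ _)

theorem qb_mul {v : ℂ} {a n : ℕ} (ha : brf v a ≠ 0) (hn : brf v n ≠ 0) :
    qb v a n * (‖brf v a‖ * ‖brf v n‖) = ‖brf v (a + n)‖ := by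
  have h1 := norm_pos_iff.2 ha
  have h2 := norm_pos_iff.2 hn
  unfold qb
  exact div_mul_cancel₀ _ (by positivity)

theorem DB_irr {u : ℂ} (hu : Gen u) (N : ℕ) :
    DB (u ^ 2) (irr (u ^ 2) N) 1 (fE (u ^ 2) N) (fF (u ^ 2) N) := by
  have hne := Pool.Agent.H559R3.J.brf_ne hu
  intro n i j
  have hi := i.2
  have hj := j.2
  rw [one_mul, one_mul]
  constructor
  · refine irr_E_norm hu (fE_nonneg _ _ _ _) fun h => ?_
    have e : N - 1 - (i : ℕ) = N - 1 - j + n := by omega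
    have e2 : (j : ℕ) - i = n := by omega
    unfold fE
    rw [if_pos (by omega), e, e2, qb_mul (hne _) (hne _)]
  · refine irr_F_norm hu (fF_nonneg _ _ _ _) fun h => ?_
    have e2 : (i : ℕ) - j = n := by omega
    unfold fF
    rw [if_pos (by omega), e2, qb_mul (hne _) (hne _), h]

/-- the divided powers on the tensor powers, product form -/
theorem DB_MM' {u : ℂ} (hu : Gen u) {N : ℕ} {β : ℝ} {K : ℕ}
    (hβ : ∀ e : ℤ, |e| ≤ 2 * (K * N) * N → ‖(u ^ 2) ^ e‖ ≤ β) :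
    ∀ k, k ≤ K → DB (u ^ 2) (MM (u ^ 2) N k) (β ^ k) (phE (u ^ 2) N k) (phF (u ^ 2) N k)
  | 0, _ => by
    rw [pow_zero]
    exact DB_triv (u ^ 2)
  | k + 1, hk => by
    have hv := gen_v hu
    have ih := DB_MM' hu hβ k (by omega)
    have hβ0 : 0 ≤ β := (norm_nonneg _).trans (hβ 0 (by rw [abs_zero]; positivity))
    have hβ' : ∀ e : ℤ, |e| ≤ 2 * (k * N) * N → ‖(u ^ 2) ^ e‖ ≤ β := by
      intro e he
      refine hβ e (he.trans ?_)
      have h1 : (k : ℤ) * N ≤ K * N := by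
        have : (k : ℤ) ≤ K := by omega
        gcongr
      gcongr
    have e : β ^ (k + 1) = β ^ k * 1 * β := by rw [pow_succ]; ring
    rw [e]
    exact DB_tens hu (MM_mod hv N k) (Pool.Agent.H345J.irr_mod hv N)
        (fun i => (MM_wt (u ^ 2) N k i).1) (irr_wt _ N) (phE_nonneg _ _ k) (phF_nonneg _ _ k)
        (fE_nonneg _ _) (fF_nonneg _ _) (by positivity) zero_le_one ih (DB_irr hu N) hβ'

/-! ### Entries of the R-matrix -/

variable {ι κ : Type} [Fintype ι] [DecidableEq ι] [Fintype κ] [DecidableEq κ]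

/-- half the difference of the weights -/
def hd (M : WM ι) (i j : ι) : ℕ := ((M.wt i - M.wt j) / 2).toNat

theorem hd_eq {M : WM ι} {i j : ι} {n : ℕ} (h : M.wt i = M.wt j + 2 * n) : hd M i j = n := by
  unfold hd
  rw [h]
  omega

theorem norm_pow_u {u : ℂ} {e : ℤ} {n : ℕ} (hu : u ≠ 0) :
    ‖u ^ e‖ * ‖(u ^ 2) ^ n‖ = ‖u ^ (e + 2 * n)‖ := by
  rw [← norm_mul]
  congr 1
  rw [zpow_add₀ hu, ← pow_mul, ← zpow_natCast]
  push_cast
  rfl

theorem R_ent {u : ℂ} (hu : Gen u) {M : WM ι} {V : WM κ} (hM : IsMod (u ^ 2) M)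
    (hV : IsMod (u ^ 2) V) {A A' : ℤ} (hA : ∀ i, |M.wt i| ≤ A) (hA' : ∀ j, |V.wt j| ≤ A')
    {B B' Θ : ℝ} {φ ψ : ι → ι → ℝ} {φ' ψ' : κ → κ → ℝ} (hφ : ∀ i j, 0 ≤ φ i j)
    (hψ' : ∀ i j, 0 ≤ ψ' i j)
    (hB0 : 0 ≤ B) (hB0' : 0 ≤ B') (hB : DB (u ^ 2) M B φ ψ) (hB' : DB (u ^ 2) V B' φ' ψ')
    (hΘ : ∀ e : ℤ, |e| ≤ A * A' + A * A → ‖u ^ e‖ ≤ Θ) (i' i : ι) (j' j : κ) :
    ‖R u M V (i', j') (i, j)‖ ≤
      Θ * ((B * φ i' i) * (B' * ψ' j' j) * ‖brf (u ^ 2) (hd M i' i)‖) ∧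
    ‖Rinv u M V (i', j') (i, j)‖ ≤
      Θ * ((B * φ i' i) * (B' * ψ' j' j) * ‖brf (u ^ 2) (hd M i' i)‖) := by
  have hv := gen_v hu
  have hne := Pool.Agent.H559R3.J.brf_ne hu
  have hA0 : 0 ≤ A := (abs_nonneg _).trans (hA i)
  have hA0' : 0 ≤ A' := (abs_nonneg _).trans (hA' j)
  have hΘ0 : 0 ≤ Θ := (norm_nonneg _).trans (hΘ 0 (by rw [abs_zero]; positivity))
  have p1 := hφ i' i
  have p2 := hψ' j' j
  have hwM : ∀ (m : ℕ), (M.E ^ m) i' i ≠ 0 → M.wt i' = M.wt i + 2 * m :=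
    fun m h => (Pool.Agent.H22R3.J.E_pow_wt hM m i' i h).trans (by ring)
  have hC : 0 ≤ Θ * ((B * φ i' i) * (B' * ψ' j' j) * ‖brf (u ^ 2) (hd M i' i)‖) := by positivity
  have hi := abs_le.1 (hA i)
  have hi' := abs_le.1 (hA i')
  have hprod : ∀ x : ι, ∀ y : κ, |M.wt x * V.wt y| ≤ A * A' := by
    intro x y
    rw [abs_mul]
    exact mul_le_mul (hA x) (hA' y) (abs_nonneg _) hA0
  have hsq : ∀ n : ℕ, (n : ℤ) ≤ A → 2 * ((n * (n - 1) / 2 : ℕ) : ℤ) ≤ A * A := by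
    intro n hn
    have h1 : 2 * (n * (n - 1) / 2) ≤ n * n := by
      have := Nat.div_mul_le_self (n * (n - 1)) 2
      have h2 : n * (n - 1) ≤ n * n := Nat.mul_le_mul_left n (by omega)
      omega
    have h3 : ((n * n : ℕ) : ℤ) ≤ A * A := by
      push_cast
      have : (0 : ℤ) ≤ n := by positivity
      nlinarith
    have h4 : ((2 * (n * (n - 1) / 2) : ℕ) : ℤ) ≤ ((n * n : ℕ) : ℤ) := by exact_mod_cast h1
    push_cast at h4 h3 ⊢
    linarith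
  constructor
  · unfold R
    rw [diagonal_mul, Matrix.sum_apply, mul_sum]
    have hnb : ∃ m, nb M = m + 1 := ⟨_, rfl⟩
    obtain ⟨m, hm⟩ := hnb
    rw [hm]
    refine single_bound hC ?_ ?_
    · intro k _ k' _ h h'
      rw [Matrix.smul_apply, kroneckerMap_apply] at h h'
      have e1 := hwM _ (left_ne_zero_of_mul (right_ne_zero_of_mul (right_ne_zero_of_mul h)))
      have e2 := hwM _ (left_ne_zero_of_mul (right_ne_zero_of_mul (right_ne_zero_of_mul h')))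
      omega
    · intro n _ h
      rw [Matrix.smul_apply, kroneckerMap_apply] at h ⊢
      have e1 := hwM _ (left_ne_zero_of_mul (right_ne_zero_of_mul (right_ne_zero_of_mul h)))
      rw [hd_eq e1]
      have hb := norm_pos_iff.2 (hne n)
      have c1 := (hB n i' i).1
      have c2 := (hB' n j' j).2
      have hnA : (n : ℤ) ≤ A := by omega
      have c3 : ‖u ^ (M.wt i' * V.wt j')‖ * ‖(u ^ 2) ^ (n * (n - 1) / 2)‖ ≤ Θ := by
        rw [norm_pow_u hu.1]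
        refine hΘ _ ?_
        have h1 := abs_le.1 (hprod i' j')
        have h2 := hsq n hnA
        rw [abs_le]
        have h3 : (0 : ℤ) ≤ 2 * ((n * (n - 1) / 2 : ℕ) : ℤ) := by positivity
        constructor <;> nlinarith [h1.1, h1.2]
      rw [norm_mul, smul_eq_mul, norm_mul, norm_mul, norm_div]
      change ‖u ^ (M.wt i' * V.wt j')‖ * (‖(u ^ 2) ^ (n * (n - 1) / 2)‖ / ‖brf (u ^ 2) n‖ *
        (‖(M.E ^ n) i' i‖ * ‖(V.F ^ n) j' j‖)) ≤ _
      calc ‖u ^ (M.wt i' * V.wt j')‖ * (‖(u ^ 2) ^ (n * (n - 1) / 2)‖ / ‖brf (u ^ 2) n‖ *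
            (‖(M.E ^ n) i' i‖ * ‖(V.F ^ n) j' j‖))
          ≤ ‖u ^ (M.wt i' * V.wt j')‖ * (‖(u ^ 2) ^ (n * (n - 1) / 2)‖ / ‖brf (u ^ 2) n‖ *
            ((B * φ i' i * ‖brf (u ^ 2) n‖) * (B' * ψ' j' j * ‖brf (u ^ 2) n‖))) := by gcongr
        _ = (‖u ^ (M.wt i' * V.wt j')‖ * ‖(u ^ 2) ^ (n * (n - 1) / 2)‖) *
            ((B * φ i' i) * (B' * ψ' j' j) * ‖brf (u ^ 2) n‖) := by field_simp
        _ ≤ Θ * ((B * φ i' i) * (B' * ψ' j' j) * ‖brf (u ^ 2) n‖) := by gcongr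
  · unfold Rinv
    rw [mul_diagonal, Matrix.sum_apply, sum_mul]
    have hnb : ∃ m, nb M = m + 1 := ⟨_, rfl⟩
    obtain ⟨m, hm⟩ := hnb
    rw [hm]
    refine single_bound hC ?_ ?_
    · intro k _ k' _ h h'
      rw [Matrix.smul_apply, kroneckerMap_apply] at h h'
      have e1 := hwM _ (left_ne_zero_of_mul (right_ne_zero_of_mul (left_ne_zero_of_mul h)))
      have e2 := hwM _ (left_ne_zero_of_mul (right_ne_zero_of_mul (left_ne_zero_of_mul h')))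
      omega
    · intro n _ h
      rw [Matrix.smul_apply, kroneckerMap_apply] at h ⊢
      have e1 := hwM _ (left_ne_zero_of_mul (right_ne_zero_of_mul (left_ne_zero_of_mul h)))
      rw [hd_eq e1]
      have hb := norm_pos_iff.2 (hne n)
      have c1 := (hB n i' i).1
      have c2 := (hB' n j' j).2
      have hnA : (n : ℤ) ≤ A := by omega
      have c3 : ‖u ^ (-(M.wt i * V.wt j))‖ * ‖(u ^ 2) ^ (n * (n - 1) / 2)‖⁻¹ ≤ Θ := by
        have h0 : ‖(u ^ 2) ^ (n * (n - 1) / 2)‖⁻¹ = ‖u ^ (-(2 * ((n * (n - 1) / 2 : ℕ) : ℤ)))‖ := by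
          rw [← norm_inv]
          congr 1
          rw [_root_.zpow_neg, ← pow_mul, ← zpow_natCast]
          push_cast
          rfl
        rw [h0, ← norm_mul, ← zpow_add₀ hu.1]
        refine hΘ _ ?_
        have h1 := abs_le.1 (hprod i j)
        have h2 := hsq n hnA
        rw [abs_le]
        have h3 : (0 : ℤ) ≤ 2 * ((n * (n - 1) / 2 : ℕ) : ℤ) := by positivity
        constructor <;> nlinarith [h1.1, h1.2]
      have hvp : 0 < ‖(u ^ 2) ^ (n * (n - 1) / 2)‖ := norm_pos_iff.2 (pow_ne_zero _ hv)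
      rw [norm_mul, smul_eq_mul, norm_mul, norm_mul, norm_div, norm_mul, norm_pow, norm_neg,
        norm_one, one_pow]
      change 1 / (‖(u ^ 2) ^ (n * (n - 1) / 2)‖ * ‖brf (u ^ 2) n‖) *
        (‖(M.E ^ n) i' i‖ * ‖(V.F ^ n) j' j‖) * ‖u ^ (-(M.wt i * V.wt j))‖ ≤ _
      calc 1 / (‖(u ^ 2) ^ (n * (n - 1) / 2)‖ * ‖brf (u ^ 2) n‖) *
            (‖(M.E ^ n) i' i‖ * ‖(V.F ^ n) j' j‖) * ‖u ^ (-(M.wt i * V.wt j))‖
          ≤ 1 / (‖(u ^ 2) ^ (n * (n - 1) / 2)‖ * ‖brf (u ^ 2) n‖) *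
            ((B * φ i' i * ‖brf (u ^ 2) n‖) * (B' * ψ' j' j * ‖brf (u ^ 2) n‖)) *
            ‖u ^ (-(M.wt i * V.wt j))‖ := by gcongr
        _ = (‖u ^ (-(M.wt i * V.wt j))‖ * ‖(u ^ 2) ^ (n * (n - 1) / 2)‖⁻¹) *
            ((B * φ i' i) * (B' * ψ' j' j) * ‖brf (u ^ 2) n‖) := by field_simp
        _ ≤ Θ * ((B * φ i' i) * (B' * ψ' j' j) * ‖brf (u ^ 2) n‖) := by gcongr

end Pool.Agent.Q191.LB
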