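import Pool.Agent.Q191.FT.BBrd
import Pool.Agent.Q191.LB.Ph

/-!
# Bundle crossings as words and as braidings of tensor powers
-/

set_option autoImplicit false

namespace Pool.Agent.Q191.LB

open Matrix Finset
open scoped Kronecker
open Pool.Agent.H550R3.Jones (WM IsMod IsInt Gen br brf tens irr nb R Rinv Rh Rhi crossP crossN)
open Pool.Agent.H897R.J (HasWt gen_br gen_v br_neg br_zero wt_F)
open Pool.Agent.Q191.FT

variable {N : ℕ}

/-- the strand `i + r` crosses the strands `i, …, i + r - 1` -/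
def col (i : ℕ) : ℕ → List ℕ
  | 0 => []
  | r + 1 => (i + r) :: col i r

/-- the strands `i, …, i + r - 1` cross the strands `i + r, …, i + r + s - 1` -/
def bun (i r : ℕ) : ℕ → List ℕ
  | 0 => []
  | s + 1 => bun i r s ++ col (i + s) r

/-- matrix of `col` -/
noncomputable def Xc (A : Matrix (Fin N × Fin N) (Fin N × Fin N) ℂ) : (r : ℕ) →
    Matrix (Fin N × Tp N r) (Tp N r × Fin N) ℂ
  | 0 => fun p q => if p.1 = q.2 then 1 else 0
  | r + 1 => fun p q => ∑ m : Fin N, Xc A r (p.1, p.2.1) (q.1.1, m) * A (m, p.2.2) (q.1.2, q.2)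

/-- matrix of `bun` -/
noncomputable def Zc (A : Matrix (Fin N × Fin N) (Fin N × Fin N) ℂ) (r : ℕ) : (s : ℕ) →
    Matrix (Tp N s × Tp N r) (Tp N r × Tp N s) ℂ
  | 0 => fun p q => if p.2 = q.1 then 1 else 0
  | s + 1 => fun p q => ∑ z : Tp N r, Xc A r (p.1.2, p.2) (z, q.2.2) * Zc A r s (p.1.1, z) (q.1, q.2.1)

/-- representation of operators of the type of `col` -/
def RepC (i r : ℕ) (X : Matrix (Fin N × Tp N r) (Tp N r × Fin N) ℂ)
    (O : (List (Fin N) → ℂ) → List (Fin N) → ℂ) : Prop :=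
  ∀ (l rest : List (Fin N)), l.length = i → ∀ (f : List (Fin N) → ℂ) (a' : Fin N) (x' : Tp N r),
    O f (l ++ a' :: (toL r x' ++ rest)) =
      ∑ x : Tp N r, ∑ a : Fin N, X (a', x') (x, a) * f (l ++ (toL r x ++ a :: rest))

/-- representation of operators of the type of `bun` -/
def RepB (i r s : ℕ) (Z : Matrix (Tp N s × Tp N r) (Tp N r × Tp N s) ℂ)
    (O : (List (Fin N) → ℂ) → List (Fin N) → ℂ) : Prop :=
  ∀ (l rest : List (Fin N)), l.length = i → ∀ (f : List (Fin N) → ℂ) (y' : Tp N s) (x' : Tp N r),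
    O f (l ++ (toL s y' ++ (toL r x' ++ rest))) =
      ∑ x : Tp N r, ∑ y : Tp N s, Z (y', x') (x, y) * f (l ++ (toL r x ++ (toL s y ++ rest)))

theorem toL_succ (k : ℕ) (x : Tp N k) (a : Fin N) (rest : List (Fin N)) :
    toL (k + 1) (x, a) ++ rest = toL k x ++ a :: rest := by
  change (toL k x ++ [a]) ++ rest = _
  simp

theorem sum_Tp_zero (g : Tp N 0 → ℂ) : ∑ q : Tp N 0, g q = g () := by
  have h : ∀ g' : Unit → ℂ, ∑ q : Unit, g' q = g' () := fun g' => by simp
  exact h g

theorem rep_col (A : Matrix (Fin N × Fin N) (Fin N × Fin N) ℂ) (i : ℕ) :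
    ∀ r, RepC i r (Xc A r) (wop A (col i r))
  | 0 => by
    rintro l rest hl f a' ⟨⟩
    rw [sum_Tp_zero]
    rw [sum_eq_single a']
    · change f _ = (if a' = a' then (1 : ℂ) else 0) * _
      rw [if_pos rfl, one_mul]
      rfl
    · intro a _ ha
      change (if a' = a then (1 : ℂ) else 0) * _ = 0
      rw [if_neg (fun h => ha h.symm), zero_mul]
    · intro h; exact absurd (mem_univ _) h
  | r + 1 => by
    rintro l rest hl f a' ⟨x', b'⟩
    have e0 : wop A (col i (r + 1)) f = wop A (col i r) (op A (i + r) f) := by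
      rw [col, ← List.singleton_append, wop_append, wop_single]
    rw [e0, toL_succ, rep_col A i r l (b' :: rest) hl (op A (i + r) f) a' x', sum_Tp_succ]
    refine sum_congr rfl fun x _ => ?_
    have e1 : ∀ m : Fin N, op A (i + r) f (l ++ (toL r x ++ m :: b' :: rest)) =
        ∑ b : Fin N, ∑ a : Fin N, A (m, b') (b, a) *
          f (l ++ (toL (r + 1) (x, b) ++ a :: rest)) := by
      intro m
      rw [← List.append_assoc, op_app A f (l ++ toL r x) m b' rest
        (by rw [List.length_append, toL_length, hl]), Fintype.sum_prod_type]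
      refine sum_congr rfl fun b _ => sum_congr rfl fun a _ => ?_
      rw [toL_succ, List.append_assoc]
    simp only [e1, mul_sum]
    rw [sum_comm]
    refine sum_congr rfl fun b _ => ?_
    rw [sum_comm]
    refine sum_congr rfl fun a _ => ?_
    have e2 : Xc A (r + 1) (a', (x', b')) ((x, b), a) =
        ∑ m : Fin N, Xc A r (a', x') (x, m) * A (m, b') (b, a) := rfl
    rw [e2, sum_mul]
    exact sum_congr rfl fun m _ => by ring

theorem rep_bun (A : Matrix (Fin N × Fin N) (Fin N × Fin N) ℂ) (i r : ℕ) :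
    ∀ s, RepB i r s (Zc A r s) (wop A (bun i r s))
  | 0 => by
    rintro l rest hl f ⟨⟩ x'
    rw [sum_eq_single x']
    · rw [sum_Tp_zero]
      change f _ = (if x' = x' then (1 : ℂ) else 0) * _
      rw [if_pos rfl, one_mul]
      rfl
    · intro x _ hx
      rw [sum_Tp_zero]
      change (if x' = x then (1 : ℂ) else 0) * _ = 0
      rw [if_neg (fun h => hx h.symm), zero_mul]
    · intro h; exact absurd (mem_univ _) h
  | s + 1 => by
    rintro l rest hl f ⟨y', a'⟩ x'
    have e0 : wop A (bun i r (s + 1)) f = wop A (col (i + s) r) (wop A (bun i r s) f) := by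
      rw [bun, wop_append]
    rw [e0, toL_succ, ← List.append_assoc, rep_col A (i + s) r (l ++ toL s y') rest
      (by rw [List.length_append, toL_length, hl]) _ a' x']
    have e1 : ∀ (z : Tp N r) (a : Fin N), wop A (bun i r s) f
        (l ++ toL s y' ++ (toL r z ++ a :: rest)) =
        ∑ x : Tp N r, ∑ y : Tp N s, Zc A r s (y', z) (x, y) *
          f (l ++ (toL r x ++ (toL (s + 1) (y, a) ++ rest))) := by
      intro z a
      rw [List.append_assoc, rep_bun A i r s l (a :: rest) hl f y' z]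
      refine sum_congr rfl fun x _ => sum_congr rfl fun y _ => ?_
      rw [toL_succ]
    simp only [e1, sum_Tp_succ, mul_sum]
    calc ∑ z : Tp N r, ∑ a : Fin N, ∑ x : Tp N r, ∑ y : Tp N s, Xc A r (a', x') (z, a) *
          (Zc A r s (y', z) (x, y) * f (l ++ (toL r x ++ (toL (s + 1) (y, a) ++ rest))))
        = ∑ x : Tp N r, ∑ y : Tp N s, ∑ a : Fin N, ∑ z : Tp N r, Xc A r (a', x') (z, a) *
          (Zc A r s (y', z) (x, y) * f (l ++ (toL r x ++ (toL (s + 1) (y, a) ++ rest)))) := by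
          rw [sum_congr rfl fun z _ => sum_comm, sum_comm]
          refine sum_congr rfl fun x _ => ?_
          rw [sum_congr rfl fun z _ => sum_comm, sum_comm]
          refine sum_congr rfl fun y _ => ?_
          rw [sum_comm]
      _ = _ := by
          refine sum_congr rfl fun x _ => sum_congr rfl fun y _ => sum_congr rfl fun a _ => ?_
          have e2 : Zc A r (s + 1) ((y', a'), x') (x, (y, a)) =
              ∑ z : Tp N r, Xc A r (a', x') (z, a) * Zc A r s (y', z) (x, y) := rfl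
          rw [e2, sum_mul]
          exact sum_congr rfl fun z _ => by ring

/-! ### Braidings -/

theorem Xc_braid {u : ℂ} (hu : Gen u) (N : ℕ) : ∀ r,
    Xc (Rh u (irr (u ^ 2) N) (irr (u ^ 2) N)) r = Rh u (MM (u ^ 2) N r) (irr (u ^ 2) N)
  | 0 => by
    ext ⟨a, x⟩ ⟨y, b⟩
    have h : Rh u (MM (u ^ 2) N 0) (irr (u ^ 2) N) (a, x) (y, b) =
        R u triv (irr (u ^ 2) N) (x, a) (y, b) := rfl
    rw [h, R_triv_left]
    change (if a = b then (1 : ℂ) else 0) = _
    by_cases hab : a = b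
    · rw [if_pos hab, hab]
      exact (one_apply_eq _).symm
    · rw [if_neg hab, one_apply_ne]
      intro h
      exact hab (congrArg Prod.snd h)
  | r + 1 => by
    have hv := gen_v hu
    have ih := Xc_braid hu N r
    have h1 := Pool.Agent.H667J.taskHex1 u hu _ _ _ (MM (u ^ 2) N r) (irr (u ^ 2) N)
      (irr (u ^ 2) N) (MM_mod hv N r) (Pool.Agent.H345J.irr_mod hv N)
      (Pool.Agent.H345J.irr_mod hv N)
    ext ⟨a', ⟨x', b'⟩⟩ ⟨⟨x, b⟩, a⟩
    have e : Rh u (MM (u ^ 2) N (r + 1)) (irr (u ^ 2) N) (a', (x', b')) ((x, b), a) =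
        Rh u (tens (u ^ 2) (MM (u ^ 2) N r) (irr (u ^ 2) N)) (irr (u ^ 2) N) (a', (x', b'))
          ((x, b), a) := rfl
    rw [e, h1]
    change ∑ m : Fin N, Xc (Rh u (irr (u ^ 2) N) (irr (u ^ 2) N)) r (a', x') (x, m) *
      Rh u (irr (u ^ 2) N) (irr (u ^ 2) N) (m, b') (b, a) = _
    rw [ih]

theorem Zc_braid {u : ℂ} (hu : Gen u) (N r : ℕ) : ∀ s,
    Zc (Rh u (irr (u ^ 2) N) (irr (u ^ 2) N)) r s = Rh u (MM (u ^ 2) N r) (MM (u ^ 2) N s)
  | 0 => by
    ext ⟨y, x⟩ ⟨x', y'⟩
    have h : Rh u (MM (u ^ 2) N r) (MM (u ^ 2) N 0) (y, x) (x', y') =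
        R u (MM (u ^ 2) N r) triv (x, y) (x', y') := rfl
    rw [h, R_triv_right]
    change (if x = x' then (1 : ℂ) else 0) = _
    by_cases hab : x = x'
    · rw [if_pos hab, hab]
      exact (one_apply_eq _).symm
    · rw [if_neg hab, one_apply_ne]
      intro h
      exact hab (congrArg Prod.fst h)
  | s + 1 => by
    have hv := gen_v hu
    have ih := Zc_braid hu N r s
    have h1 := Pool.Agent.H667J.taskHex2 u hu _ _ _ (MM (u ^ 2) N s) (irr (u ^ 2) N)
      (MM (u ^ 2) N r) (MM_mod hv N s) (Pool.Agent.H345J.irr_mod hv N) (MM_mod hv N r)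
    ext ⟨⟨y', a'⟩, x'⟩ ⟨x, ⟨y, a⟩⟩
    have e : Rh u (MM (u ^ 2) N r) (MM (u ^ 2) N (s + 1)) ((y', a'), x') (x, (y, a)) =
        Rh u (MM (u ^ 2) N r) (tens (u ^ 2) (MM (u ^ 2) N s) (irr (u ^ 2) N)) ((y', a'), x')
          (x, (y, a)) := rfl
    rw [e, h1]
    change ∑ z : Tp N r, Xc (Rh u (irr (u ^ 2) N) (irr (u ^ 2) N)) r (a', x') (z, a) *
      Zc (Rh u (irr (u ^ 2) N) (irr (u ^ 2) N)) r s (y', z) (x, y) = _
    rw [ih, Xc_braid hu N r]

end Pool.Agent.Q191.LB
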