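import Pool.Agent.Q191.LB.Lim
import Pool.Agent.Q191.FT.Lob3
import Pool.Agent.W305.VC.Pot

/-!
# Concavity and the constants
-/

set_option autoImplicit false

namespace Pool.Agent.Q191.LB

open Finset Filter Topology
open GapVol (lob)
open Pool.Agent.W715.VC (rt)
open Pool.Agent.H550R3.Jones (br brf)
open Pool.Agent.W709.QAT (lob_pi_sub lob_max Fa)
open EvenVol.LobIneq (lob_per lob_neg)
open Pool.Agent.Q191.FT
open scoped Real

theorem lob_concave : ConcaveOn ℝ (Set.Icc 0 (π / 2)) lob := by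
  have hpi := Real.pi_pos
  have hd : ∀ x ∈ interior (Set.Icc (0 : ℝ) (π / 2)), HasDerivAt lob (-Real.log (2 * Real.sin x)) x := by
    intro x hx
    rw [interior_Icc] at hx
    exact Pool.Agent.W120.VC.lob_deriv hx.1 (by linarith [hx.2])
  refine AntitoneOn.concaveOn_of_deriv (convex_Icc _ _) GapVol.lob_cont.continuousOn
    (fun x hx => (hd x hx).differentiableAt.differentiableWithinAt) ?_
  intro x hx y hy hxy
  rw [(hd x hx).deriv, (hd y hy).deriv]
  rw [interior_Icc] at hx hy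
  have hs : 0 < Real.sin x := Real.sin_pos_of_pos_of_lt_pi hx.1 (by linarith [hx.2])
  have h1 : Real.sin x ≤ Real.sin y :=
    Real.sin_le_sin_of_le_of_le_pi_div_two (by linarith [hx.1]) (by linarith [hy.2]) hxy
  have := Real.log_le_log (by positivity : 0 < 2 * Real.sin x) (by linarith : 2 * Real.sin x ≤ 2 * Real.sin y)
  linarith

/-- the inequality for one strand -/
theorem lob_strand {x y : ℝ} (hx : 0 ≤ x) (hy : 0 ≤ y) (h : x + y ≤ π) :
    lob x + lob y - lob (x + y) ≤ 2 * lob (y / 2) := by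
  have h1 := lob_conc' (x := x) (y := π - (x + y)) hx (by linarith) (by linarith)
  rw [lob_pi_sub] at h1
  have h2 := Pool.Agent.W305.VC.lob_two_mul (y / 2)
  have e1 : 2 * (y / 2) = y := by ring
  rw [e1] at h2
  have e2 : (x + (π - (x + y))) / 2 = -(y / 2 - π / 2) := by ring
  have e3 : y / 2 + π / 2 = (y / 2 - π / 2) + π := by ring
  rw [e2, lob_neg] at h1
  rw [e3, lob_per] at h2
  linarith

/-- the induction step of the concavity estimate -/
theorem conc_step (k : ℕ) {a b : ℝ} (ha : 0 ≤ a) (hb : 0 ≤ b) (hak : a ≤ k * π) (hbπ : b ≤ π) :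
    2 * k * lob (a / (2 * k)) + 2 * lob (b / 2) ≤
      2 * ((k + 1 : ℕ) : ℝ) * lob ((a + b) / (2 * ((k + 1 : ℕ) : ℝ))) := by
  have hpi := Real.pi_pos
  rcases Nat.eq_zero_or_pos k with hk | hk
  · subst hk
    have ha0 : a = 0 := le_antisymm (by simpa using hak) ha
    subst ha0
    simp
  · have hkR : (0 : ℝ) < k := by exact_mod_cast hk
    have h1 : a / (2 * k) ∈ Set.Icc (0 : ℝ) (π / 2) := by
      constructor
      · positivity
      · rw [div_le_div_iff₀ (by positivity) (by norm_num)]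
        nlinarith
    have h2 : b / 2 ∈ Set.Icc (0 : ℝ) (π / 2) := ⟨by positivity, by linarith⟩
    have h := lob_concave.2 h1 h2 (show (0 : ℝ) ≤ k / (k + 1) by positivity)
      (show (0 : ℝ) ≤ 1 / (k + 1) by positivity)
      (show (k : ℝ) / (k + 1) + 1 / (k + 1) = 1 by field_simp)
    rw [smul_eq_mul, smul_eq_mul, smul_eq_mul, smul_eq_mul] at h
    have e1 : (k : ℝ) / (k + 1) * (a / (2 * k)) + 1 / (k + 1) * (b / 2) =
        (a + b) / (2 * ((k + 1 : ℕ) : ℝ)) := by
      push_cast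
      field_simp
    rw [e1] at h
    have h3 : 2 * ((k + 1 : ℕ) : ℝ) * ((k : ℝ) / (k + 1) * lob (a / (2 * k)) +
        1 / (k + 1) * lob (b / 2)) ≤ 2 * ((k + 1 : ℕ) : ℝ) * lob ((a + b) / (2 * ((k + 1 : ℕ) : ℝ))) :=
      mul_le_mul_of_nonneg_left h (by positivity)
    refine le_trans (le_of_eq ?_) h3
    push_cast
    field_simp

/-! ### The constants -/

/-- the potential of a bundle crossing -/
noncomputable def pot (r s : ℕ) (t : ℝ) : ℝ :=
  2 * (2 * r * lob (t / (2 * r)) + 2 * s * lob (t / (2 * s)) - lob t)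

/-- the cost of a bundle crossing -/
noncomputable def cst (r s : ℕ) : ℝ := ⨆ t : Set.Icc (0 : ℝ) π, pot r s t

theorem neg_lob_le (t : ℝ) : -lob t ≤ lob (π / 6) := by
  rw [← lob_neg]
  exact lob_max _

theorem pot_bdd (r s : ℕ) : BddAbove (Set.range fun t : Set.Icc (0 : ℝ) π => pot r s t) := by
  refine ⟨2 * (2 * r * lob (π / 6) + 2 * s * lob (π / 6) + lob (π / 6)), ?_⟩
  rintro _ ⟨t, rfl⟩
  have h1 := lob_max ((t : ℝ) / (2 * r))
  have h2 := lob_max ((t : ℝ) / (2 * s))
  have h3 := neg_lob_le (t : ℝ)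
  have hr : (0 : ℝ) ≤ r := Nat.cast_nonneg r
  have hs : (0 : ℝ) ≤ s := Nat.cast_nonneg s
  have h4 : 2 * r * lob ((t : ℝ) / (2 * r)) ≤ 2 * r * lob (π / 6) := by gcongr
  have h5 : 2 * s * lob ((t : ℝ) / (2 * s)) ≤ 2 * s * lob (π / 6) := by gcongr
  change 2 * (2 * r * lob ((t : ℝ) / (2 * r)) + 2 * s * lob ((t : ℝ) / (2 * s)) - lob t) ≤ _
  linarith

theorem pot_le (r s : ℕ) {t : ℝ} (h0 : 0 ≤ t) (h1 : t ≤ π) : pot r s t ≤ cst r s :=
  le_ciSup (pot_bdd r s) ⟨t, h0, h1⟩

theorem pot_symm (r s : ℕ) (t : ℝ) : pot r s t = pot s r t := by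
  unfold pot; ring

theorem cst_symm (r s : ℕ) : cst r s = cst s r := by
  unfold cst
  congr 1
  funext t
  exact pot_symm r s t

theorem cst_nonneg (r s : ℕ) : 0 ≤ cst r s := by
  have h := pot_le r s (t := 0) le_rfl Real.pi_pos.le
  have e : pot r s 0 = 0 := by
    unfold pot
    rw [zero_div, zero_div, GapVol.lob_zero]
    ring
  rwa [e] at h

theorem cst_one : cst 1 1 = 8 * lob (π / 4) := by
  have hpi := Real.pi_pos
  have key : ∀ t, pot 1 1 t = 4 * (lob (t / 2) + lob (π / 2 - t / 2)) := by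
    intro t
    have h2 := Pool.Agent.W305.VC.lob_two_mul (t / 2)
    have e1 : 2 * (t / 2) = t := by ring
    have e3 : t / 2 + π / 2 = -(π / 2 - t / 2) + π := by ring
    rw [e1, e3, lob_per, lob_neg] at h2
    unfold pot
    rw [h2]
    push_cast
    rw [mul_one]
    ring
  apply le_antisymm
  · have : Nonempty (Set.Icc (0 : ℝ) π) := ⟨⟨0, le_rfl, hpi.le⟩⟩
    refine ciSup_le ?_
    rintro ⟨t, ht0, ht1⟩
    change pot 1 1 t ≤ _
    rw [key]
    have h := lob_conc' (x := t / 2) (y := π / 2 - t / 2) (by linarith) (by linarith) (by linarith)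
    have e : (t / 2 + (π / 2 - t / 2)) / 2 = π / 4 := by ring
    rw [e] at h
    linarith
  · have h := pot_le 1 1 (t := π / 2) (by positivity) (by linarith)
    rw [key] at h
    have e1 : π / 2 / 2 = π / 4 := by ring
    have e2 : π / 2 - π / 4 = π / 4 := by ring
    rw [e1, e2] at h
    linarith

theorem lob_le_log {x : ℝ} (h0 : 0 < x) (h1 : x ≤ π / 2) : lob x ≤ x * (1 - Real.log (4 * x / π)) := by
  have hpi := Real.pi_pos
  set φ : ℝ → ℝ := fun x => x - π / 4 * (4 * x / π * Real.log (4 * x / π)) - lob x with hφ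
  have hcont : ContinuousOn φ (Set.Icc 0 (π / 2)) := by
    have h2 : Continuous fun x : ℝ => 4 * x / π * Real.log (4 * x / π) :=
      Real.continuous_mul_log.comp (by fun_prop : Continuous fun x : ℝ => 4 * x / π)
    exact ((continuous_id.sub (h2.const_mul _)).sub GapVol.lob_cont).continuousOn
  have hder : ∀ y ∈ interior (Set.Icc (0 : ℝ) (π / 2)), HasDerivAt φ
      (Real.log (2 * Real.sin y) - Real.log (4 * y / π)) y := by
    intro y hy
    rw [interior_Icc] at hy
    have hy0 : 4 * y / π ≠ 0 := by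
      have := hy.1
      positivity
    have d1 : HasDerivAt (fun y : ℝ => 4 * y / π) (4 / π) y := by
      have := ((hasDerivAt_id y).const_mul 4).div_const π
      simpa using this
    have d2 := (d1.mul (d1.log hy0)).const_mul (π / 4)
    have d3 := ((hasDerivAt_id y).sub d2).sub
      (Pool.Agent.W120.VC.lob_deriv hy.1 (by linarith [hy.2]))
    refine d3.congr_deriv ?_
    have := hy.1
    field_simp
    ring
  have hmono : MonotoneOn φ (Set.Icc 0 (π / 2)) := by
    refine monotoneOn_of_deriv_nonneg (convex_Icc _ _) hcont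
      (fun y hy => (hder y hy).differentiableAt.differentiableWithinAt) ?_
    intro y hy
    rw [(hder y hy).deriv]
    rw [interior_Icc] at hy
    have h2 := Real.mul_le_sin (x := y) hy.1.le hy.2.le
    have h3 : 4 * y / π ≤ 2 * Real.sin y := by
      have e : 4 * y / π = 2 * (2 / π * y) := by ring
      rw [e]
      linarith
    have := Real.log_le_log (by have := hy.1; positivity) h3
    linarith
  have h2 := hmono ⟨le_rfl, by positivity⟩ ⟨h0.le, h1⟩ h0.le
  have e0 : φ 0 = 0 := by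
    simp [hφ, GapVol.lob_zero]
  rw [e0] at h2
  have e1 : π / 4 * (4 * x / π * Real.log (4 * x / π)) = x * Real.log (4 * x / π) := by
    field_simp
  simp only [hφ, e1] at h2
  linarith

theorem lob_bundle {r : ℕ} (hr : 1 ≤ r) {t : ℝ} (h0 : 0 < t) (h1 : t ≤ π) :
    2 * r * lob (t / (2 * r)) ≤ t * Real.log r + π / 2 := by
  have hpi := Real.pi_pos
  have hrR : (1 : ℝ) ≤ r := by exact_mod_cast hr
  have h2 : t / (2 * r) ≤ π / 2 := by
    rw [div_le_div_iff₀ (by positivity) (by norm_num)]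
    nlinarith
  have h3 := lob_le_log (x := t / (2 * r)) (by positivity) h2
  have e1 : 4 * (t / (2 * r)) / π = (r * (π / (2 * t)))⁻¹ := by
    field_simp
    norm_num
  rw [e1, Real.log_inv, Real.log_mul (by positivity) (by positivity)] at h3
  have h4 : Real.log (π / (2 * t)) ≤ π / (2 * t) - 1 := Real.log_le_sub_one_of_pos (by positivity)
  have h5 : 2 * r * lob (t / (2 * r)) ≤ 2 * r * (t / (2 * r) *
      (1 - -(Real.log r + Real.log (π / (2 * t))))) := by
    exact mul_le_mul_of_nonneg_left h3 (by positivity)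
  have e2 : 2 * r * (t / (2 * r) * (1 - -(Real.log r + Real.log (π / (2 * t))))) =
      t * Real.log r + t * (1 + Real.log (π / (2 * t))) := by
    field_simp
    ring
  rw [e2] at h5
  have h6 : t * (1 + Real.log (π / (2 * t))) ≤ t * (π / (2 * t)) :=
    mul_le_mul_of_nonneg_left (by linarith) h0.le
  have e3 : t * (π / (2 * t)) = π / 2 := by field_simp
  linarith

/-- the cost of a bundle crossing is logarithmic -/
theorem cst_le {r s : ℕ} (hr : 1 ≤ r) (hs : 1 ≤ s) :
    cst r s ≤ 2 * π * Real.log (r * s) + 2 * π + 3 * lob (π / 3) := by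
  have hpi := Real.pi_pos
  have hrR : (1 : ℝ) ≤ r := by exact_mod_cast hr
  have hsR : (1 : ℝ) ≤ s := by exact_mod_cast hs
  have : Nonempty (Set.Icc (0 : ℝ) π) := ⟨⟨0, le_rfl, hpi.le⟩⟩
  refine ciSup_le ?_
  rintro ⟨t, ht0, ht1⟩
  change pot r s t ≤ _
  have hlr := Real.log_nonneg hrR
  have hls := Real.log_nonneg hsR
  rw [Real.log_mul (by positivity) (by positivity), GapVol.lob_dup]
  have h6 := EvenVol.LobIneq.lob_six_pos
  have h7 := neg_lob_le t
  rcases eq_or_lt_of_le ht0 with h | h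
  · rw [← h]
    unfold pot
    rw [zero_div, zero_div, GapVol.lob_zero]
    have : 0 ≤ 2 * π * (Real.log r + Real.log s) := by positivity
    linarith
  · have h1 := lob_bundle hr h ht1
    have h2 := lob_bundle hs h ht1
    have h3 : t * Real.log r ≤ π * Real.log r := by gcongr
    have h4 : t * Real.log s ≤ π * Real.log s := by gcongr
    unfold pot
    linarith

/-! ### The bounds at the root of unity -/

theorem qb_rt (ε : ℝ) (hε : 0 < ε) : ∀ᶠ N : ℕ in atTop, ∀ a n : ℕ, a + n < N →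
    qb (rt N) a n ≤ Real.exp (N * (2 * lob (π * n / N / 2) / π + ε)) := by
  have hpi := Real.pi_pos
  filter_upwards [Pool.Agent.W563.QAT.lb (ε / 3) (by positivity), eventually_gt_atTop 0] with
    N hN hN0 a n han
  have hNR : (0 : ℝ) < N := by exact_mod_cast hN0
  obtain ⟨p1, b1⟩ := hN a (by omega)
  obtain ⟨p2, b2⟩ := hN n (by omega)
  obtain ⟨p3, b3⟩ := hN (a + n) han
  have h1 := abs_le.1 b1
  have h2 := abs_le.1 b2
  have h3 := abs_le.1 b3
  have hq : qb (rt N) a n = Fa N (a + n) / (Fa N a * Fa N n) := rfl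
  have hs := lob_strand (x := π * a / N) (y := π * n / N) (by positivity) (by positivity) (by
    rw [← add_div, ← mul_add, div_le_iff₀ hNR]
    have : ((a : ℝ) + n) ≤ N := by exact_mod_cast han.le
    nlinarith)
  rw [hq, ← Real.exp_log (div_pos p3 (mul_pos p1 p2)), Real.exp_le_exp,
    Real.log_div p3.ne' (mul_pos p1 p2).ne', Real.log_mul p1.ne' p2.ne']
  have e : π * ((a + n : ℕ) : ℝ) / N = π * a / N + π * n / N := by
    push_cast
    ring
  rw [e] at h3
  have h4 : N / π * (lob (π * a / N) + lob (π * n / N) - lob (π * a / N + π * n / N)) ≤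
      N / π * (2 * lob (π * n / N / 2)) := mul_le_mul_of_nonneg_left hs (by positivity)
  have e2 : N * (2 * lob (π * n / N / 2) / π + ε) = N / π * (2 * lob (π * n / N / 2)) + ε * N := by
    ring
  rw [e2]
  nlinarith [h1.1, h1.2, h2.1, h2.2, h3.1, h3.2]

theorem phE_ne {v : ℂ} {N : ℕ} : ∀ k (x y : Tp N k), phE v N k x y ≠ 0 →
    ds k x ≤ ds k y ∧ ds k y - ds k x ≤ k * N
  | 0, _, _ => fun _ => ⟨le_rfl, by change 0 - 0 ≤ 0 * N; omega⟩
  | k + 1, x, y => fun h => by
    have h1 := phE_ne k x.1 y.1 (left_ne_zero_of_mul h)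
    have h2 : fE v N x.2 y.2 ≠ 0 := right_ne_zero_of_mul h
    have h3 : ((x.2 : Fin N) : ℕ) ≤ (y.2 : Fin N) := by
      by_contra h4
      exact h2 (if_neg h4)
    have h4 := (y.2 : Fin N).2
    change ds k x.1 + ((x.2 : Fin N) : ℕ) ≤ ds k y.1 + ((y.2 : Fin N) : ℕ) ∧
      ds k y.1 + ((y.2 : Fin N) : ℕ) - (ds k x.1 + ((x.2 : Fin N) : ℕ)) ≤ (k + 1) * N
    rw [add_mul, one_mul]
    omega

theorem phF_ne {v : ℂ} {N : ℕ} : ∀ k (x y : Tp N k), phF v N k x y ≠ 0 →
    ds k y ≤ ds k x ∧ ds k x - ds k y ≤ k * N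
  | 0, _, _ => fun _ => ⟨le_rfl, by change 0 - 0 ≤ 0 * N; omega⟩
  | k + 1, x, y => fun h => by
    have h1 := phF_ne k x.1 y.1 (left_ne_zero_of_mul h)
    have h2 : fF v N x.2 y.2 ≠ 0 := right_ne_zero_of_mul h
    have h3 : ((y.2 : Fin N) : ℕ) ≤ (x.2 : Fin N) := by
      by_contra h4
      exact h2 (if_neg h4)
    have h4 := (x.2 : Fin N).2
    change ds k y.1 + ((y.2 : Fin N) : ℕ) ≤ ds k x.1 + ((x.2 : Fin N) : ℕ) ∧
      ds k x.1 + ((x.2 : Fin N) : ℕ) - (ds k y.1 + ((y.2 : Fin N) : ℕ)) ≤ (k + 1) * N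
    rw [add_mul, one_mul]
    omega

/-- the exponent of `k` strands -/
noncomputable def ee (N k d : ℕ) (ε : ℝ) : ℝ := N * (2 * k * lob (π * d / N / (2 * k)) / π + k * ε)

theorem ee_step {N k d d' : ℕ} (hN : 0 < N) {ε : ℝ} (hd : d ≤ k * N) (hd' : d' ≤ N) :
    ee N k d ε + N * (2 * lob (π * d' / N / 2) / π + ε) ≤ ee N (k + 1) (d + d') ε := by
  have hpi := Real.pi_pos
  have hNR : (0 : ℝ) < N := by exact_mod_cast hN
  have hdR : (d : ℝ) ≤ k * N := by exact_mod_cast hd
  have hdR' : (d' : ℝ) ≤ N := by exact_mod_cast hd'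
  have h := conc_step k (a := π * d / N) (b := π * d' / N) (by positivity) (by positivity)
    (by rw [div_le_iff₀ hNR]; nlinarith) (by rw [div_le_iff₀ hNR]; nlinarith)
  have e1 : π * ((d + d' : ℕ) : ℝ) / N = π * d / N + π * d' / N := by push_cast; ring
  unfold ee
  rw [e1]
  have h2 := mul_le_mul_of_nonneg_left h (show 0 ≤ N / π by positivity)
  have e2 : N * (2 * k * lob (π * d / N / (2 * k)) / π + k * ε) +
      N * (2 * lob (π * d' / N / 2) / π + ε) =
      N / π * (2 * k * lob (π * d / N / (2 * k)) + 2 * lob (π * d' / N / 2)) +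
        N * (((k + 1 : ℕ) : ℝ) * ε) := by
    push_cast; ring
  have e3 : N * (2 * ((k + 1 : ℕ) : ℝ) * lob ((π * d / N + π * d' / N) / (2 * ((k + 1 : ℕ) : ℝ))) / π +
      ((k + 1 : ℕ) : ℝ) * ε) =
      N / π * (2 * ((k + 1 : ℕ) : ℝ) * lob ((π * d / N + π * d' / N) / (2 * ((k + 1 : ℕ) : ℝ)))) +
        N * (((k + 1 : ℕ) : ℝ) * ε) := by ring
  rw [e2, e3]
  linarith

theorem ph_rt (ε : ℝ) (hε : 0 < ε) : ∀ᶠ N : ℕ in atTop, ∀ (k : ℕ) (x y : Tp N k),
    phE (rt N) N k x y ≤ Real.exp (ee N k (ds k y - ds k x) ε) ∧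
    phF (rt N) N k x y ≤ Real.exp (ee N k (ds k x - ds k y) ε) := by
  filter_upwards [qb_rt ε hε, eventually_gt_atTop 0] with N hN hN0
  have hfE : ∀ i j : Fin N, (i : ℕ) ≤ j → fE (rt N) N i j ≤
      Real.exp (N * (2 * lob (π * ((j - i : ℕ) : ℝ) / N / 2) / π + ε)) := by
    intro i j hij
    unfold fE
    rw [if_pos hij]
    have h1 := i.2
    have h2 := j.2
    exact hN _ _ (by omega)
  have hfF : ∀ i j : Fin N, (j : ℕ) ≤ i → fF (rt N) N i j ≤
      Real.exp (N * (2 * lob (π * ((i - j : ℕ) : ℝ) / N / 2) / π + ε)) := by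
    intro i j hij
    unfold fF
    rw [if_pos hij]
    have h1 := i.2
    have h2 := j.2
    exact hN _ _ (by omega)
  intro k
  induction k with
  | zero =>
    intro x y
    have e : ee N 0 0 ε = 0 := by simp [ee]
    constructor
    · change (1 : ℝ) ≤ Real.exp (ee N 0 (0 - 0) ε)
      rw [Nat.sub_zero, e, Real.exp_zero]
    · change (1 : ℝ) ≤ Real.exp (ee N 0 (0 - 0) ε)
      rw [Nat.sub_zero, e, Real.exp_zero]
  | succ k ih =>
    intro x y
    constructor
    · by_cases h0 : phE (rt N) N (k + 1) x y = 0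
      · rw [h0]; exact (Real.exp_pos _).le
      · have h1 := phE_ne k x.1 y.1 (left_ne_zero_of_mul h0)
        have h2 : fE (rt N) N x.2 y.2 ≠ 0 := right_ne_zero_of_mul h0
        have h3 : ((x.2 : Fin N) : ℕ) ≤ (y.2 : Fin N) := by
          by_contra h4
          exact h2 (if_neg h4)
        have h4 := (y.2 : Fin N).2
        have e1 : ds (k + 1) y - ds (k + 1) x = (ds k y.1 - ds k x.1) +
            (((y.2 : Fin N) : ℕ) - ((x.2 : Fin N) : ℕ)) := by
          change ds k y.1 + ((y.2 : Fin N) : ℕ) - (ds k x.1 + ((x.2 : Fin N) : ℕ)) = _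
          omega
        rw [e1]
        have h5 := ee_step (ε := ε) hN0 h1.2
          (show ((y.2 : Fin N) : ℕ) - ((x.2 : Fin N) : ℕ) ≤ N by omega)
        refine le_trans ?_ (Real.exp_le_exp.2 h5)
        rw [Real.exp_add]
        exact mul_le_mul (ih x.1 y.1).1 (hfE _ _ h3) (fE_nonneg _ _ _ _) (Real.exp_pos _).le
    · by_cases h0 : phF (rt N) N (k + 1) x y = 0
      · rw [h0]; exact (Real.exp_pos _).le
      · have h1 := phF_ne k x.1 y.1 (left_ne_zero_of_mul h0)
        have h2 : fF (rt N) N x.2 y.2 ≠ 0 := right_ne_zero_of_mul h0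
        have h3 : ((y.2 : Fin N) : ℕ) ≤ (x.2 : Fin N) := by
          by_contra h4
          exact h2 (if_neg h4)
        have h4 := (x.2 : Fin N).2
        have e1 : ds (k + 1) x - ds (k + 1) y = (ds k x.1 - ds k y.1) +
            (((x.2 : Fin N) : ℕ) - ((y.2 : Fin N) : ℕ)) := by
          change ds k x.1 + ((x.2 : Fin N) : ℕ) - (ds k y.1 + ((y.2 : Fin N) : ℕ)) = _
          omega
        rw [e1]
        have h5 := ee_step (ε := ε) hN0 h1.2
          (show ((x.2 : Fin N) : ℕ) - ((y.2 : Fin N) : ℕ) ≤ N by omega)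
        refine le_trans ?_ (Real.exp_le_exp.2 h5)
        rw [Real.exp_add]
        exact mul_le_mul (ih x.1 y.1).2 (hfF _ _ h3) (fF_nonneg _ _ _ _) (Real.exp_pos _).le

theorem brf_rt_zero {N n : ℕ} (hN : 0 < N) (h : N ≤ n) : brf (rt N) n = 0 := by
  unfold brf
  rw [Finset.prod_eq_zero_iff]
  refine ⟨N - 1, Finset.mem_range.2 (by omega), ?_⟩
  have h1 := Pool.Agent.W715.VC.br_N hN
  have e : (((N - 1 : ℕ) : ℤ) + 1) = N := by omega
  rw [e]
  exact h1

/-- the bound of the entries of a bundle crossing -/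
theorem bdp_rt (ε : ℝ) (hε : 0 < ε) : ∀ᶠ N : ℕ in atTop, ∀ (r s : ℕ) (y' : Tp N s) (x' x : Tp N r)
    (y : Tp N s), bdp (rt N) N r s y' x' x y ≤
      Real.exp (N * (cst r s / (2 * π) + (r + s + 1) * ε)) := by
  have hpi := Real.pi_pos
  filter_upwards [ph_rt ε hε, Pool.Agent.W563.QAT.lb ε hε, eventually_gt_atTop 0] with
    N hph hlb hN0 r s y' x' x y
  have hNR : (0 : ℝ) < N := by exact_mod_cast hN0
  unfold bdp
  split_ifs with hc
  swap
  · exact (Real.exp_pos _).le
  by_cases h0 : phE (rt N) N r x' x = 0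
  · rw [h0, zero_mul, zero_mul]; exact (Real.exp_pos _).le
  by_cases h0' : phF (rt N) N s y' y = 0
  · rw [h0', mul_zero, zero_mul]; exact (Real.exp_pos _).le
  have h1 := phE_ne r x' x h0
  have h2 := phF_ne s y' y h0'
  set n : ℕ := ds r x - ds r x' with hn
  have hn' : ds s y' - ds s y = n := by omega
  rcases Nat.lt_or_ge n N with hnN | hnN
  swap
  · rw [brf_rt_zero hN0 hnN, norm_zero, mul_zero]; exact (Real.exp_pos _).le
  have b1 := (hph r x' x).1
  have b2 := (hph s y' y).2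
  rw [hn'] at b2
  obtain ⟨p3, b3⟩ := hlb n hnN
  have b4 : ‖brf (rt N) n‖ ≤ Real.exp (-(N / π * lob (π * n / N)) + ε * N) := by
    have h3 := (abs_le.1 b3).2
    have e : ‖brf (rt N) n‖ = Fa N n := rfl
    rw [e, ← Real.exp_log p3, Real.exp_le_exp]
    linarith
  calc phE (rt N) N r x' x * phF (rt N) N s y' y * ‖brf (rt N) n‖
      ≤ Real.exp (ee N r n ε) * Real.exp (ee N s n ε) *
        Real.exp (-(N / π * lob (π * n / N)) + ε * N) := by
        have := phE_nonneg (rt N) N r x' x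
        have := phF_nonneg (rt N) N s y' y
        gcongr
    _ ≤ _ := by
        rw [← Real.exp_add, ← Real.exp_add, Real.exp_le_exp]
        have hp := pot_le r s (t := π * n / N) (by positivity) (by
          rw [div_le_iff₀ hNR]
          have : (n : ℝ) ≤ N := by exact_mod_cast hnN.le
          nlinarith)
        have h5 := mul_le_mul_of_nonneg_left hp (show 0 ≤ N / (2 * π) by positivity)
        have e1 : N * (cst r s / (2 * π) + (r + s + 1) * ε) =
            N / (2 * π) * cst r s + N * ((r + s + 1) * ε) := by ring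
        rw [e1]
        refine le_trans (le_of_eq ?_) (add_le_add_left h5 _)
        unfold ee pot
        field_simp
        ring

end Pool.Agent.Q191.LB
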