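import Pool.Agent.Q191.FT.Ent

/-!
# Divided differences at the eigenvalues of the Casimir operator
-/

set_option autoImplicit false

namespace Pool.Agent.Q191.LB

open Finset
open Pool.Agent.H550R3.Jones (Gen br brf)
open Pool.Agent.H897R.J (gen_v)
open Pool.Agent.Q191.FT

/-- divided difference of the values `f 0, …, f l` at the nodes `ν 0, …, ν l` -/
noncomputable def ddn (ν f : ℕ → ℂ) (l : ℕ) : ℂ := ∑ i ∈ range (l + 1), f i * (Dn ν i l)⁻¹

theorem Dn_shift (ν : ℕ → ℂ) (i l : ℕ) :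
    Dn ν (i + 1) (l + 1) = (ν (i + 1) - ν 0) * Dn (fun j => ν (j + 1)) i l := by
  unfold Dn
  have h : (range (l + 1 + 1)).erase (i + 1) =
      insert 0 (((range (l + 1)).erase i).map ⟨fun j => j + 1, add_left_injective 1⟩) := by
    ext j
    simp only [mem_erase, mem_range, mem_insert, mem_map, Function.Embedding.coeFn_mk]
    constructor
    · rintro ⟨h1, h2⟩
      rcases j with _ | j
      · exact Or.inl rfl
      · exact Or.inr ⟨j, ⟨by omega, by omega⟩, rfl⟩
    · rintro (h | ⟨a, ⟨h1, h2⟩, h3⟩)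
      · omega
      · omega
  rw [h, prod_insert (by simp), prod_map]
  rfl

theorem ddn_zero (ν f : ℕ → ℂ) : ddn ν f 0 = f 0 := by
  unfold ddn
  rw [sum_range_one]
  have : Dn ν 0 0 = 1 := by simp [Dn]
  rw [this, inv_one, mul_one]

/-- the recursion -/
theorem ddn_succ {ν : ℕ → ℂ} (hν : Function.Injective ν) (f : ℕ → ℂ) (l : ℕ) :
    ddn ν f (l + 1) * (ν (l + 1) - ν 0) =
      ddn (fun j => ν (j + 1)) (fun j => f (j + 1)) l - ddn ν f l := by
  have hD : ∀ i, i ≤ l + 1 → Dn ν i (l + 1) ≠ 0 := fun i hi => Dn_ne (L := l + 1) hν.injOn hi le_rfl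
  have e1 : ddn (fun j => ν (j + 1)) (fun j => f (j + 1)) l =
      ∑ i ∈ range (l + 1 + 1), f i * (Dn ν i (l + 1))⁻¹ * (ν i - ν 0) := by
    rw [sum_range_succ', sub_self, mul_zero, add_zero]
    unfold ddn
    refine sum_congr rfl fun i hi => ?_
    rw [mem_range] at hi
    have h := hD (i + 1) (by omega)
    rw [Dn_shift] at h ⊢
    have h1 := left_ne_zero_of_mul h
    have h2 := right_ne_zero_of_mul h
    field_simp
  have e2 : ddn ν f l = ∑ i ∈ range (l + 1 + 1), f i * (Dn ν i (l + 1))⁻¹ * (ν i - ν (l + 1)) := by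
    rw [sum_range_succ, sub_self, mul_zero, add_zero]
    unfold ddn
    refine sum_congr rfl fun i hi => ?_
    rw [mem_range] at hi
    have h := hD i (by omega)
    rw [Dn_succ (by omega)] at h ⊢
    have h1 := left_ne_zero_of_mul h
    have h2 := right_ne_zero_of_mul h
    field_simp
  rw [e1, e2, ← sum_sub_distrib]
  unfold ddn
  rw [sum_mul]
  exact sum_congr rfl fun i _ => by ring

/-- the Leibniz rule -/
theorem ddn_mul : ∀ (L : ℕ) {ν : ℕ → ℂ}, Function.Injective ν → ∀ (f g : ℕ → ℂ),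
    ddn ν (fun i => f i * g i) L = ∑ l ∈ range (L + 1),
      ddn ν f l * ddn (fun j => ν (j + l)) (fun j => g (j + l)) (L - l)
  | 0, ν, _, f, g => by
    rw [sum_range_one, ddn_zero, ddn_zero, Nat.sub_self, ddn_zero]
  | L + 1, ν, hν, f, g => by
    have hν1 : Function.Injective fun j => ν (j + 1) := fun a b h => by
      have := hν h
      omega
    have hne : ν (L + 1) - ν 0 ≠ 0 := sub_ne_zero.2 fun h => by
      have := hν h
      omega
    apply mul_right_cancel₀ hne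
    rw [ddn_succ hν, ddn_mul L hν1, ddn_mul L hν, sum_mul]
    -- abbreviations
    set a : ℕ → ℂ := fun l => ddn ν f l with ha
    set b : ℕ → ℕ → ℂ := fun l j => ddn (fun i => ν (i + l)) (fun i => g (i + l)) j with hb
    have h1 : ∀ l, ddn (fun j => ν (j + 1)) (fun j => f (j + 1)) l =
        a l + a (l + 1) * (ν (l + 1) - ν 0) := by
      intro l
      have := ddn_succ hν f l
      simp only [ha]
      rw [this]
      ring
    have h2 : ∀ l j, b l (j + 1) * (ν (j + 1 + l) - ν l) = b (l + 1) j - b l j := by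
      intro l j
      have hνl : Function.Injective fun i => ν (i + l) := fun x y h => by
        have := hν h
        omega
      have := ddn_succ hνl (fun i => g (i + l)) j
      simp only [hb]
      rw [zero_add] at this
      rw [this]
      congr 2
      · funext i; congr 1; omega
      · funext i; congr 1; omega
    have e1 : ∑ l ∈ range (L + 1), ddn (fun j => ν (j + 1)) (fun j => f (j + 1)) l *
        ddn (fun j => (fun j => ν (j + 1)) (j + l)) (fun j => (fun j => g (j + 1)) (j + l)) (L - l) =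
        ∑ l ∈ range (L + 1), (a l + a (l + 1) * (ν (l + 1) - ν 0)) * b (l + 1) (L - l) := by
      refine sum_congr rfl fun l _ => ?_
      rw [h1 l]
      rfl
    rw [e1]
    have e2 : ∑ l ∈ range (L + 1), ddn ν f l * ddn (fun j => ν (j + l)) (fun j => g (j + l)) (L - l) =
        ∑ l ∈ range (L + 1), a l * b l (L - l) := rfl
    rw [e2, ← sum_sub_distrib]
    have e3 : ∑ l ∈ range (L + 1), ((a l + a (l + 1) * (ν (l + 1) - ν 0)) * b (l + 1) (L - l) -
        a l * b l (L - l)) = ∑ l ∈ range (L + 1), a l * (b l (L + 1 - l) * (ν (L + 1) - ν l)) +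
        ∑ l ∈ range (L + 1), a (l + 1) * (ν (l + 1) - ν 0) * b (l + 1) (L - l) := by
      rw [← sum_add_distrib]
      refine sum_congr rfl fun l hl => ?_
      rw [mem_range] at hl
      have h3 := h2 l (L - l)
      have e4 : L - l + 1 = L + 1 - l := by omega
      have e5 : L + 1 - l + l = L + 1 := by omega
      rw [e4, e5] at h3
      rw [h3]
      ring
    rw [e3]
    have e6 : ∑ l ∈ range (L + 1), a l * (b l (L + 1 - l) * (ν (L + 1) - ν l)) =
        ∑ l ∈ range (L + 1 + 1), a l * (b l (L + 1 - l) * (ν (L + 1) - ν l)) := by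
      rw [sum_range_succ _ (L + 1), sub_self, mul_zero, mul_zero, add_zero]
    have e7 : ∑ l ∈ range (L + 1), a (l + 1) * (ν (l + 1) - ν 0) * b (l + 1) (L - l) =
        ∑ l ∈ range (L + 1 + 1), a l * (ν l - ν 0) * b l (L + 1 - l) := by
      symm
      rw [sum_range_succ' _ (L + 1), sub_self, mul_zero, zero_mul, add_zero]
      refine sum_congr rfl fun l _ => ?_
      congr 2
      omega
    rw [e6, e7, ← sum_add_distrib]
    refine sum_congr rfl fun l _ => ?_
    simp only [ha, hb]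
    ring

/-! ### The eigenvalues of the Casimir operator -/

/-- divided difference at the nodes `λ_{μ + 1}, λ_{μ + 3}, …` -/
noncomputable def dd (f : ℤ → ℂ) (v : ℂ) (μ l : ℕ) : ℂ :=
  ddn (nu v μ) (fun i => f (μ + 1 + 2 * i)) l

theorem dd_zero (f : ℤ → ℂ) (v : ℂ) (μ : ℕ) : dd f v μ 0 = f (μ + 1) := by
  unfold dd
  rw [ddn_zero]
  congr 1

theorem nu_shift (v : ℂ) (μ l : ℕ) : (fun j => nu v μ (j + l)) = nu v ((μ + 2 * l : ℕ) : ℤ) := by
  funext j
  unfold nu
  congr 1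
  push_cast
  ring

theorem f_shift (f : ℤ → ℂ) (μ l : ℕ) : (fun j : ℕ => f ((μ : ℤ) + 1 + 2 * ((j + l : ℕ) : ℤ))) =
    fun j : ℕ => f (((μ + 2 * l : ℕ) : ℤ) + 1 + 2 * (j : ℤ)) := by
  funext j
  congr 1
  push_cast
  ring

theorem dd_succ {u : ℂ} (hu : Gen u) (f : ℤ → ℂ) (μ l : ℕ) :
    dd f (u ^ 2) μ (l + 1) * (br (u ^ 2) (μ + 2 + l) * br (u ^ 2) (l + 1)) =
      dd f (u ^ 2) (μ + 2) l - dd f (u ^ 2) μ l := by
  have h := ddn_succ (nu_inj hu (Int.natCast_nonneg μ)) (fun i => f (μ + 1 + 2 * i)) l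
  rw [nu_sub (gen_v hu)] at h
  have e1 : (μ : ℤ) + 1 + ((l + 1 : ℕ) : ℤ) + ((0 : ℕ) : ℤ) = μ + 2 + l := by push_cast; ring
  have e2 : ((l + 1 : ℕ) : ℤ) - ((0 : ℕ) : ℤ) = l + 1 := by push_cast; ring
  rw [e1, e2, nu_shift, f_shift] at h
  exact h

theorem dd_mul {u : ℂ} (hu : Gen u) (f g : ℤ → ℂ) (μ L : ℕ) :
    dd (fun c => f c * g c) (u ^ 2) μ L = ∑ l ∈ range (L + 1),
      dd f (u ^ 2) μ l * dd g (u ^ 2) (μ + 2 * l) (L - l) := by
  have h := ddn_mul L (nu_inj hu (Int.natCast_nonneg μ)) (fun i => f (μ + 1 + 2 * i))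
    (fun i => g (μ + 1 + 2 * i))
  refine h.trans (sum_congr rfl fun l _ => ?_)
  rw [nu_shift, f_shift]
  rfl

theorem dd_add (f g : ℤ → ℂ) (v : ℂ) (μ l : ℕ) :
    dd (fun c => f c + g c) v μ l = dd f v μ l + dd g v μ l := by
  unfold dd ddn
  rw [← sum_add_distrib]
  exact sum_congr rfl fun i _ => by ring

theorem dd_smul (a : ℂ) (f : ℤ → ℂ) (v : ℂ) (μ l : ℕ) :
    dd (fun c => a * f c) v μ l = a * dd f v μ l := by
  unfold dd ddn
  rw [mul_sum]
  exact sum_congr rfl fun i _ => by ring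

theorem dd_congr {f g : ℤ → ℂ} {v : ℂ} {μ : ℕ} (h : ∀ i : ℕ, f (μ + 1 + 2 * i) = g (μ + 1 + 2 * i))
    (l : ℕ) : dd f v μ l = dd g v μ l := by
  unfold dd ddn
  exact sum_congr rfl fun i _ => by beta_reduce; rw [h i]

/-! ### Quantum binomial coefficients -/

/-- quantum binomial coefficients -/
noncomputable def qq (v : ℂ) : ℕ → ℕ → ℂ
  | 0, _ => 1
  | _ + 1, 0 => 1
  | l + 1, j + 1 => v ^ ((j : ℤ) + 1) * qq v l (j + 1) + v ^ (-((l : ℤ) + 1)) * qq v (l + 1) j

theorem qq_brf {v : ℂ} (hv : v ≠ 0) : ∀ l j : ℕ, qq v l j * (brf v l * brf v j) = brf v (l + j)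
  | 0, j => by
    rw [qq, zero_add]
    have : brf v 0 = 1 := by simp [brf]
    rw [this, one_mul, one_mul]
  | l + 1, 0 => by
    rw [qq, add_zero]
    have : brf v 0 = 1 := by simp [brf]
    rw [this, one_mul, mul_one]
  | l + 1, j + 1 => by
    have h1 := qq_brf hv l (j + 1)
    have h2 := qq_brf hv (l + 1) j
    have e1 : l + 1 + (j + 1) = (l + (j + 1)) + 1 := by ring
    have e2 : l + (j + 1) = l + 1 + j := by ring
    rw [qq, e1, brf_succ' v (l + (j + 1))]
    have hb : br v (((l + (j + 1) : ℕ) : ℤ) + 1) = v ^ ((j : ℤ) + 1) * br v ((l : ℤ) + 1) +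
        v ^ (-((l : ℤ) + 1)) * br v ((j : ℤ) + 1) := by
      unfold br
      rw [mul_sub, mul_sub, ← zpow_add₀ hv, ← zpow_add₀ hv, ← zpow_add₀ hv, ← zpow_add₀ hv]
      have e3 : (((l + (j + 1) : ℕ) : ℤ) + 1) = (j : ℤ) + 1 + ((l : ℤ) + 1) := by push_cast; ring
      have e4 : -(((l + (j + 1) : ℕ) : ℤ) + 1) = -((l : ℤ) + 1) + -((j : ℤ) + 1) := by
        push_cast; ring
      rw [e4, e3]
      have e5 : (j : ℤ) + 1 + -((l : ℤ) + 1) = -((l : ℤ) + 1) + ((j : ℤ) + 1) := by ring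
      rw [e5]
      ring
    rw [hb, mul_add]
    have h3 := brf_succ' v l
    have h4 := brf_succ' v j
    have e6 : brf v (l + (j + 1)) * (v ^ ((j : ℤ) + 1) * br v ((l : ℤ) + 1)) =
        v ^ ((j : ℤ) + 1) * qq v l (j + 1) * (brf v (l + 1) * brf v (j + 1)) := by
      rw [← h1, h3]; ring
    have e7 : brf v (l + (j + 1)) * (v ^ (-((l : ℤ) + 1)) * br v ((j : ℤ) + 1)) =
        v ^ (-((l : ℤ) + 1)) * qq v (l + 1) j * (brf v (l + 1) * brf v (j + 1)) := by
      rw [e2, ← h2, h4]; ring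
    rw [e6, e7]
    ring

theorem qq_diff : ∀ l j : ℕ, DifferentiableOn ℂ (fun v => qq v l j) {0}ᶜ
  | 0, j => by simp only [qq]; exact differentiableOn_const _
  | l + 1, 0 => by simp only [qq]; exact differentiableOn_const _
  | l + 1, j + 1 => by
    simp only [qq]
    have hz : ∀ e : ℤ, DifferentiableOn ℂ (fun v : ℂ => v ^ e) {0}ᶜ := fun e v hv =>
      (differentiableAt_zpow.2 (Or.inl hv)).differentiableWithinAt
    exact ((hz _).mul (qq_diff l (j + 1))).add ((hz _).mul (qq_diff (l + 1) j))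

/-! ### Regular families -/

/-- the divided differences times the quantum factorials have no poles -/
def RegF (p : ℤ) (f : ℂ → ℤ → ℂ) : Prop :=
  ∀ μ : ℕ, (2 : ℤ) ∣ μ - p → ∀ l : ℕ, ∃ G : ℂ → ℂ, DifferentiableOn ℂ G {0}ᶜ ∧
    ∀ u : ℂ, Gen u → brf (u ^ 2) l * dd (f (u ^ 2)) (u ^ 2) μ l = G (u ^ 2)

theorem RegF.congr {p : ℤ} {f g : ℂ → ℤ → ℂ} (hf : RegF p f)
    (h : ∀ (u : ℂ), Gen u → ∀ c : ℤ, (2 : ℤ) ∣ c - (p + 1) → f (u ^ 2) c = g (u ^ 2) c) :
    RegF p g := by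
  intro μ hμ l
  obtain ⟨G, hG, hG2⟩ := hf μ hμ l
  refine ⟨G, hG, fun u hu => ?_⟩
  rw [← hG2 u hu]
  congr 1
  refine dd_congr (fun i => (h u hu _ ?_).symm) l
  obtain ⟨k, hk⟩ := hμ
  exact ⟨k + i, by linarith⟩

theorem RegF.mul {p : ℤ} {f g : ℂ → ℤ → ℂ} (hf : RegF p f) (hg : RegF p g) :
    RegF p (fun v c => f v c * g v c) := by
  intro μ hμ L
  choose F hF using fun l => hf μ hμ l
  have hp : ∀ l : ℕ, (2 : ℤ) ∣ ((μ + 2 * l : ℕ) : ℤ) - p := by
    intro l
    obtain ⟨k, hk⟩ := hμ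
    exact ⟨k + l, by push_cast; linarith⟩
  choose G hG using fun l => hg (μ + 2 * l) (hp l) (L - l)
  refine ⟨fun v => ∑ l ∈ range (L + 1), qq v l (L - l) * (F l v * G l v), ?_, ?_⟩
  · exact DifferentiableOn.fun_sum fun l _ => (qq_diff l (L - l)).mul ((hF l).1.mul (hG l).1)
  · intro u hu
    rw [dd_mul hu, mul_sum]
    refine sum_congr rfl fun l hl => ?_
    rw [mem_range] at hl
    rw [← (hF l).2 u hu, ← (hG l).2 u hu]
    have h := qq_brf (gen_v hu) l (L - l)
    have e : l + (L - l) = L := by omega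
    rw [e] at h
    rw [← h]
    ring

theorem RegF.add {p : ℤ} {f g : ℂ → ℤ → ℂ} (hf : RegF p f) (hg : RegF p g) :
    RegF p (fun v c => f v c + g v c) := by
  intro μ hμ l
  obtain ⟨F, hF, hF2⟩ := hf μ hμ l
  obtain ⟨G, hG, hG2⟩ := hg μ hμ l
  refine ⟨fun v => F v + G v, hF.add hG, fun u hu => ?_⟩
  rw [dd_add, mul_add, hF2 u hu, hG2 u hu]

theorem RegF.smul {p : ℤ} {f : ℂ → ℤ → ℂ} (hf : RegF p f) {a : ℂ → ℂ}
    (ha : DifferentiableOn ℂ a {0}ᶜ) : RegF p (fun v c => a v * f v c) := by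
  intro μ hμ l
  obtain ⟨F, hF, hF2⟩ := hf μ hμ l
  refine ⟨fun v => a v * F v, ha.mul hF, fun u hu => ?_⟩
  show _ = a (u ^ 2) * F (u ^ 2)
  rw [dd_smul, ← hF2 u hu]
  ring

theorem RegF.one (p : ℤ) : RegF p (fun _ _ => 1) := by
  intro μ _ l
  refine ⟨fun _ => if l = 0 then 1 else 0, differentiableOn_const _, fun u hu => ?_⟩
  have h : dd (fun _ => (1 : ℂ)) (u ^ 2) μ l = if l = 0 then 1 else 0 := by
    unfold dd ddn
    simp only [one_mul]
    exact sum_inv_Dn (L := l) (nu_inj hu (Int.natCast_nonneg μ)).injOn le_rfl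
  rw [h]
  split_ifs with h0
  · subst h0
    simp [brf]
  · rw [mul_zero]

theorem RegF.pow {p : ℤ} {f : ℂ → ℤ → ℂ} (hf : RegF p f) : ∀ m : ℕ,
    RegF p (fun v c => f v c ^ m)
  | 0 => by
    simp only [pow_zero]
    exact RegF.one p
  | m + 1 => by
    simp only [pow_succ]
    exact (hf.pow m).mul hf

end Pool.Agent.Q191.LB
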