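import Pool.Agent.Q191.LB.Th
import Pool.Agent.Q191.LB.Co

/-!
# Entries of belted full twists in terms of divided differences
-/

set_option autoImplicit false

namespace Pool.Agent.Q191.LB

open Matrix Finset Filter Topology
open Pool.Agent.H550R3.Jones (WM IsMod IsInt Gen br brf tens irr nb R Rinv Rh Rhi crossP crossN ptr)
open Pool.Agent.H897R.J (HasWt gen_br gen_v br_neg br_zero wt_F)
open Pool.Agent.W715.VC (rt)
open Pool.Agent.Q191.FT

section general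

variable {ι : Type} [Fintype ι] [DecidableEq ι]

theorem sc_dd {u : ℂ} (hu : Gen u) {M : WM ι} (hM : IsMod (u ^ 2) M) {T : Matrix ι ι ℂ}
    {p : ℤ} {f : ℤ → ℂ} (hR : Sc u M T p f) {x : ι → ℂ} {μ : ℕ} (hx : HasWt M μ x)
    (hp : (2 : ℤ) ∣ μ - p) {L : ℕ} (hL : M.E ^ (L + 1) *ᵥ x = 0) :
    T *ᵥ x = ∑ l ∈ range (L + 1), dd f (u ^ 2) μ l • GG M x l := by
  rw [sc_formula hu hM hR (Int.natCast_nonneg μ) hx hp hL]
  unfold yy dd ddn
  simp only [smul_sum, sum_smul, smul_smul]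
  refine sum_comm' ?_
  intro i l
  simp only [mem_range, mem_Ico]
  omega

theorem sc_entry {u : ℂ} (hu : Gen u) {M : WM ι} (hM : IsMod (u ^ 2) M) {T : Matrix ι ι ℂ}
    {p : ℤ} {f : ℤ → ℂ} (hR : Sc u M T p f) {A : ℕ} (hA : ∀ i, |M.wt i| ≤ A) {t0 : ι} {μ : ℕ}
    (hμ : M.wt t0 = μ) (hp : (2 : ℤ) ∣ M.wt t0 - p) (s0 : ι) :
    T s0 t0 = ∑ l ∈ range (A + 1), dd f (u ^ 2) μ l * ∑ r, (M.F ^ l) s0 r * (M.E ^ l) r t0 := by
  have hx : HasWt M μ (Pi.single t0 1) := by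
    intro i hi
    by_cases h : i = t0
    · rw [h, hμ]
    · exact absurd (by rw [Pi.single_apply, if_neg h]) hi
  have hL : M.E ^ (A + 1) *ᵥ Pi.single t0 (1 : ℂ) = 0 :=
    Epow_nil hM hx (B := A) (fun i => (abs_le.1 (hA i)).2) (by push_cast; omega)
  rw [hμ] at hp
  have h := congrFun (sc_dd hu hM hR hx hp hL) s0
  rw [mulVec_single_one] at h
  change T s0 t0 = _ at h
  rw [h, Finset.sum_apply]
  refine sum_congr rfl fun l _ => ?_
  rw [Pi.smul_apply, smul_eq_mul]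
  unfold GG
  rw [mulVec_single_one]
  rfl

/-- sum over the intermediate states -/
noncomputable def WG (M : WM ι) (φ ψ : ι → ι → ℝ) (l : ℕ) (s0 t0 : ι) : ℝ :=
  ∑ r, if M.wt r = M.wt t0 + 2 * l ∧ M.wt r = M.wt s0 + 2 * l then ψ s0 r * φ r t0 else 0

theorem F_pow_wt {v : ℂ} {M : WM ι} (hM : IsMod v M) (n : ℕ) (i j : ι) (h : (M.F ^ n) i j ≠ 0) :
    M.wt j = M.wt i + 2 * n := by
  have h1 := Pool.Agent.H22R3.J.E_pow_wt (dual_mod hM) n i j h
  change -M.wt i = -M.wt j + 2 * n at h1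
  omega

theorem ent_norm {u : ℂ} (hu : Gen u) {M : WM ι} (hM : IsMod (u ^ 2) M) {T : Matrix ι ι ℂ}
    {p : ℤ} {f : ℤ → ℂ} (hR : Sc u M T p f) {A : ℕ} (hA : ∀ i, |M.wt i| ≤ A) {t0 : ι} {μ : ℕ}
    (hμ : M.wt t0 = μ) (hp : (2 : ℤ) ∣ M.wt t0 - p) {B : ℝ} (hB0 : 0 ≤ B)
    {φ ψ : ι → ι → ℝ} (hφ : ∀ i j, 0 ≤ φ i j) (hψ : ∀ i j, 0 ≤ ψ i j)
    (hB : DB (u ^ 2) M B φ ψ) (s0 : ι) :
    ‖T s0 t0‖ ≤ ∑ l ∈ range (A + 1), ‖brf (u ^ 2) l * dd f (u ^ 2) μ l‖ *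
      (‖brf (u ^ 2) l‖ * (B ^ 2 * WG M φ ψ l s0 t0)) := by
  rw [sc_entry hu hM hR hA hμ hp s0]
  refine (norm_sum_le _ _).trans (sum_le_sum fun l _ => ?_)
  rw [norm_mul, norm_mul]
  have h1 : ‖∑ r, (M.F ^ l) s0 r * (M.E ^ l) r t0‖ ≤
      ‖brf (u ^ 2) l‖ * (‖brf (u ^ 2) l‖ * (B ^ 2 * WG M φ ψ l s0 t0)) := by
    unfold WG
    rw [mul_sum, mul_sum, mul_sum]
    refine (norm_sum_le _ _).trans (sum_le_sum fun r _ => ?_)
    rw [norm_mul]
    by_cases hc : M.wt r = M.wt t0 + 2 * l ∧ M.wt r = M.wt s0 + 2 * l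
    · rw [if_pos hc]
      have b1 := (hB l r t0).1
      have b2 := (hB l s0 r).2
      have := hφ r t0
      have := hψ s0 r
      calc ‖(M.F ^ l) s0 r‖ * ‖(M.E ^ l) r t0‖
          ≤ (B * ψ s0 r * ‖brf (u ^ 2) l‖) * (B * φ r t0 * ‖brf (u ^ 2) l‖) :=
            mul_le_mul b2 b1 (norm_nonneg _) (by positivity)
        _ = _ := by ring
    · rw [if_neg hc]
      have h0 : ‖(M.F ^ l) s0 r‖ * ‖(M.E ^ l) r t0‖ = 0 := by
        by_contra h
        apply hc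
        have h2 := F_pow_wt hM l s0 r (norm_ne_zero_iff.1 (left_ne_zero_of_mul h))
        have h3 := Pool.Agent.H22R3.J.E_pow_wt hM l r t0
          (norm_ne_zero_iff.1 (right_ne_zero_of_mul h))
        exact ⟨h3, h2⟩
      rw [h0]
      simp
  calc ‖dd f (u ^ 2) μ l‖ * ‖∑ r, (M.F ^ l) s0 r * (M.E ^ l) r t0‖
      ≤ ‖dd f (u ^ 2) μ l‖ * (‖brf (u ^ 2) l‖ *
        (‖brf (u ^ 2) l‖ * (B ^ 2 * WG M φ ψ l s0 t0))) := by gcongr
    _ = _ := by ring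

theorem DB_dual {v : ℂ} {M : WM ι} {B : ℝ} {φ ψ : ι → ι → ℝ} (h : DB v M B φ ψ) :
    DB v (dual M) B ψ φ := fun n i j => ⟨(h n i j).2, (h n i j).1⟩

theorem Sc.congr {u : ℂ} {M : WM ι} {T : Matrix ι ι ℂ} {p : ℤ} {f g : ℤ → ℂ}
    (h : Sc u M T p f) (hfg : ∀ c : ℤ, (2 : ℤ) ∣ c - (p + 1) → f c = g c) : Sc u M T p g := by
  intro c hc y hy
  rw [← hfg c hc]
  exact h c hc y hy

end general

variable {N : ℕ}

/-- sum over the intermediate states, both cases -/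
noncomputable def WT (v : ℂ) (N K l : ℕ) (s0 t0 : Tp N K) : ℝ :=
  (∑ r : Tp N K, if ds K t0 = ds K r + l ∧ ds K s0 = ds K r + l then
    phF v N K s0 r * phE v N K r t0 else 0) +
  ∑ r : Tp N K, if ds K r = ds K t0 + l ∧ ds K r = ds K s0 + l then
    phE v N K s0 r * phF v N K r t0 else 0

theorem WG_le_WT (v : ℂ) (N K l : ℕ) (s0 t0 : Tp N K) :
    WG (MM v N K) (phE v N K) (phF v N K) l s0 t0 ≤ WT v N K l s0 t0 ∧
    WG (dual (MM v N K)) (phF v N K) (phE v N K) l s0 t0 ≤ WT v N K l s0 t0 := by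
  have hE := phE_nonneg v N K
  have hF := phF_nonneg v N K
  unfold WT
  constructor
  · refine le_trans (le_of_eq ?_) (le_add_of_nonneg_right ?_)
    · unfold WG
      refine sum_congr rfl fun r _ => ?_
      have e : ((MM v N K).wt r = (MM v N K).wt t0 + 2 * l ∧
          (MM v N K).wt r = (MM v N K).wt s0 + 2 * l) ↔
          (ds K t0 = ds K r + l ∧ ds K s0 = ds K r + l) := by
        rw [MM_wt_eq, MM_wt_eq, MM_wt_eq]
        omega
      simp only [e]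
    · refine sum_nonneg fun r _ => ?_
      split_ifs
      exacts [mul_nonneg (hE _ _) (hF _ _), le_rfl]
  · refine le_trans (le_of_eq ?_) (le_add_of_nonneg_left ?_)
    · unfold WG
      refine sum_congr rfl fun r _ => ?_
      have e : ((dual (MM v N K)).wt r = (dual (MM v N K)).wt t0 + 2 * l ∧
          (dual (MM v N K)).wt r = (dual (MM v N K)).wt s0 + 2 * l) ↔
          (ds K r = ds K t0 + l ∧ ds K r = ds K s0 + l) := by
        change (-(MM v N K).wt r = -(MM v N K).wt t0 + 2 * l ∧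
          -(MM v N K).wt r = -(MM v N K).wt s0 + 2 * l) ↔ _
        rw [MM_wt_eq, MM_wt_eq, MM_wt_eq]
        omega
      simp only [e]
    · refine sum_nonneg fun r _ => ?_
      split_ifs
      exacts [mul_nonneg (hF _ _) (hE _ _), le_rfl]

/-- crossings -/
noncomputable def cx (σ : Bool) (N : ℕ) (v : ℂ) : Matrix (Fin N × Fin N) (Fin N × Fin N) ℂ :=
  if σ then crossP N v else crossN N v

/-- sign -/
def sg (σ : Bool) : ℤ := if σ then 1 else -1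

theorem sg_or (σ : Bool) : sg σ = 1 ∨ sg σ = -1 := by cases σ <;> simp [sg]

/-- the operator of a belted region -/
noncomputable def XX (σ : Bool) (N K m p : ℕ) (v : ℂ) : Matrix (Tp N K) (Tp N K) ℂ :=
  TT (cx σ N v) K ^ m * BB v (crossP N v) K ^ p

theorem nc_int (K : ℕ) : ((nc K : ℕ) : ℤ) = K * K - K := by
  rw [nc_eq]
  cases K with
  | zero => rfl
  | succ k =>
    rw [Nat.add_sub_cancel]
    push_cast
    ring

theorem X_sc {u : ℂ} (hu : Gen u) (σ : Bool) (N K m p : ℕ) :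
    Sc u (MM (u ^ 2) N K) (XX σ N K m p (u ^ 2)) (K * ((N : ℤ) - 1))
      (ff K N (sg σ) m p (u ^ 2)) := by
  have hu0 := hu.1
  have hB : Sc u (MM (u ^ 2) N K) (BB (u ^ 2) (crossP N (u ^ 2)) K ^ p) (K * ((N : ℤ) - 1))
      (fun c => ((u ^ 2) ^ (-(K * ((N : ℤ) ^ 2 - 1))) * chi (u ^ 2) N c) ^ p) := by
    rw [(Pool.Agent.H559R3.J.taskCross u hu N).1, BB_smul]
    refine Sc.congr (((BB_sc hu N K).smul ((u ^ (-((N : ℤ) ^ 2 - 1))) ^ (2 * K))).pow p) ?_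
    intro c _
    have e : (u ^ (-((N : ℤ) ^ 2 - 1))) ^ (2 * K) = (u ^ 2) ^ (-(K * ((N : ℤ) ^ 2 - 1))) := by
      rw [← zpow_natCast, ← _root_.zpow_mul, ← zpow_natCast u 2, ← _root_.zpow_mul]
      congr 1
      push_cast
      ring
    rw [e]
  have hpw : ∀ c : ℤ, (2 : ℤ) ∣ c - (K * ((N : ℤ) - 1) + 1) → ∀ s : ℤ,
      (u ^ (-s * ((N : ℤ) ^ 2 - 1))) ^ nc K * u ^ (s * (c ^ 2 - 1 - K * ((N : ℤ) ^ 2 - 1))) =
        (u ^ 2) ^ hh K N s c := by
    intro c hc s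
    have h2 := hh_two (s := s) hc
    rw [← zpow_natCast, ← _root_.zpow_mul, ← zpow_natCast u 2, ← _root_.zpow_mul,
      ← zpow_add₀ hu0]
    congr 1
    rw [nc_int]
    push_cast
    rw [h2]
    ring
  refine Sc.mul ?_ hB
  cases σ
  · change Sc u (MM (u ^ 2) N K) (TT (crossN N (u ^ 2)) K ^ m) (K * ((N : ℤ) - 1))
      (fun c => ((u ^ 2) ^ hh K N (-1) c) ^ m)
    rw [(Pool.Agent.H559R3.J.taskCross u hu N).2, TT_smul]
    refine Sc.congr ((((TT_rib_inv hu N K).2).sc.smul ((u ^ ((N : ℤ) ^ 2 - 1)) ^ nc K)).pow m) ?_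
    intro c hc
    rw [← hpw c hc (-1)]
    norm_num
  · change Sc u (MM (u ^ 2) N K) (TT (crossP N (u ^ 2)) K ^ m) (K * ((N : ℤ) - 1))
      (fun c => ((u ^ 2) ^ hh K N 1 c) ^ m)
    rw [(Pool.Agent.H559R3.J.taskCross u hu N).1, TT_smul]
    refine Sc.congr ((((TT_rib hu N K).2).sc.smul ((u ^ (-((N : ℤ) ^ 2 - 1))) ^ nc K)).pow m) ?_
    intro c hc
    rw [← hpw c hc 1]
    norm_num

/-- the exponent of the error -/
def yx (N K : ℕ) : ℕ := 4 * K * N * N * K * 2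

/-- the weight of a column -/
def cw0 (N K : ℕ) (t0 : Tp N K) : ℕ := (K * ((N : ℤ) - 1) - 2 * (ds K t0 : ℤ)).natAbs

theorem cw0_le (v : ℂ) (K : ℕ) (t0 : Tp N K) : cw0 N K t0 ≤ K * N := by
  have h := (MM_wt v N K t0).1
  rw [MM_wt_eq] at h
  unfold cw0
  have : ((K : ℤ) * N) = ((K * N : ℕ) : ℤ) := by push_cast; rfl
  rw [this] at h
  rw [Int.abs_eq_natAbs] at h
  exact_mod_cast h

theorem cw0_par (K : ℕ) (t0 : Tp N K) : (2 : ℤ) ∣ (cw0 N K t0 : ℤ) - K * ((N : ℤ) - 1) := by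
  unfold cw0
  rcases Int.natAbs_eq (K * ((N : ℤ) - 1) - 2 * (ds K t0 : ℤ)) with h | h
  · rw [← h]
    exact ⟨-(ds K t0 : ℤ), by ring⟩
  · have e : (((K * ((N : ℤ) - 1) - 2 * (ds K t0 : ℤ)).natAbs : ℕ) : ℤ) =
        -(K * ((N : ℤ) - 1) - 2 * (ds K t0 : ℤ)) := by linarith
    rw [e]
    exact ⟨(ds K t0 : ℤ) - K * ((N : ℤ) - 1), by ring⟩

theorem belt_gen {u : ℂ} (hu : Gen u) (σ : Bool) (N K m p : ℕ) (s0 t0 : Tp N K) :
    ‖XX σ N K m p (u ^ 2) s0 t0‖ ≤ ∑ l ∈ range (K * N + 1),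
      ‖brf (u ^ 2) l * dd (ff K N (sg σ) m p (u ^ 2)) (u ^ 2) (cw0 N K t0) l‖ *
      (‖brf (u ^ 2) l‖ * (mx (u ^ 2) ^ yx N K * WT (u ^ 2) N K l s0 t0)) := by
  have hv := gen_v hu
  have hu0 := hu.1
  have h1 := mx_one (pow_ne_zero 2 hu0)
  have hmp := mx_pow hu0
  have hM := MM_mod hv N K
  generalize mx (u ^ 2) = M at h1 hmp
  have hM0 : 0 ≤ M := by linarith
  have hβ : ∀ e : ℤ, |e| ≤ 2 * ((K : ℤ) * N) * N → ‖(u ^ 2) ^ e‖ ≤ M ^ (4 * K * N * N) := by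
    intro e he
    have e1 : (u ^ 2) ^ e = u ^ (2 * e) := by
      rw [← zpow_natCast u 2, ← _root_.zpow_mul]
      rfl
    rw [e1]
    refine (hmp _).trans (pow_le_pow_right₀ h1 ?_)
    rw [Int.abs_eq_natAbs] at he
    have : (2 * e).natAbs = 2 * e.natAbs := by omega
    rw [this]
    have h2 : e.natAbs ≤ 2 * (K * N) * N := by exact_mod_cast he
    calc 2 * e.natAbs ≤ 2 * (2 * (K * N) * N) := by omega
      _ = 4 * K * N * N := by ring
  have hD := DB_MM' hu hβ K le_rfl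
  have hB0 : 0 ≤ (M ^ (4 * K * N * N)) ^ K := by positivity
  have hS := X_sc hu σ N K m p
  have eB : ((M ^ (4 * K * N * N)) ^ K) ^ 2 = M ^ yx N K := by
    rw [← pow_mul, ← pow_mul]
    congr 1
    unfold yx
    ring
  have hA : ∀ i, |(MM (u ^ 2) N K).wt i| ≤ ((K * N : ℕ) : ℤ) := fun i => by
    push_cast; exact (MM_wt (u ^ 2) N K i).1
  have hwt := MM_wt_eq (u ^ 2) K t0
  have hW := WG_le_WT (u ^ 2) N K
  rcases le_total 0 ((MM (u ^ 2) N K).wt t0) with h | h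
  · have hμ : (MM (u ^ 2) N K).wt t0 = (cw0 N K t0 : ℕ) := by
      unfold cw0
      rw [← hwt, Int.natAbs_of_nonneg h]
    have h2 := ent_norm hu hM hS hA hμ (MM_wt (u ^ 2) N K t0).2 hB0 (phE_nonneg _ _ K)
      (phF_nonneg _ _ K) hD s0
    rw [eB] at h2
    refine h2.trans (sum_le_sum fun l _ => ?_)
    have := (hW l s0 t0).1
    gcongr
  · have hμ : (dual (MM (u ^ 2) N K)).wt t0 = (cw0 N K t0 : ℕ) := by
      unfold cw0
      rw [← hwt]
      change -(MM (u ^ 2) N K).wt t0 = _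
      omega
    have hS' : Sc u (dual (MM (u ^ 2) N K)) (XX σ N K m p (u ^ 2)) (K * ((N : ℤ) - 1))
        (ff K N (sg σ) m p (u ^ 2)) := by
      intro c hc y hy
      rw [Cas_dual hv hM] at hy
      exact hS c hc y hy
    have h2 := ent_norm hu (dual_mod hM) hS' (fun i => by
        change |-(MM (u ^ 2) N K).wt i| ≤ _
        rw [abs_neg]
        exact hA i) hμ (by
        rw [hμ]
        exact cw0_par K t0) hB0 (phF_nonneg _ _ K)
      (phE_nonneg _ _ K) (DB_dual hD) s0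
    rw [eB] at h2
    refine h2.trans (sum_le_sum fun l _ => ?_)
    have := (hW l s0 t0).2
    gcongr

end Pool.Agent.Q191.LB
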