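import Pool.Agent.Q191.LB.Bni

/-!
# The entries of bundle crossings at the root of unity
-/

set_option autoImplicit false

namespace Pool.Agent.Q191.LB

open Matrix Finset Filter Topology
open scoped Kronecker
open Pool.Agent.H550R3.Jones (WM IsMod IsInt Gen br brf tens irr nb R Rinv Rh Rhi crossP crossN)
open Pool.Agent.H897R.J (HasWt gen_br gen_v br_neg br_zero wt_F)
open Pool.Agent.W715.VC (rt)
open Pool.Agent.Q191.FT

variable {N : ℕ}

/-! ### Continuity -/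

theorem Xc_cont {v : ℂ} {A : ℂ → Matrix (Fin N × Fin N) (Fin N × Fin N) ℂ}
    (hA : ∀ p q, ContinuousAt (fun w => A w p q) v) : ∀ (r : ℕ) p q,
    ContinuousAt (fun w => Xc (A w) r p q) v
  | 0, _, _ => continuousAt_const
  | r + 1, _, _ => tendsto_finsetSum _ fun _ _ => (Xc_cont hA r _ _).mul (hA _ _)

theorem Zc_cont {v : ℂ} {A : ℂ → Matrix (Fin N × Fin N) (Fin N × Fin N) ℂ}
    (hA : ∀ p q, ContinuousAt (fun w => A w p q) v) (r : ℕ) : ∀ (s : ℕ) p q,
    ContinuousAt (fun w => Zc (A w) r s p q) v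
  | 0, _, _ => continuousAt_const
  | s + 1, _, _ => tendsto_finsetSum _ fun _ _ => (Xc_cont hA r _ _).mul (Zc_cont hA r s _ _)

theorem Xc_smul (c : ℂ) (A : Matrix (Fin N × Fin N) (Fin N × Fin N) ℂ) : ∀ (r : ℕ) p q,
    Xc (c • A) r p q = c ^ r * Xc A r p q
  | 0, p, q => by rw [pow_zero, one_mul]; rfl
  | r + 1, p, q => by
    have e : ∀ B : Matrix (Fin N × Fin N) (Fin N × Fin N) ℂ, Xc B (r + 1) p q =
      ∑ m : Fin N, Xc B r (p.1, p.2.1) (q.1.1, m) * B (m, p.2.2) (q.1.2, q.2) := fun B => rfl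
    rw [e, e, mul_sum]
    refine sum_congr rfl fun m _ => ?_
    rw [Xc_smul c A r, Matrix.smul_apply, smul_eq_mul]
    ring

theorem Zc_smul (c : ℂ) (A : Matrix (Fin N × Fin N) (Fin N × Fin N) ℂ) (r : ℕ) : ∀ (s : ℕ) p q,
    Zc (c • A) r s p q = c ^ (r * s) * Zc A r s p q
  | 0, p, q => by rw [mul_zero, pow_zero, one_mul]; rfl
  | s + 1, p, q => by
    have e : ∀ B : Matrix (Fin N × Fin N) (Fin N × Fin N) ℂ, Zc B r (s + 1) p q =
      ∑ z : Tp N r, Xc B r (p.1.2, p.2) (z, q.2.2) * Zc B r s (p.1.1, z) (q.1, q.2.1) :=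
        fun B => rfl
    rw [e, e, mul_sum]
    refine sum_congr rfl fun z _ => ?_
    rw [Xc_smul, Zc_smul c A r s]
    ring

theorem qb_cont {v : ℂ} (hv : v ≠ 0) {a n : ℕ} (ha : brf v a ≠ 0) (hn : brf v n ≠ 0) :
    ContinuousAt (fun w => qb w a n) v := by
  unfold qb
  have hc := fun m => (Pool.Agent.H756R3.J.brf_cont hv m).norm
  exact (hc _).div ((hc _).mul (hc _)) (mul_ne_zero (norm_ne_zero_iff.2 ha) (norm_ne_zero_iff.2 hn))

theorem fE_cont {v : ℂ} (hv : v ≠ 0) (hN : ∀ k : ℕ, 0 < k → k < N → br v k ≠ 0) (i j : Fin N) :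
    ContinuousAt (fun w => fE w N i j) v := by
  have h1 := i.2
  have h2 := j.2
  unfold fE
  by_cases h : (i : ℕ) ≤ j
  · simp only [if_pos h]
    exact qb_cont hv (Pool.Agent.H756R3.J.brf_ne hN (by omega))
      (Pool.Agent.H756R3.J.brf_ne hN (by omega))
  · simp only [if_neg h]
    exact continuousAt_const

theorem fF_cont {v : ℂ} (hv : v ≠ 0) (hN : ∀ k : ℕ, 0 < k → k < N → br v k ≠ 0) (i j : Fin N) :
    ContinuousAt (fun w => fF w N i j) v := by
  have h1 := i.2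
  have h2 := j.2
  unfold fF
  by_cases h : (j : ℕ) ≤ i
  · simp only [if_pos h]
    exact qb_cont hv (Pool.Agent.H756R3.J.brf_ne hN (by omega))
      (Pool.Agent.H756R3.J.brf_ne hN (by omega))
  · simp only [if_neg h]
    exact continuousAt_const

theorem phE_cont {v : ℂ} (hv : v ≠ 0) (hN : ∀ k : ℕ, 0 < k → k < N → br v k ≠ 0) :
    ∀ k (x y : Tp N k), ContinuousAt (fun w => phE w N k x y) v
  | 0, _, _ => continuousAt_const
  | k + 1, x, y => (phE_cont hv hN k x.1 y.1).mul (fE_cont hv hN _ _)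

theorem phF_cont {v : ℂ} (hv : v ≠ 0) (hN : ∀ k : ℕ, 0 < k → k < N → br v k ≠ 0) :
    ∀ k (x y : Tp N k), ContinuousAt (fun w => phF w N k x y) v
  | 0, _, _ => continuousAt_const
  | k + 1, x, y => (phF_cont hv hN k x.1 y.1).mul (fF_cont hv hN _ _)

/-! ### Weights -/

/-- sum of the indices of a state -/
def ds : (k : ℕ) → Tp N k → ℕ
  | 0, _ => 0
  | k + 1, x => ds k x.1 + (x.2 : ℕ)

theorem MM_wt_eq (v : ℂ) : ∀ k (x : Tp N k),
    (MM v N k).wt x = k * ((N : ℤ) - 1) - 2 * (ds k x : ℤ)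
  | 0, x => by
    change (0 : ℤ) = (((0 : ℕ) : ℤ)) * ((N : ℤ) - 1) - 2 * ((0 : ℕ) : ℤ)
    push_cast
    ring
  | k + 1, x => by
    have h1 : (MM v N (k + 1)).wt x = (MM v N k).wt x.1 + ((N : ℤ) - 1 - 2 * ((x.2 : Fin N) : ℕ)) :=
      rfl
    have h2 : ds (k + 1) x = ds k x.1 + ((x.2 : Fin N) : ℕ) := rfl
    rw [h1, h2, MM_wt_eq v k x.1]
    push_cast
    ring

theorem hd_MM (v : ℂ) (k : ℕ) (x y : Tp N k) : hd (MM v N k) x y = ds k y - ds k x := by
  unfold hd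
  rw [MM_wt_eq, MM_wt_eq]
  omega

/-! ### The bound at generic parameters -/

/-- `max (|v|, 1/|v|)` -/
noncomputable def mx (v : ℂ) : ℝ := max ‖v‖ ‖v‖⁻¹

theorem mx_one {v : ℂ} (hv : v ≠ 0) : 1 ≤ mx v := by
  have h := norm_pos_iff.2 hv
  unfold mx
  rcases le_total 1 ‖v‖ with h1 | h1
  · exact h1.trans (le_max_left _ _)
  · exact ((one_le_inv₀ h).2 h1).trans (le_max_right _ _)

theorem mx_pow {u : ℂ} (hu : u ≠ 0) (e : ℤ) : ‖u ^ e‖ ≤ mx (u ^ 2) ^ e.natAbs := by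
  have hv : u ^ 2 ≠ 0 := pow_ne_zero 2 hu
  have h1 := mx_one hv
  have hu0 := norm_pos_iff.2 hu
  have h2 : ‖u‖ ≤ mx (u ^ 2) := by
    rcases le_total ‖u‖ 1 with h | h
    · exact h.trans h1
    · have : ‖u‖ ≤ ‖u ^ 2‖ := by
        rw [norm_pow]
        nlinarith
      exact this.trans (le_max_left _ _)
  have h3 : ‖u‖⁻¹ ≤ mx (u ^ 2) := by
    have hi := inv_pos.2 hu0
    rcases le_total ‖u‖⁻¹ 1 with h | h
    · exact h.trans h1
    · have : ‖u‖⁻¹ ≤ ‖u ^ 2‖⁻¹ := by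
        rw [norm_pow, ← inv_pow]
        nlinarith
      exact this.trans (le_max_right _ _)
  rw [norm_zpow]
  rcases Int.natAbs_eq e with h | h
  · rw [h, zpow_natCast, Int.natAbs_natCast]
    exact pow_le_pow_left₀ hu0.le h2 _
  · rw [h, _root_.zpow_neg, zpow_natCast, ← inv_pow, Int.natAbs_neg, Int.natAbs_natCast]
    exact pow_le_pow_left₀ (inv_pos.2 hu0).le h3 _

theorem mx_cont {v : ℂ} (hv : v ≠ 0) : ContinuousAt mx v := by
  unfold mx
  exact (continuous_norm.continuousAt).sup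
    (continuous_norm.continuousAt.inv₀ (norm_ne_zero_iff.2 hv))

theorem mx_rt (N : ℕ) : mx (rt N) = 1 := by
  have h : ‖rt N‖ = 1 := by
    have := Pool.Agent.W715.VC.norm_rt_zpow N 1
    rwa [zpow_one] at this
  unfold mx
  rw [h]
  simp

/-- the bound of the entries -/
noncomputable def bdp (v : ℂ) (N r s : ℕ) (y' : Tp N s) (x' x : Tp N r) (y : Tp N s) : ℝ :=
  if ds r x' + ds s y' = ds r x + ds s y then
    phE v N r x' x * phF v N s y' y * ‖brf v (ds r x - ds r x')‖ else 0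

/-- the exponent of the error -/
def xx (N r s : ℕ) : ℕ :=
  (N ^ 2 + 1) * (r * s) + 2 * ((r + s) * N) ^ 2 + 4 * (r + s) * N * N * (r + s)

theorem ent_gen {u : ℂ} (hu : Gen u) (N r s : ℕ) :
    (∀ (y' : Tp N s) (x' x : Tp N r) (y : Tp N s),
      ‖Zc (crossP N (u ^ 2)) r s (y', x') (x, y)‖ ≤
        mx (u ^ 2) ^ xx N r s * bdp (u ^ 2) N r s y' x' x y) ∧
    (∀ (y' : Tp N s) (x' x : Tp N r) (y : Tp N s),
      ‖Zc (crossN N (u ^ 2)) r s (y', x') (x, y)‖ ≤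
        mx (u ^ 2) ^ xx N r s * bdp (u ^ 2) N s r x' y' y x) := by
  have hv := gen_v hu
  have hu0 := hu.1
  have h1 := mx_one (pow_ne_zero 2 hu0)
  have hmp := mx_pow hu0
  generalize mx (u ^ 2) = M at h1 hmp
  have hM0 : 0 ≤ M := by linarith
  have hMr := MM_mod hv N r
  have hMs := MM_mod hv N s
  have hle : ∀ {a b : ℕ}, a ≤ b → M ^ a ≤ M ^ b := fun h => pow_le_pow_right₀ h1 h
  -- bounds of the powers
  have hβ : ∀ e : ℤ, |e| ≤ 2 * (((r + s : ℕ) : ℤ) * N) * N → ‖(u ^ 2) ^ e‖ ≤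
      M ^ (4 * (r + s) * N * N) := by
    intro e he
    have e1 : (u ^ 2) ^ e = u ^ (2 * e) := by
      rw [← zpow_natCast u 2, ← _root_.zpow_mul]
      rfl
    rw [e1]
    refine (hmp _).trans (hle ?_)
    rw [Int.abs_eq_natAbs] at he
    have : (2 * e).natAbs = 2 * e.natAbs := by omega
    rw [this]
    have h2 : e.natAbs ≤ 2 * ((r + s) * N) * N := by exact_mod_cast he
    calc 2 * e.natAbs ≤ 2 * (2 * ((r + s) * N) * N) := by omega
      _ = 4 * (r + s) * N * N := by ring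
  have hΘ : ∀ e : ℤ, |e| ≤ (((r + s : ℕ) : ℤ) * N) * (((r + s : ℕ) : ℤ) * N) +
      (((r + s : ℕ) : ℤ) * N) * (((r + s : ℕ) : ℤ) * N) → ‖u ^ e‖ ≤ M ^ (2 * ((r + s) * N) ^ 2) := by
    intro e he
    refine (hmp _).trans (hle ?_)
    rw [Int.abs_eq_natAbs] at he
    have h2 : e.natAbs ≤ ((r + s) * N) * ((r + s) * N) + ((r + s) * N) * ((r + s) * N) := by
      exact_mod_cast he
    calc e.natAbs ≤ _ := h2
      _ = 2 * ((r + s) * N) ^ 2 := by ring
  have hwt : ∀ k, k ≤ r + s → ∀ i : Tp N k, |(MM (u ^ 2) N k).wt i| ≤ ((r + s : ℕ) : ℤ) * N := by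
    intro k hk i
    refine (MM_wt (u ^ 2) N k i).1.trans ?_
    have : (k : ℤ) ≤ ((r + s : ℕ) : ℤ) := by exact_mod_cast hk
    gcongr
  have hDr := DB_MM' hu hβ r (by omega)
  have hDs := DB_MM' hu hβ s (by omega)
  have hpow0 : ∀ k, 0 ≤ (M ^ (4 * (r + s) * N * N)) ^ k := fun k => by positivity
  -- scalar factors
  have hsc : ∀ e : ℤ, e.natAbs ≤ N ^ 2 + 1 → ‖(u ^ e) ^ (r * s)‖ ≤ M ^ ((N ^ 2 + 1) * (r * s)) := by
    intro e he
    rw [norm_pow, pow_mul M]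
    exact pow_le_pow_left₀ (norm_nonneg _) ((hmp _).trans (hle he)) _
  have hNa : (-((N : ℤ) ^ 2 - 1)).natAbs ≤ N ^ 2 + 1 ∧ ((N : ℤ) ^ 2 - 1).natAbs ≤ N ^ 2 + 1 := by
    have h2 : (0 : ℤ) ≤ (N : ℤ) ^ 2 := by positivity
    have h3 : ((N : ℤ) ^ 2) = ((N ^ 2 : ℕ) : ℤ) := by push_cast; rfl
    rw [h3]
    omega
  have hxx : M ^ xx N r s = M ^ ((N ^ 2 + 1) * (r * s)) * (M ^ (2 * ((r + s) * N) ^ 2) *
      ((M ^ (4 * (r + s) * N * N)) ^ r * (M ^ (4 * (r + s) * N * N)) ^ s)) := by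
    unfold xx
    rw [← pow_add (M ^ (4 * (r + s) * N * N)) r s, ← pow_mul, ← pow_add, ← pow_add]
    congr 1
    ring
  have hfin : ∀ {c z : ℝ} {a b d φ ψ : ℝ}, 0 ≤ c → c ≤ M ^ ((N ^ 2 + 1) * (r * s)) → 0 ≤ z →
      z ≤ M ^ (2 * ((r + s) * N) ^ 2) * (((M ^ (4 * (r + s) * N * N)) ^ r * φ) *
        ((M ^ (4 * (r + s) * N * N)) ^ s * ψ) * d) → 0 ≤ φ → 0 ≤ ψ → 0 ≤ d →
      c * z ≤ M ^ xx N r s * (φ * ψ * d) := by
    intro c z a b d φ ψ hc0 hc hz0 hz hφ hψ hd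
    rw [hxx]
    calc c * z ≤ M ^ ((N ^ 2 + 1) * (r * s)) * (M ^ (2 * ((r + s) * N) ^ 2) *
          (((M ^ (4 * (r + s) * N * N)) ^ r * φ) *
          ((M ^ (4 * (r + s) * N * N)) ^ s * ψ) * d)) := by gcongr
      _ = _ := by ring
  constructor
  · intro y' x' x y
    have hE := (R_ent hu hMr hMs (hwt r (by omega)) (hwt s (by omega)) (phE_nonneg _ _ r)
      (phF_nonneg _ _ s) (hpow0 r) (hpow0 s) hDr hDs hΘ x' x y' y).1
    have hI := Pool.Agent.H345J.taskInt u hu _ _ _ _ hMr hMs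
    rw [(Pool.Agent.H559R3.J.taskCross u hu N).1, Zc_smul, Zc_braid hu, norm_mul]
    unfold bdp
    split_ifs with hc
    · rw [hd_MM] at hE
      exact hfin (a := 0) (b := 0) (norm_nonneg _) (hsc _ hNa.1) (norm_nonneg _) hE
        (phE_nonneg _ _ _ _ _) (phF_nonneg _ _ _ _ _) (norm_nonneg _)
    · have h0 : Rh u (MM (u ^ 2) N r) (MM (u ^ 2) N s) (y', x') (x, y) = 0 := by
        by_contra h
        have h2 := hI.k _ _ h
        change (MM (u ^ 2) N s).wt y' + (MM (u ^ 2) N r).wt x' =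
          (MM (u ^ 2) N r).wt x + (MM (u ^ 2) N s).wt y at h2
        rw [MM_wt_eq, MM_wt_eq, MM_wt_eq, MM_wt_eq] at h2
        omega
      rw [h0, norm_zero, mul_zero, mul_zero]
  · intro y' x' x y
    have hE := (R_ent hu hMs hMr (hwt s (by omega)) (hwt r (by omega)) (phE_nonneg _ _ s)
      (phF_nonneg _ _ r) (hpow0 s) (hpow0 r) hDs hDr hΘ y' y x' x).2
    have hI := int_Rhi hu hMs hMr
    rw [(Pool.Agent.H559R3.J.taskCross u hu N).2, Zc_smul, Zc_inv hu, norm_mul]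
    unfold bdp
    split_ifs with hc
    · rw [hd_MM] at hE
      have h3 : ‖Rhi u (MM (u ^ 2) N s) (MM (u ^ 2) N r) (y', x') (x, y)‖ ≤
          M ^ (2 * ((r + s) * N) ^ 2) * (((M ^ (4 * (r + s) * N * N)) ^ r *
            phF (u ^ 2) N r x' x) * ((M ^ (4 * (r + s) * N * N)) ^ s *
            phE (u ^ 2) N s y' y) * ‖brf (u ^ 2) (ds s y - ds s y')‖) := by
        refine hE.trans (le_of_eq ?_)
        ring
      have h4 := hfin (a := 0) (b := 0) (norm_nonneg _) (hsc _ hNa.2) (norm_nonneg _) h3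
        (phF_nonneg _ _ _ _ _) (phE_nonneg _ _ _ _ _) (norm_nonneg _)
      refine h4.trans (le_of_eq ?_)
      ring
    · have h0 : Rhi u (MM (u ^ 2) N s) (MM (u ^ 2) N r) (y', x') (x, y) = 0 := by
        by_contra h
        have h2 := hI.k _ _ h
        change (MM (u ^ 2) N s).wt y' + (MM (u ^ 2) N r).wt x' =
          (MM (u ^ 2) N r).wt x + (MM (u ^ 2) N s).wt y at h2
        rw [MM_wt_eq, MM_wt_eq, MM_wt_eq, MM_wt_eq] at h2
        omega
      rw [h0, norm_zero, mul_zero, mul_zero]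

/-! ### The limit -/

/-- an inequality between continuous functions which holds for generic parameters -/
theorem lim_gen {a : ℂ} (ha : a ≠ 0) {F G : ℂ → ℝ} (hF : ContinuousAt F a) (hG : ContinuousAt G a)
    (h : ∀ u : ℂ, Gen u → F (u ^ 2) ≤ G (u ^ 2)) : F a ≤ G a := by
  by_contra hlt
  push Not at hlt
  have hev : ∀ᶠ v in 𝓝 a, G v < F v := hG.eventually_lt hF hlt
  obtain ⟨δ, hδ, hball⟩ := Metric.eventually_nhds_iff.1 (hev.and (continuousAt_id.eventually_ne ha))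
  obtain ⟨r, _, h2, hroot⟩ := exists_radius a hδ
  have hr : 0 < r := lt_trans (by positivity) ‹δ / 2 < r›
  have hv : ‖(a + r) - a‖ = r := by
    rw [add_sub_cancel_left, Complex.norm_real, Real.norm_eq_abs, abs_of_pos hr]
  have hd : dist (a + (r : ℂ)) a < δ := by rw [dist_eq_norm, hv]; exact h2
  obtain ⟨h3, h4⟩ := hball hd
  obtain ⟨u, hu, hg⟩ := gen_of h4 (hroot _ hv)
  have h5 := h u hg
  rw [hu] at h5
  exact absurd h5 (not_le.2 h3)

theorem bdp_cont {v : ℂ} (hv : v ≠ 0) (hN : ∀ k : ℕ, 0 < k → k < N → br v k ≠ 0) (r s : ℕ)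
    (y' : Tp N s) (x' x : Tp N r) (y : Tp N s) :
    ContinuousAt (fun w => bdp w N r s y' x' x y) v := by
  unfold bdp
  split_ifs
  · exact ((phE_cont hv hN r x' x).mul (phF_cont hv hN s y' y)).mul
      (Pool.Agent.H756R3.J.brf_cont hv _).norm
  · exact continuousAt_const

theorem cross_cont1 {v : ℂ} (hv : v ≠ 0) (hN : ∀ k : ℕ, 0 < k → k < N → br v k ≠ 0) (σ : Bool)
    (p q : Fin N × Fin N) :
    ContinuousAt (fun w => (if σ then crossP N w else crossN N w) p q) v := by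
  have h := Pool.Agent.W613.QAT.cross_cont hv hN σ 1 p q
  simpa only [pow_one] using h

/-- the entries at the root of unity -/
theorem ent_rt (N r s : ℕ) :
    (∀ (y' : Tp N s) (x' x : Tp N r) (y : Tp N s),
      ‖Zc (crossP N (rt N)) r s (y', x') (x, y)‖ ≤ bdp (rt N) N r s y' x' x y) ∧
    (∀ (y' : Tp N s) (x' x : Tp N r) (y : Tp N s),
      ‖Zc (crossN N (rt N)) r s (y', x') (x, y)‖ ≤ bdp (rt N) N s r x' y' y x) := by
  have hv := Pool.Agent.W613.QAT.rt_ne N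
  have hN : ∀ k : ℕ, 0 < k → k < N → br (rt N) k ≠ 0 := Pool.Agent.W613.QAT.br_rt
  constructor
  · intro y' x' x y
    have h := lim_gen hv (F := fun w => ‖Zc (crossP N w) r s (y', x') (x, y)‖)
      (G := fun w => mx w ^ xx N r s * bdp w N r s y' x' x y)
      (Zc_cont (A := fun w => crossP N w) (fun p q => cross_cont1 hv hN true p q) r s _ _).norm
      (((mx_cont hv).pow _).mul (bdp_cont hv hN r s y' x' x y))
      (fun u hu => (ent_gen hu N r s).1 y' x' x y)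
    beta_reduce at h
    rwa [mx_rt, one_pow, one_mul] at h
  · intro y' x' x y
    have h := lim_gen hv (F := fun w => ‖Zc (crossN N w) r s (y', x') (x, y)‖)
      (G := fun w => mx w ^ xx N r s * bdp w N s r x' y' y x)
      (Zc_cont (A := fun w => crossN N w) (fun p q => cross_cont1 hv hN false p q) r s _ _).norm
      (((mx_cont hv).pow _).mul (bdp_cont hv hN s r x' y' y x))
      (fun u hu => (ent_gen hu N r s).2 y' x' x y)
    beta_reduce at h
    rwa [mx_rt, one_pow, one_mul] at h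

end Pool.Agent.Q191.LB
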