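import Pool.Agent.Q191.LB.BtF

/-!
# Diagrams with bundle crossings and belted regions
-/

set_option autoImplicit false

namespace Pool.Agent.Q191.LB

open Matrix Finset Filter Topology
open Pool.Agent.W709.QAT (Piece run jones)
open Pool.Agent.W715.VC (rt PP QQ)
open Pool.Agent.H550R3.Jones (br crossP crossN)
open Pool.Agent.Q191.FT
open GapVol (lob)
open scoped Real

/-- the regions of a diagram -/
inductive RgL
  | basic (P : Piece)
  | bun (i r s : ℕ) (σ : Bool)
  | belt (i k : ℕ) (σ : Bool) (m p : ℕ)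

/-- the pieces of a region -/
def RgL.word : RgL → List Piece
  | .basic P => [P]
  | .bun i r s σ => cw σ (LB.bun i r s)
  | .belt i k σ m p => bw i k σ m p

/-- the growth rate of a region -/
noncomputable def RgL.rate : RgL → ℝ
  | .basic P => brate P
  | .bun _ r s _ => cst r s
  | .belt _ k _ _ _ => cbl k

/-- the polynomial factor of a region -/
noncomputable def RgL.pf : RgL → ℝ
  | .basic P => bpf P
  | .bun _ _ _ _ => 1
  | .belt _ k _ m p => (((m + p : ℕ) : ℝ) + 1) ^ (24 * (k + 1) + 1)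

/-- the power of `N` -/
def RgL.dg : RgL → ℕ
  | .basic _ => 2
  | .bun _ r s _ => r + s
  | .belt _ k _ _ p => k + p

/-- the number of strands -/
def RgL.wd : RgL → ℕ
  | .basic _ => 0
  | .bun _ r s _ => r + s
  | .belt _ k _ _ _ => k

theorem belt_log_all (K : ℕ) (ε : ℝ) (hε : 0 < ε) : ∀ᶠ N : ℕ in atTop, ∀ k, k ≤ K →
    ∀ (σ : Bool) (m p : ℕ) (s0 t0 : Tp N k), ‖XX σ N k m p (rt N) s0 t0‖ ≤
      (N : ℝ) ^ p * (((m + p : ℕ) : ℝ) + 1) ^ (24 * (k + 1) + 1) *
        Real.exp (N * (cbl k / (2 * π) + ε)) := by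
  induction K with
  | zero =>
    filter_upwards [belt_log 0 ε hε] with N hN k hk
    obtain rfl : k = 0 := by omega
    exact hN
  | succ K ih =>
    filter_upwards [ih, belt_log (K + 1) ε hε] with N h1 h2 k hk
    rcases Nat.lt_or_ge K k with h | h
    · obtain rfl : k = K + 1 := by omega
      exact h2
    · exact h1 k h

/-- belted regions -/
theorem belt_run (K : ℕ) (ε : ℝ) (hε : 0 < ε) : ∀ᶠ N : ℕ in atTop, ∀ (i k : ℕ) (σ : Bool)
    (m p : ℕ), k ≤ K → ∀ (f : List (Fin N) → ℂ) (B : ℝ), 0 ≤ B → (∀ s, ‖f s‖ ≤ B) → ∀ l,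
    ‖run N (rt N) (bw i k σ m p) f l‖ ≤
      B * ((N : ℝ) ^ (k + p) * ((((m + p : ℕ) : ℝ) + 1) ^ (24 * (k + 1) + 1) *
        Real.exp (N * (cbl k / (2 * π) + ε)))) := by
  filter_upwards [belt_log_all K ε hε, eventually_ge_atTop 1] with N h hN i k σ m p hk f B hB hf l
  have hN1 : (1 : ℝ) ≤ N := by exact_mod_cast hN
  have h1 : (1 : ℝ) ≤ (N : ℝ) ^ p := one_le_pow₀ hN1
  have h2 : (1 : ℝ) ≤ (((m + p : ℕ) : ℝ) + 1) ^ (24 * (k + 1) + 1) :=
    one_le_pow₀ (by have : (0 : ℝ) ≤ ((m + p : ℕ) : ℝ) := Nat.cast_nonneg _; linarith)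
  have h3 : 1 ≤ Real.exp (N * (cbl k / (2 * π) + ε)) := by
    apply Real.one_le_exp
    have := cbl_nonneg k
    have := Real.pi_pos
    positivity
  have hw : 1 ≤ (N : ℝ) ^ p * (((m + p : ℕ) : ℝ) + 1) ^ (24 * (k + 1) + 1) *
      Real.exp (N * (cbl k / (2 * π) + ε)) := by
    have h4 := mul_le_mul h1 h2 zero_le_one (by linarith)
    rw [one_mul] at h4
    have h5 := mul_le_mul h4 h3 zero_le_one (by positivity)
    rwa [one_mul] at h5
  have hb := bw_bound (Pool.Agent.W613.QAT.rt_ne N) (Pool.Agent.W613.QAT.br_rt) i k σ m p hN hw hB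
    (fun s t => h k hk σ m p s t) hf l
  refine hb.trans (le_of_eq ?_)
  rw [pow_add]
  ring

/-- the system of the diagrams with bundle crossings and belted regions -/
noncomputable def SL : Sys RgL where
  word := RgL.word
  rate := RgL.rate
  pf := RgL.pf
  dg := RgL.dg
  wd := RgL.wd
  rate_nonneg P := by
    cases P with
    | basic P => exact brate_nonneg P
    | bun i r s σ => exact cst_nonneg r s
    | belt i k σ m p => exact cbl_nonneg k
  pf_one P := by
    cases P with
    | basic P => exact bpf_one P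
    | bun i r s σ => exact le_rfl
    | belt i k σ m p =>
      exact one_le_pow₀ (by have : (0 : ℝ) ≤ ((m + p : ℕ) : ℝ) := Nat.cast_nonneg _; linarith)
  bound K ε hε := by
    filter_upwards [basic_bound ε hε, bun_bound K ε hε, belt_run K ε hε] with N h1 h2 h3 P hP f B
      hB hf l
    cases P with
    | basic P => exact h1 P f B hB hf l
    | bun i r s σ =>
      have h := h2 i r s σ hP f B hB hf l
      change ‖run N (rt N) (cw σ (LB.bun i r s)) f l‖ ≤
        B * ((N : ℝ) ^ (r + s) * (1 * Real.exp (N * (cst r s / (2 * π) + ε))))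
      rw [one_mul]
      exact h
    | belt i k σ m p => exact h3 i k σ m p hP f B hB hf l

end Pool.Agent.Q191.LB
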