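import Pool.Agent.Q191.LB.Dd
import Pool.Agent.Q191.FT.BPt

/-!
# The eigenvalues of full twists and of circles form regular families
-/

set_option autoImplicit false

namespace Pool.Agent.Q191.LB

open Finset
open Pool.Agent.H550R3.Jones (Gen br brf irr)
open Pool.Agent.H897R.J (gen_v gen_br)
open Pool.Agent.Q191.FT

theorem zpow_on (e : ℤ) : DifferentiableOn ℂ (fun v : ℂ => v ^ e) {0}ᶜ := fun v hv =>
  (differentiableAt_zpow.2 (Or.inl hv)).differentiableWithinAt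

theorem brf_on (n : ℕ) : DifferentiableOn ℂ (fun v : ℂ => brf v n) {0}ᶜ := fun _ hv =>
  (brf_diff hv n).differentiableWithinAt

/-- the exponent of the divided differences of a Gaussian -/
def ex (h : ℤ → ℤ) (s : ℤ) (μ l : ℕ) : ℤ := h (μ + 1) + s * ∑ j ∈ range l, ((μ : ℤ) + 2 + j)

theorem ex_succ (h : ℤ → ℤ) (s : ℤ) (μ l : ℕ) :
    ex h s μ (l + 1) = ex h s μ l + s * ((μ : ℤ) + 2 + l) := by
  unfold ex
  rw [sum_range_succ]
  ring

theorem ex_shift {h : ℤ → ℤ} {s : ℤ} {μ : ℕ} (hh : h (μ + 1 + 2) = h (μ + 1) + 2 * s * (μ + 1 + 1)) :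
    ∀ l : ℕ, ex h s (μ + 2) l = ex h s μ l + 2 * s * ((μ : ℤ) + 2 + l)
  | 0 => by
    unfold ex
    simp only [range_zero, sum_empty, mul_zero, add_zero]
    have e : (((μ + 2 : ℕ) : ℤ) + 1) = μ + 1 + 2 := by push_cast; ring
    rw [e, hh]
    push_cast
    ring
  | l + 1 => by
    rw [ex_succ, ex_succ, ex_shift hh l]
    push_cast
    ring

theorem gauss_br {v : ℂ} (hv : v ≠ 0) {s : ℤ} (hs : s = 1 ∨ s = -1) (n : ℤ) :
    v ^ (2 * s * n) - 1 = (s : ℂ) * v ^ (s * n) * br v n := by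
  unfold br
  have e2 : v ^ n * v ^ (-n) = 1 := by rw [← zpow_add₀ hv, add_neg_cancel, zpow_zero]
  rcases hs with rfl | rfl
  · have e1 : v ^ (2 * 1 * n) = v ^ n * v ^ n := by
      rw [← zpow_add₀ hv]; congr 1; ring
    rw [e1, one_mul]
    push_cast
    linear_combination e2
  · have e1 : v ^ (2 * (-1) * n) = v ^ (-n) * v ^ (-n) := by
      rw [← zpow_add₀ hv]; congr 1; ring
    have e3 : (-1 : ℤ) * n = -n := by ring
    rw [e1, e3]
    push_cast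
    linear_combination e2

theorem dd_gauss {u : ℂ} (hu : Gen u) {p s : ℤ} (hs : s = 1 ∨ s = -1) {h : ℤ → ℤ}
    (hh : ∀ c : ℤ, (2 : ℤ) ∣ c - (p + 1) → h (c + 2) = h c + 2 * s * (c + 1)) :
    ∀ (l μ : ℕ), (2 : ℤ) ∣ μ - p → brf (u ^ 2) l * dd (fun c => (u ^ 2) ^ h c) (u ^ 2) μ l =
      (s : ℂ) ^ l * (u ^ 2) ^ ex h s μ l
  | 0, μ, _ => by
    rw [dd_zero]
    unfold ex
    simp [brf]
  | l + 1, μ, hμ => by
    have hv := gen_v hu
    obtain ⟨k, hk⟩ := hμ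
    have h1 := dd_gauss hu hs hh l μ ⟨k, hk⟩
    have h2 := dd_gauss hu hs hh l (μ + 2) ⟨k + 1, by push_cast; linarith⟩
    have h3 := dd_succ hu (fun c => (u ^ 2) ^ h c) μ l
    have hne : br (u ^ 2) (μ + 2 + l) ≠ 0 := gen_br hu (by omega)
    have h4 := ex_shift (s := s) (μ := μ) (hh (μ + 1) ⟨k, by linarith⟩) l
    rw [ex_succ, zpow_add₀ hv, pow_succ, brf_succ']
    rw [h4, zpow_add₀ hv] at h2
    apply mul_right_cancel₀ hne
    have h5 := gauss_br hv hs ((μ : ℤ) + 2 + l)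
    calc brf (u ^ 2) l * br (u ^ 2) ((l : ℤ) + 1) * dd (fun c => (u ^ 2) ^ h c) (u ^ 2) μ (l + 1) *
          br (u ^ 2) (μ + 2 + l)
        = brf (u ^ 2) l * (dd (fun c => (u ^ 2) ^ h c) (u ^ 2) μ (l + 1) *
          (br (u ^ 2) (μ + 2 + l) * br (u ^ 2) (l + 1))) := by ring
      _ = (s : ℂ) ^ l * (u ^ 2) ^ ex h s μ l * ((u ^ 2) ^ (2 * s * ((μ : ℤ) + 2 + l)) - 1) := by
          rw [h3, mul_sub, h1, h2]; ring
      _ = _ := by rw [h5]; ring_nf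

/-- full twists -/
theorem RegF.gauss {p s : ℤ} (hs : s = 1 ∨ s = -1) {h : ℤ → ℤ}
    (hh : ∀ c : ℤ, (2 : ℤ) ∣ c - (p + 1) → h (c + 2) = h c + 2 * s * (c + 1)) :
    RegF p (fun v c => v ^ h c) := by
  intro μ hμ l
  exact ⟨fun v => (s : ℂ) ^ l * v ^ ex h s μ l, (zpow_on _).const_mul _, fun u hu =>
    dd_gauss hu hs hh l μ hμ⟩

theorem dd_lam {u : ℂ} (hu : Gen u) : ∀ (l μ : ℕ), dd (fun c => lam (u ^ 2) c) (u ^ 2) μ (l + 1) =
    if l = 0 then 1 else 0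
  | 0, μ => by
    have h3 := dd_succ hu (fun c => lam (u ^ 2) c) μ 0
    have hv := gen_v hu
    have hne : br (u ^ 2) (μ + 2 + ((0 : ℕ) : ℤ)) ≠ 0 := gen_br hu (by omega)
    have hne2 : br (u ^ 2) (((0 : ℕ) : ℤ) + 1) ≠ 0 := gen_br hu (by omega)
    rw [dd_zero, dd_zero] at h3
    have h4 := lam_sub hv ((μ : ℤ) + 2) 1
    have e1 : ((μ : ℤ) + 2 + 1) = (((μ + 2 : ℕ) : ℤ) + 1) := by push_cast; ring
    have e2 : ((μ : ℤ) + 2 - 1) = (μ : ℤ) + 1 := by ring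
    have e3 : ((μ : ℤ) + 2 + ((0 : ℕ) : ℤ)) = μ + 2 := by push_cast; ring
    have e4 : (((0 : ℕ) : ℤ) + 1) = 1 := by norm_num
    rw [e1, e2] at h4
    rw [e3] at hne
    rw [e4] at hne2
    rw [h4, e3, e4] at h3
    rw [if_pos rfl]
    exact mul_right_cancel₀ (mul_ne_zero hne hne2) (h3.trans (one_mul _).symm)
  | l + 1, μ => by
    have h3 := dd_succ hu (fun c => lam (u ^ 2) c) μ (l + 1)
    rw [dd_lam hu l μ, dd_lam hu l (μ + 2), sub_self] at h3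
    rw [if_neg (Nat.succ_ne_zero l)]
    have hne : br (u ^ 2) (μ + 2 + ((l + 1 : ℕ) : ℤ)) ≠ 0 := gen_br hu (by omega)
    have hne2 : br (u ^ 2) (((l + 1 : ℕ) : ℤ) + 1) ≠ 0 := gen_br hu (by omega)
    exact (mul_eq_zero.1 h3).resolve_right (mul_ne_zero hne hne2)

theorem RegF.lam (p : ℤ) : RegF p (fun v c => lam v c) := by
  intro μ _ l
  rcases l with _ | l
  · refine ⟨fun v => v ^ ((μ : ℤ) + 1) + v ^ (-((μ : ℤ) + 1)), (zpow_on _).add (zpow_on _),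
      fun u hu => ?_⟩
    rw [dd_zero]
    simp [brf, FT.lam]
  · refine ⟨fun v => brf v (l + 1) * (if l = 0 then 1 else 0), (brf_on _).mul_const _,
      fun u hu => ?_⟩
    rw [dd_lam hu]

/-- characters of the irreducible modules -/
noncomputable def Uc (v : ℂ) (n : ℕ) (c : ℤ) : ℂ := ∑ x ∈ range n, v ^ (c * ((n : ℤ) - 1 - 2 * x))

theorem Uc_rec {v : ℂ} (hv : v ≠ 0) (n : ℕ) (c : ℤ) :
    Uc v (n + 2) c = lam v c * Uc v (n + 1) c + (-1) * Uc v n c := by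
  unfold Uc FT.lam
  have h1 : ∑ x ∈ range (n + 2), v ^ (c * (((n + 2 : ℕ) : ℤ) - 1 - 2 * x)) =
      v ^ c * ∑ x ∈ range (n + 1), v ^ (c * (((n + 1 : ℕ) : ℤ) - 1 - 2 * x)) +
        v ^ (-(c * ((n : ℤ) + 1))) := by
    rw [sum_range_succ, mul_sum]
    congr 1
    · refine sum_congr rfl fun x _ => ?_
      rw [← zpow_add₀ hv]
      congr 1
      push_cast
      ring
    · congr 1
      push_cast
      ring
  have h2 : v ^ (-c) * ∑ x ∈ range (n + 1), v ^ (c * (((n + 1 : ℕ) : ℤ) - 1 - 2 * x)) =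
      ∑ x ∈ range n, v ^ (c * ((n : ℤ) - 1 - 2 * x)) + v ^ (-(c * ((n : ℤ) + 1))) := by
    rw [sum_range_succ, mul_add, mul_sum]
    congr 1
    · refine sum_congr rfl fun x _ => ?_
      rw [← zpow_add₀ hv]
      congr 1
      push_cast
      ring
    · rw [← zpow_add₀ hv]
      congr 1
      push_cast
      ring
  rw [h1, add_mul, h2]
  ring

theorem RegF.Uc (p : ℤ) : ∀ n : ℕ, RegF p (fun v c => Uc v n c)
  | 0 => by
    refine ((RegF.one p).smul (a := fun _ => 0) (differentiableOn_const _)).congr ?_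
    intro u hu c _
    simp [LB.Uc]
  | 1 => by
    refine (RegF.one p).congr ?_
    intro u hu c _
    simp [LB.Uc]
  | n + 2 => by
    refine (((RegF.lam p).mul (RegF.Uc p (n + 1))).add
      ((RegF.Uc p n).smul (a := fun _ => -1) (differentiableOn_const _))).congr ?_
    intro u hu c _
    exact (Uc_rec (gen_v hu) n c).symm

theorem chi_eq (v : ℂ) (N : ℕ) (c : ℤ) : chi v N c = (-1 : ℂ) ^ (N - 1) * Uc v N c := by
  unfold chi Uc
  congr 1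
  exact Fin.sum_univ_eq_sum_range (fun x : ℕ => v ^ (c * ((N : ℤ) - 1 - 2 * x))) N

/-- circles -/
theorem RegF.chi (p : ℤ) (N : ℕ) : RegF p (fun v c => chi v N c) := by
  refine ((RegF.Uc p N).smul (a := fun _ => (-1 : ℂ) ^ (N - 1)) (differentiableOn_const _)).congr ?_
  intro u hu c _
  exact (chi_eq _ N c).symm

/-- the exponent of a full twist -/
def hh (K N : ℕ) (s : ℤ) (c : ℤ) : ℤ := s * ((c ^ 2 - 1 - K ^ 2 * ((N : ℤ) ^ 2 - 1)) / 2)

theorem hh_even {K N : ℕ} {c : ℤ} (hc : (2 : ℤ) ∣ c - (K * ((N : ℤ) - 1) + 1)) :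
    (2 : ℤ) ∣ c ^ 2 - 1 - K ^ 2 * ((N : ℤ) ^ 2 - 1) := by
  obtain ⟨k, hk⟩ := hc
  have e : c = K * ((N : ℤ) - 1) + 1 + 2 * k := by linarith
  subst e
  rcases Int.even_or_odd' (N : ℤ) with ⟨n, hn | hn⟩
  · rw [hn]
    exact ⟨2 * k * (K * (2 * n - 1) + 1) + 2 * k ^ 2 + K * (2 * n - 1) - K ^ 2 * (2 * n - 1), by ring⟩
  · rw [hn]
    exact ⟨2 * k * (K * (2 * n + 1 - 1) + 1) + 2 * k ^ 2 + 2 * K * n - 2 * K ^ 2 * n, by ring⟩

theorem hh_two {K N : ℕ} {s c : ℤ} (hc : (2 : ℤ) ∣ c - (K * ((N : ℤ) - 1) + 1)) :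
    2 * hh K N s c = s * (c ^ 2 - 1 - K ^ 2 * ((N : ℤ) ^ 2 - 1)) := by
  unfold hh
  have h := Int.mul_ediv_cancel' (hh_even hc)
  linear_combination s * h

theorem hh_rec {K N : ℕ} {s c : ℤ} (hc : (2 : ℤ) ∣ c - (K * ((N : ℤ) - 1) + 1)) :
    hh K N s (c + 2) = hh K N s c + 2 * s * (c + 1) := by
  have h1 := hh_two (s := s) hc
  have hc2 : (2 : ℤ) ∣ (c + 2) - (K * ((N : ℤ) - 1) + 1) := by
    obtain ⟨k, hk⟩ := hc
    exact ⟨k + 1, by linarith⟩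
  have h2 := hh_two (s := s) hc2
  have h3 : 2 * hh K N s (c + 2) = 2 * (hh K N s c + 2 * s * (c + 1)) := by
    rw [h2, mul_add, h1]; ring
  exact mul_left_cancel₀ two_ne_zero h3

/-- eigenvalues of belted full twists -/
noncomputable def ff (K N : ℕ) (s : ℤ) (m p : ℕ) (v : ℂ) (c : ℤ) : ℂ :=
  (v ^ hh K N s c) ^ m * (v ^ (-(K * ((N : ℤ) ^ 2 - 1))) * chi v N c) ^ p

theorem RegF.ff (K N : ℕ) {s : ℤ} (hs : s = 1 ∨ s = -1) (m p : ℕ) :
    RegF (K * ((N : ℤ) - 1)) (ff K N s m p) :=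
  ((RegF.gauss hs fun _ hc => hh_rec hc).pow m).mul
    (((RegF.chi _ N).smul (zpow_on _)).pow p)

end Pool.Agent.Q191.LB
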